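import Pool.Agent.MP_ca1109_lc.Pt.EX

/-!
# Row AU: autocorrelations
-/

namespace Pool.Agent.MP_ca1109_lc.Pt

open Finset Pool.Agent.H66 Pool.Agent.MP_ca1109_lc.Mpg Pool.Agent.MP_ca1109_lc.Agp
  Pool.Agent.MP_ca1109_lc.Xp
open Pool.Agent.MP_ca1109_lc.Dnf (Cube ch one On)

variable {n : ℕ}

/-! ## The signs `cc` -/

theorem cc_sg (U : Finset (Fin n)) (w : Cube n) : cc U w = ∏ i ∈ U, -Dnf.sg (w i) := by
  unfold cc
  refine prod_congr rfl fun i _ => ?_
  cases w i <;> simp [Dnf.sg]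

theorem cc_eq_ch (U : Finset (Fin n)) (w : Cube n) : cc U w = (-1) ^ U.card * ch U w := by
  rw [cc_sg]
  unfold ch
  rw [← prod_const, ← prod_mul_distrib]
  exact prod_congr rfl fun i _ => by ring

theorem cc_abs (U : Finset (Fin n)) (w : Cube n) : |cc U w| = 1 := by
  rw [cc_eq_ch, abs_mul, abs_pow, abs_neg, abs_one, one_pow, Dnf.ch_abs, one_mul]

theorem cc_empty (w : Cube n) : cc ∅ w = 1 := by simp [cc]

theorem cc_mul (S T : Finset (Fin n)) (w : Cube n) : cc S w * cc T w = cc (symmDiff S T) w := by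
  have h1 : ∀ U : Finset (Fin n), cc U w = ch U fun i => !(w i) := by
    intro U
    rw [cc_sg]
    unfold ch
    refine prod_congr rfl fun i _ => ?_
    rcases h : w i with _ | _ <;> simp [Dnf.sg, h]
  rw [h1, h1, h1, Dnf.ch_mul]

/-- The spectral norm of a sign. -/
theorem sp_cc (U : Finset (Fin n)) : Sp 1 (fun W : Cube n => ((cc U W : ℝ) : ℂ)) := by
  have h := (Sp_real (ch U : Cube n → ℝ)).smul ((-1 : ℂ) ^ U.card)
  refine (h.mono (le_of_eq ?_)).congr' fun W => ?_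
  · rw [Dnf.L1_ch, norm_pow, norm_neg, norm_one, one_pow, mul_one]
  · rw [cc_eq_ch]
    push_cast
    ring

theorem au_av_ch (S T : Finset (Fin n)) :
    av (fun y : Cube n => ((ch S y : ℝ) : ℂ) * ((ch T y : ℝ) : ℂ)) = if S = T then 1 else 0 := by
  have h1 : (fun y : Cube n => ((ch S y : ℝ) : ℂ) * ((ch T y : ℝ) : ℂ)) =
      fun y => ((ch (symmDiff S T) y : ℝ) : ℂ) := by
    funext y
    rw [← Dnf.ch_mul]
    push_cast
    rfl
  have h2 : avg (fun y : Cube n => ch (symmDiff S T) y) = Dnf.E (ch (symmDiff S T)) := spb_avg_E _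
  rw [h1, spb_avg_ofReal, h2, Dnf.E_ch]
  have h3 : (symmDiff S T = ∅) ↔ S = T := by
    rw [← bot_eq_empty, symmDiff_eq_bot]
  simp only [h3]
  split_ifs <;> simp

/-! ## The autocorrelation -/

theorem au_eq (f : Cube n → ℂ) (W : Cube n) :
    au f W = ((∑ S, ‖co f S‖ ^ 2 * cc S W : ℝ) : ℂ) := by
  have h1 : ∀ y : Cube n, dr f W y =
      ∑ S, ∑ T, (co f S * (starRingEnd ℂ) (co f T) * ((cc T W : ℝ) : ℂ)) *
        (((ch S y : ℝ) : ℂ) * ((ch T y : ℝ) : ℂ)) := by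
    intro y
    unfold dr
    rw [co_exp f y, co_exp f (xo y W), map_sum, sum_mul_sum]
    refine sum_congr rfl fun S _ => sum_congr rfl fun T _ => ?_
    rw [map_mul, Complex.conj_ofReal, spb_ch_xo, ← cc_sg]
    push_cast
    ring
  unfold au
  have h2 : dr f W = fun y =>
      ∑ S, ∑ T, (co f S * (starRingEnd ℂ) (co f T) * ((cc T W : ℝ) : ℂ)) *
        (((ch S y : ℝ) : ℂ) * ((ch T y : ℝ) : ℂ)) := funext h1
  rw [h2, spb_av_sum]
  simp_rw [spb_av_sum, spb_av_mul, au_av_ch]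
  push_cast
  refine sum_congr rfl fun S _ => ?_
  rw [sum_eq_single S]
  · rw [if_pos rfl, mul_one, Complex.mul_conj, Complex.normSq_eq_norm_sq]
    push_cast
    rfl
  · intro T _ hT
    rw [if_neg (Ne.symm hT), mul_zero]
  · intro h
    exact absurd (mem_univ S) h

theorem cb_nonneg (f : Cube n → ℂ) (U : Finset (Fin n)) : 0 ≤ cb f U :=
  sum_nonneg fun _ _ => mul_nonneg (sq_nonneg _) (sq_nonneg _)

theorem cb_conv (f : Cube n → ℂ) (F : Finset (Fin n) → ℝ) :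
    ∑ U, cb f U * F U = ∑ S, ∑ T, ‖co f S‖ ^ 2 * ‖co f T‖ ^ 2 * F (symmDiff S T) := by
  unfold cb
  simp_rw [sum_mul]
  rw [sum_comm]
  refine sum_congr rfl fun S _ => ?_
  have hinv : Function.Involutive fun U : Finset (Fin n) => symmDiff S U := fun U => by
    simp
  rw [← hinv.bijective.sum_comp fun T => ‖co f S‖ ^ 2 * ‖co f T‖ ^ 2 * F (symmDiff S T)]
  refine sum_congr rfl fun U _ => ?_
  have : symmDiff S (symmDiff S U) = U := hinv U
  rw [this]

theorem normsq_au (f : Cube n → ℂ) (W : Cube n) : ‖au f W‖ ^ 2 = ∑ U, cb f U * cc U W := by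
  rw [cb_conv, au_eq, Complex.norm_real, Real.norm_eq_abs, sq_abs, sq, sum_mul_sum]
  refine sum_congr rfl fun S _ => sum_congr rfl fun T _ => ?_
  rw [← cc_mul]
  ring

theorem cb_sum' (f : Cube n → ℂ) : ∑ U, cb f U = (∑ S, ‖co f S‖ ^ 2) ^ 2 := by
  have h := cb_conv f fun _ => 1
  simp only [mul_one] at h
  rw [h, sq, sum_mul_sum]

theorem cb_sum_eq (f : Cube n → ℂ) : ∑ U, cb f U = (avg fun x => ‖f x‖ ^ 2) ^ 2 := by
  rw [cb_sum', co_parseval]

theorem co_sum_le (f : Cube n → ℂ) (hf : ∀ x, ‖f x‖ ≤ 1) : ∑ S, ‖co f S‖ ^ 2 ≤ 1 := by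
  rw [co_parseval]
  unfold avg
  rw [div_le_one (by positivity)]
  calc ∑ y, ‖f y‖ ^ 2 ≤ ∑ _y : Cube n, (1 : ℝ) :=
        sum_le_sum fun y _ => pow_le_one₀ (norm_nonneg _) (hf y)
    _ = (Fintype.card (Cube n) : ℝ) := by simp

theorem cb_sum (f : Cube n → ℂ) (hf : ∀ x, ‖f x‖ ≤ 1) : ∑ U, cb f U ≤ 1 := by
  rw [cb_sum']
  exact pow_le_one₀ (sum_nonneg fun _ _ => sq_nonneg _) (co_sum_le f hf)

theorem cb_on {I : Finset (Fin n)} {f : Cube n → ℂ} (h : On I f) {U : Finset (Fin n)}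
    (hU : ¬ U ⊆ I) : cb f U = 0 := by
  unfold cb
  refine sum_eq_zero fun S _ => ?_
  by_cases h1 : S ⊆ I
  · by_cases h2 : symmDiff S U ⊆ I
    · exfalso
      apply hU
      intro i hi
      by_cases h3 : i ∈ S
      · exact h1 h3
      · exact h2 (by rw [mem_symmDiff]; exact Or.inr ⟨hi, h3⟩)
    · rw [co_on h h2, norm_zero]
      ring
  · rw [co_on h h1, norm_zero]
    ring

theorem cb_empty (f : Cube n → ℂ) : cb f ∅ = ∑ S, (‖co f S‖ ^ 2) ^ 2 := by
  unfold cb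
  refine sum_congr rfl fun S _ => ?_
  have : symmDiff S (∅ : Finset (Fin n)) = S := by
    rw [← bot_eq_empty, symmDiff_bot]
  rw [this]
  ring

theorem dr_on {I : Finset (Fin n)} {f : Cube n → ℂ} (h : On I f) (W : Cube n) :
    On I (dr f W) := by
  intro x y hxy
  unfold dr
  rw [h x y hxy, h (xo x W) (xo y W) fun i hi => by unfold xo; rw [hxy i hi]]

theorem dr_norm (f : Cube n → ℂ) (hf : ∀ x, ‖f x‖ ≤ 1) (W y : Cube n) : ‖dr f W y‖ ≤ 1 := by
  unfold dr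
  rw [norm_mul, Complex.norm_conj]
  exact mul_le_one₀ (hf _) (norm_nonneg _) (hf _)

theorem au_le (f : Cube n → ℂ) (hf : ∀ x, ‖f x‖ ≤ 1) (W : Cube n) : ‖au f W‖ ≤ 1 := by
  rw [au_eq, Complex.norm_real, Real.norm_eq_abs]
  refine (abs_sum_le_sum_abs _ _).trans ?_
  refine le_trans (sum_le_sum fun S _ => ?_) (co_sum_le f hf)
  rw [abs_mul, cc_abs, mul_one, abs_of_nonneg (sq_nonneg _)]

theorem dr_blk {N : ℕ} {J : Finset (Fin n)} {I : Fin n → Finset (Fin n)}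
    {f : Fin n → Cube n → ℂ} (h : Blk N J I f) (W : Cube n) :
    Blk N J I (fun j => dr (f j) W) where
  pos := h.pos
  dj := h.dj
  wd := h.wd
  on := fun j hj => dr_on (h.on j hj) W
  le := fun j hj x => dr_norm (f j) (h.le j hj) W x

theorem dr_prod (J : Finset (Fin n)) (f : Fin n → Cube n → ℂ) (W y : Cube n) :
    dr (fun x => ∏ j ∈ J, f j x) W y = ∏ j ∈ J, dr (f j) W y := by
  unfold dr
  rw [map_prod, prod_mul_distrib]

end Pool.Agent.MP_ca1109_lc.Pt
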