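import Pool.Agent.MP_ca1109_lc.Pt.Defs

namespace Pool.Agent.MP_ca1109_lc.Pt

open Finset Pool.Agent.H66 Pool.Agent.MP_ca1109_lc.Mpg Pool.Agent.MP_ca1109_lc.Agp
  Pool.Agent.MP_ca1109_lc.Xp
open Pool.Agent.MP_ca1109_lc.Dnf (Cube ch one On)

variable {n : ℕ}

/-! ## CS: Cauchy-Schwarz -/

theorem mv_eq {B : ℕ} (z : Cube n) (η : Finset (Fin n)) (h : Fin n → Fin B) (u : Fin B → Bool) :
    mv z η h u = xo z (wd η h u) := rfl

/-- Jensen. -/
theorem cs_sq {A : Type*} [Fintype A] [Nonempty A] (F : A → ℂ) :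
    ‖av F‖ ^ 2 ≤ avg fun a => ‖F a‖ ^ 2 :=
  (pow_le_pow_left₀ (norm_nonneg _) (norm_av_le F) 2).trans
    (avg_pow_le (fun a => norm_nonneg (F a)) 2)

theorem cs_conj {A : Type*} [Fintype A] (F : A → ℂ) :
    (starRingEnd ℂ) (av F) = av fun a => (starRingEnd ℂ) (F a) := by
  unfold av
  rw [map_div₀, map_sum, Complex.conj_natCast]

theorem cs_mul_right {A : Type*} [Fintype A] (F : A → ℂ) (c : ℂ) :
    av F * c = av fun a => F a * c := by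
  unfold av
  rw [← Finset.sum_mul, div_mul_eq_mul_div]

theorem cs_mul_left {A : Type*} [Fintype A] (F : A → ℂ) (c : ℂ) :
    c * av F = av fun a => c * F a := by
  unfold av
  rw [← Finset.mul_sum, mul_div_assoc]

theorem cs_xo_comm (x s : Cube n) : xo x s = xo s x := by
  funext i
  exact Bool.xor_comm _ _

theorem cs_xo_assoc (x y z : Cube n) : xo (xo x y) z = xo x (xo y z) := by
  funext i
  exact Bool.xor_assoc _ _ _

/-- The square of the average as a double average. -/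
theorem cs_normsq {B : ℕ} (g : Cube B → ℂ) :
    ((‖av g‖ ^ 2 : ℝ) : ℂ) =
      av fun d : Cube B => av fun u : Cube B => g u * (starRingEnd ℂ) (g (xo u d)) := by
  have h1 : ((‖av g‖ ^ 2 : ℝ) : ℂ) = av g * (starRingEnd ℂ) (av g) := by
    rw [Complex.mul_conj, Complex.normSq_eq_norm_sq]
  rw [h1, cs_conj, cs_mul_right, av_comm]
  congr 1
  funext u
  rw [cs_mul_left, ← av_xo (fun d => g u * (starRingEnd ℂ) (g d)) u]
  congr 1
  funext d
  rw [cs_xo_comm]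

theorem cs_wd {B : ℕ} (η : Finset (Fin n)) (h : Fin n → Fin B) (u d : Fin B → Bool) :
    wd η h (xo u d) = xo (wd η h u) (wd η h d) := by
  funext i
  unfold wd xo
  by_cases hi : i ∈ η <;> simp [hi]

theorem cs {Ω₁ Ω₂ : Type} [Fintype Ω₁] [Nonempty Ω₁] [Fintype Ω₂] [Nonempty Ω₂] {B : ℕ}
    (f : Cube n → ℂ) (Y : Ω₁ → Cube n) (η : Ω₂ → Finset (Fin n)) (h : Ω₂ → Fin n → Fin B)
    (sh : Ω₂ → Cube n) :
    ‖av fun ω₂ => av fun ω₁ => av fun u : Fin B → Bool =>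
      f (mv (xo (Y ω₁) (sh ω₂)) (η ω₂) (h ω₂) u)‖ ^ 2 ≤
    avg fun d : Fin B → Bool => avg fun ω₂ => avg fun u : Fin B → Bool =>
      ‖av fun ω₁ => dr f (wd (η ω₂) (h ω₂) d)
        (xo (Y ω₁) (xo (sh ω₂) (wd (η ω₂) (h ω₂) u)))‖ := by
  set g : Ω₂ → Ω₁ → (Fin B → Bool) → ℂ := fun ω₂ ω₁ u =>
    f (mv (xo (Y ω₁) (sh ω₂)) (η ω₂) (h ω₂) u) with hg
  have h1 : ‖av fun ω₂ => av fun ω₁ => av (g ω₂ ω₁)‖ ^ 2 ≤
      avg fun ω₂ => avg fun ω₁ => ‖av (g ω₂ ω₁)‖ ^ 2 :=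
    (cs_sq _).trans (avg_mono fun ω₂ => cs_sq _)
  refine h1.trans ?_
  have h2 : (((avg fun ω₂ => avg fun ω₁ => ‖av (g ω₂ ω₁)‖ ^ 2 : ℝ)) : ℂ) =
      av fun d : Fin B → Bool => av fun ω₂ => av fun u : Fin B → Bool => av fun ω₁ =>
        dr f (wd (η ω₂) (h ω₂) d) (xo (Y ω₁) (xo (sh ω₂) (wd (η ω₂) (h ω₂) u))) := by
    rw [← spb_avg_ofReal]
    rw [av_comm]
    congr 1
    funext ω₂
    rw [← spb_avg_ofReal]
    have h3 : ∀ ω₁, ((‖av (g ω₂ ω₁)‖ ^ 2 : ℝ) : ℂ) = av fun d : Fin B → Bool =>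
        av fun u : Fin B → Bool => dr f (wd (η ω₂) (h ω₂) d)
          (xo (Y ω₁) (xo (sh ω₂) (wd (η ω₂) (h ω₂) u))) := by
      intro ω₁
      refine (cs_normsq (g ω₂ ω₁)).trans ?_
      congr 1
      funext d
      congr 1
      funext u
      rw [hg]
      unfold dr
      beta_reduce
      rw [mv_eq, mv_eq, cs_wd, ← cs_xo_assoc, cs_xo_assoc (Y ω₁)]
    simp_rw [h3]
    rw [av_comm]
    congr 1
    funext d
    rw [av_comm]
  have h4 : (avg fun ω₂ => avg fun ω₁ => ‖av (g ω₂ ω₁)‖ ^ 2) =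
      ‖(((avg fun ω₂ => avg fun ω₁ => ‖av (g ω₂ ω₁)‖ ^ 2 : ℝ)) : ℂ)‖ := by
    rw [Complex.norm_real, Real.norm_eq_abs, abs_of_nonneg]
    exact avg_nonneg fun _ => avg_nonneg fun _ => by positivity
  rw [h4, h2]
  refine (norm_av_le _).trans (avg_mono fun d => ?_)
  refine (norm_av_le _).trans (avg_mono fun ω₂ => ?_)
  exact norm_av_le _

end Pool.Agent.MP_ca1109_lc.Pt
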