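import Mathlib

/-!
# Commutative monoids with at most `k` elements

A function of the product `∏ j, g j` in such a monoid is a combination of bounded total weight of
functions `∏ j, t (g j)` with `‖t m‖ ≤ 1`.
-/

namespace Pool.Agent.MP_ca1109_lc.Pt.CMx

open Finset

/-- Expansions of total weight at most `B` into product functions. -/
def XM (n : ℕ) (M : Type) (B : ℝ) (Φ : (Fin n → M) → ℂ) : Prop :=
  ∃ (ι : Type) (_ : Fintype ι) (a : ι → ℂ) (t : ι → M → ℂ), ∑ i, ‖a i‖ ≤ B ∧
    (∀ i m, ‖t i m‖ ≤ 1) ∧ ∀ g : Fin n → M, Φ g = ∑ i, a i * ∏ j, t i (g j)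

namespace XM

variable {n : ℕ} {M : Type} {B B' : ℝ} {Φ Ψ : (Fin n → M) → ℂ}

theorem nonneg (h : XM n M B Φ) : 0 ≤ B := by
  obtain ⟨ι, _, a, t, h1, -, -⟩ := h
  exact (Finset.sum_nonneg fun i _ => norm_nonneg (a i)).trans h1

theorem mono (h : XM n M B Φ) (hB : B ≤ B') : XM n M B' Φ := by
  obtain ⟨ι, _, a, t, h1, h2, h3⟩ := h
  exact ⟨ι, _, a, t, h1.trans hB, h2, h3⟩

theorem congr (h : XM n M B Φ) (e : ∀ g, Φ g = Ψ g) : XM n M B Ψ := by
  have : Φ = Ψ := funext e
  rw [← this]
  exact h

theorem const (c : ℂ) : XM n M ‖c‖ (fun _ => c) := by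
  refine ⟨Unit, inferInstance, fun _ => c, fun _ _ => 1, ?_, ?_, ?_⟩
  · simp
  · simp
  · simp

theorem add (h : XM n M B Φ) (h' : XM n M B' Ψ) : XM n M (B + B') (fun g => Φ g + Ψ g) := by
  obtain ⟨ι, _, a, t, h1, h2, h3⟩ := h
  obtain ⟨ι', _, a', t', h1', h2', h3'⟩ := h'
  refine ⟨ι ⊕ ι', inferInstance, Sum.elim a a', Sum.elim t t', ?_, ?_, ?_⟩
  · simp only [Fintype.sum_sum_type, Sum.elim_inl, Sum.elim_inr]
    exact add_le_add h1 h1'
  · rintro (i | i) m
    · exact h2 i m
    · exact h2' i m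
  · intro g
    simp only [Fintype.sum_sum_type, Sum.elim_inl, Sum.elim_inr, h3, h3']

theorem mul (h : XM n M B Φ) (h' : XM n M B' Ψ) : XM n M (B * B') (fun g => Φ g * Ψ g) := by
  have hB := h.nonneg
  obtain ⟨ι, _, a, t, h1, h2, h3⟩ := h
  obtain ⟨ι', _, a', t', h1', h2', h3'⟩ := h'
  refine ⟨ι × ι', inferInstance, fun p => a p.1 * a' p.2, fun p m => t p.1 m * t' p.2 m, ?_, ?_, ?_⟩
  · rw [Fintype.sum_prod_type]
    simp only [norm_mul]
    rw [← Finset.sum_mul_sum]
    exact mul_le_mul h1 h1' (Finset.sum_nonneg fun i _ => norm_nonneg (a' i)) hB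
  · rintro ⟨i, i'⟩ m
    simp only [norm_mul]
    exact mul_le_one₀ (h2 i m) (norm_nonneg _) (h2' i' m)
  · intro g
    simp only [h3, h3']
    rw [Fintype.sum_prod_type, Finset.sum_mul_sum]
    refine Finset.sum_congr rfl fun i _ => Finset.sum_congr rfl fun i' _ => ?_
    rw [Finset.prod_mul_distrib]
    ring

theorem sum {κ : Type} (s : Finset κ) {B : ℝ} (Φ : κ → (Fin n → M) → ℂ)
    (h : ∀ i ∈ s, XM n M B (Φ i)) : XM n M (s.card * B) (fun g => ∑ i ∈ s, Φ i g) := by
  classical
  induction s using Finset.induction_on with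
  | empty => simpa using const (n := n) (M := M) 0
  | insert i s hi ih =>
    have h1 := h i (mem_insert_self i s)
    have h2 := ih fun j hj => h j (mem_insert_of_mem hj)
    have h3 := h1.add h2
    simp only [sum_insert hi, card_insert_of_notMem hi]
    refine h3.mono (le_of_eq ?_)
    push_cast
    ring

theorem prod {κ : Type} (s : Finset κ) {B : ℝ} (Φ : κ → (Fin n → M) → ℂ)
    (h : ∀ i ∈ s, XM n M B (Φ i)) : XM n M (B ^ s.card) (fun g => ∏ i ∈ s, Φ i g) := by
  classical
  induction s using Finset.induction_on with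
  | empty => simpa using const (n := n) (M := M) 1
  | insert i s hi ih =>
    have h1 := h i (mem_insert_self i s)
    have h2 := ih fun j hj => h j (mem_insert_of_mem hj)
    have h3 := h1.mul h2
    simp only [prod_insert hi, card_insert_of_notMem hi]
    refine h3.mono (le_of_eq ?_)
    rw [pow_succ]
    ring

end XM

/-- The number of indices with value `m`. -/
noncomputable def ct {n : ℕ} {M : Type} (m : M) (g : Fin n → M) : ℕ := by
  classical exact (univ.filter fun j => g j = m).card

theorem ct_le {n : ℕ} {M : Type} (m : M) (g : Fin n → M) : ct m g ≤ n := by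
  classical
  unfold ct
  exact (card_filter_le _ _).trans (by simp)

theorem xm_pow {n : ℕ} {M : Type} (m : M) (B : ℝ) {κ : Type} [Fintype κ] (a w : κ → ℂ)
    (φ : ℕ → ℂ) (ha : ∑ i, ‖a i‖ ≤ B) (hw : ∀ i, ‖w i‖ ≤ 1)
    (hφ : ∀ N ≤ n, φ N = ∑ i, a i * w i ^ N) : XM n M B (fun g => φ (ct m g)) := by
  classical
  refine ⟨κ, _, a, fun i m' => if m' = m then w i else 1, ha, ?_, ?_⟩
  · intro i m'
    dsimp only
    split_ifs
    · exact hw i
    · simp
  · intro g
    show φ (ct m g) = _
    rw [hφ _ (ct_le m g)]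
    refine Finset.sum_congr rfl fun i _ => ?_
    rw [Finset.prod_ite, Finset.prod_const, Finset.prod_const_one, mul_one]
    unfold ct
    congr

/-- Sums of powers of a root of unity. -/
theorem root_sum {q : ℕ} (hq : 0 < q) (m : ℕ) :
    ∑ i : Fin q, (Complex.exp (2 * Real.pi * Complex.I / q)) ^ ((i : ℕ) * m) =
      if q ∣ m then (q : ℂ) else 0 := by
  have hζ := Complex.isPrimitiveRoot_exp q hq.ne'
  set ζ := Complex.exp (2 * Real.pi * Complex.I / q) with hζd
  have h0 : ∑ i : Fin q, ζ ^ ((i : ℕ) * m) = ∑ i ∈ range q, (ζ ^ m) ^ i := by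
    rw [Finset.sum_range]
    refine Finset.sum_congr rfl fun i _ => ?_
    rw [← pow_mul, mul_comm]
  rw [h0]
  split_ifs with h
  · have : ζ ^ m = 1 := (hζ.pow_eq_one_iff_dvd m).2 h
    simp [this]
  · have h1 : ζ ^ m ≠ 1 := fun h' => h ((hζ.pow_eq_one_iff_dvd m).1 h')
    have h2 : (ζ ^ m) ^ q = 1 := by
      rw [← pow_mul, mul_comm, pow_mul, hζ.pow_eq_one, one_pow]
    have h3 := geom_sum_eq h1 q
    rw [h3, h2]
    simp

theorem norm_zeta (q : ℕ) : ‖Complex.exp (2 * Real.pi * Complex.I / q)‖ = 1 := by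
  have : (2 * Real.pi * Complex.I / q : ℂ) = ((2 * Real.pi / q : ℝ) : ℂ) * Complex.I := by
    push_cast
    ring
  rw [this, Complex.norm_exp_ofReal_mul_I]

theorem xm_mod {n : ℕ} {M : Type} (m : M) {q : ℕ} (hq : 0 < q) (c : ℕ) :
    XM n M 1 (fun g => if ct m g % q = c % q then 1 else 0) := by
  set ζ := Complex.exp (2 * Real.pi * Complex.I / q) with hζd
  have hq' : (q : ℂ) ≠ 0 := by exact_mod_cast hq.ne'
  refine xm_pow m 1 (κ := Fin q) (fun i => (1 / q) * ζ ^ ((i : ℕ) * ((q - 1) * c)))
    (fun i => ζ ^ (i : ℕ)) (fun N => if N % q = c % q then 1 else 0) ?_ ?_ ?_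
  · have : ∀ i : Fin q, ‖(1 / (q : ℂ)) * ζ ^ ((i : ℕ) * ((q - 1) * c))‖ = 1 / q := by
      intro i
      rw [norm_mul, norm_pow, hζd, norm_zeta, one_pow, mul_one]
      simp
    rw [Finset.sum_congr rfl fun i _ => this i]
    simp [hq.ne']
  · intro i
    rw [norm_pow, hζd, norm_zeta, one_pow]
  · intro N _
    have h1 : ∀ i : Fin q, (1 / (q : ℂ)) * ζ ^ ((i : ℕ) * ((q - 1) * c)) * (ζ ^ (i : ℕ)) ^ N =
        (1 / q) * ζ ^ ((i : ℕ) * ((q - 1) * c + N)) := by
      intro i
      rw [← pow_mul, mul_add, pow_add]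
      ring
    rw [Finset.sum_congr rfl fun i _ => h1 i, ← Finset.mul_sum, hζd, root_sum hq]
    have h2 : q ∣ (q - 1) * c + N ↔ N % q = c % q := by
      have h3 : (q - 1) * c + c = q * c := by
        obtain ⟨r, rfl⟩ : ∃ r, q = r + 1 := ⟨q - 1, by omega⟩
        simp only [Nat.add_sub_cancel]
        ring
      constructor
      · intro h
        have h4 : (q - 1) * c + N ≡ (q - 1) * c + c [MOD q] := by
          rw [h3]
          exact ((Nat.modEq_zero_iff_dvd).2 h).trans
            ((Nat.modEq_zero_iff_dvd).2 (dvd_mul_right q c)).symm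
        exact Nat.ModEq.add_left_cancel' _ h4
      · intro h
        have h4 : (q - 1) * c + N ≡ (q - 1) * c + c [MOD q] := Nat.ModEq.add_left _ h
        rw [h3] at h4
        exact (Nat.modEq_zero_iff_dvd).1 (h4.trans ((Nat.modEq_zero_iff_dvd).2 (dvd_mul_right q c)))
    by_cases h : N % q = c % q
    · rw [if_pos h, if_pos (h2.2 h)]
      field_simp
    · rw [if_neg h, if_neg (fun h' => h (h2.1 h'))]
      simp

theorem xm_pt {n : ℕ} {M : Type} (m : M) (c : ℕ) :
    XM n M (2 ^ c) (fun g => if ct m g = c then 1 else 0) := by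
  rcases lt_or_ge n c with hc | hc
  · have h0 : XM n M (2 ^ c) (fun _ => 0) := (XM.const (n := n) (M := M) 0).mono (by simp)
    refine h0.congr fun g => ?_
    rw [if_neg]
    have := ct_le m g
    omega
  set q := n + 1 with hqd
  have hq : 0 < q := by omega
  set ζ := Complex.exp (2 * Real.pi * Complex.I / q) with hζd
  have hq' : (q : ℂ) ≠ 0 := by exact_mod_cast hq.ne'
  refine xm_pow m (2 ^ c) (κ := Fin q) (fun i => (1 / q) * 2 ^ c * ζ ^ ((i : ℕ) * (q - c)))
    (fun i => ζ ^ (i : ℕ) / 2) (fun N => if N = c then 1 else 0) ?_ ?_ ?_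
  · have : ∀ i : Fin q, ‖(1 / (q : ℂ)) * 2 ^ c * ζ ^ ((i : ℕ) * (q - c))‖ = 1 / q * 2 ^ c := by
      intro i
      rw [norm_mul, norm_mul, norm_pow, norm_pow, hζd, norm_zeta, one_pow, mul_one]
      simp
    rw [Finset.sum_congr rfl fun i _ => this i]
    have hq'' : (q : ℝ) ≠ 0 := by exact_mod_cast hq.ne'
    rw [Finset.sum_const, Finset.card_univ, Fintype.card_fin, nsmul_eq_mul]
    apply le_of_eq
    field_simp
  · intro i
    rw [norm_div, norm_pow, hζd, norm_zeta, one_pow]
    norm_num
  · intro N hN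
    have h1 : ∀ i : Fin q, (1 / (q : ℂ)) * 2 ^ c * ζ ^ ((i : ℕ) * (q - c)) * (ζ ^ (i : ℕ) / 2) ^ N =
        (1 / q) * (2 ^ c / 2 ^ N) * ζ ^ ((i : ℕ) * (q - c + N)) := by
      intro i
      rw [div_pow, ← pow_mul, mul_add, pow_add]
      ring
    rw [Finset.sum_congr rfl fun i _ => h1 i, ← Finset.mul_sum, hζd, root_sum hq]
    by_cases h : N = c
    · subst h
      rw [if_pos rfl, if_pos]
      · field_simp
      · have : q - N + N = q := by omega
        rw [this]
    · rw [if_neg h, if_neg]
      · simp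
      · rintro ⟨r, hr⟩
        have h3 : r = 1 := by
          rcases r with _ | _ | r
          · simp at hr
            omega
          · rfl
          · exfalso
            have : q * (r + 1 + 1) = q * r + q + q := by ring
            have h5 : q - c + N < q + q := by omega
            have h6 : 0 ≤ q * r := Nat.zero_le _
            omega
        subst h3
        omega

/-- The reduction of exponents. -/
def rd (t q N : ℕ) : ℕ := if N < t then N else t + (N - t) % q

theorem rd_lt {t q : ℕ} (hq : 0 < q) (N : ℕ) : rd t q N < t + q := by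
  unfold rd
  split_ifs with h
  · omega
  · have := Nat.mod_lt (N - t) hq
    omega

theorem xm_cl {n : ℕ} {M : Type} (m : M) {t q : ℕ} (hq : 0 < q) {c : ℕ} (hc : c < t + q) :
    XM n M (1 + t * 2 ^ t) (fun g => if rd t q (ct m g) = c then 1 else 0) := by
  rcases lt_or_ge c t with hct | hct
  · have h0 := xm_pt (n := n) (M := M) m c
    have h1 : (2 : ℝ) ^ c ≤ 1 + t * 2 ^ t := by
      have h2 : (2 : ℝ) ^ c ≤ 2 ^ t := pow_le_pow_right₀ (by norm_num) hct.le
      have h3 : (1 : ℝ) ≤ t := by exact_mod_cast (by omega : 1 ≤ t)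
      have h4 : (0 : ℝ) < 2 ^ t := by positivity
      nlinarith
    refine (h0.mono h1).congr fun g => ?_
    have : rd t q (ct m g) = c ↔ ct m g = c := by
      unfold rd
      split_ifs with h
      · rfl
      · constructor <;> intro h' <;> omega
    simp only [this]
  · have h0 := xm_mod (n := n) (M := M) m hq c
    have h1 : XM n M (1 + t * 2 ^ t) (fun g : Fin n → M =>
        1 + ∑ c' ∈ range t, (-1) * (if ct m g = c' then (1 : ℂ) else 0)) := by
      have h2 := XM.const (n := n) (M := M) 1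
      have h3 := XM.sum (n := n) (M := M) (range t) (B := 2 ^ t)
        (fun c' g => (-1) * (if ct m g = c' then (1 : ℂ) else 0)) ?_
      · have h4 := h2.add h3
        simpa using h4
      · intro c' hc'
        have h5 := (XM.const (n := n) (M := M) (-1)).mul (xm_pt (n := n) (M := M) m c')
        refine h5.mono ?_
        simp only [norm_neg, norm_one, one_mul]
        exact pow_le_pow_right₀ (by norm_num) (mem_range.1 hc').le
    have h2 := h0.mul h1
    refine (h2.mono (by simp)).congr fun g => ?_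
    have h3 : ∑ c' ∈ range t, (-1) * (if ct m g = c' then (1 : ℂ) else 0) =
        if ct m g < t then -1 else 0 := by
      rw [← Finset.mul_sum, Finset.sum_ite_eq]
      by_cases h : ct m g < t
      · rw [if_pos h, if_pos (mem_range.2 h)]
        ring
      · rw [if_neg h, if_neg (fun h' => h (mem_range.1 h'))]
        ring
    rw [h3]
    by_cases h : ct m g < t
    · rw [if_pos h, if_neg (c := rd t q (ct m g) = c)]
      · ring
      · unfold rd
        rw [if_pos h]
        omega
    · rw [if_neg h, add_zero, mul_one]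
      have h4 : rd t q (ct m g) = c ↔ ct m g % q = c % q := by
        unfold rd
        rw [if_neg h]
        obtain ⟨x, hx⟩ : ∃ x, ct m g = t + x := ⟨ct m g - t, by omega⟩
        obtain ⟨y, hy⟩ : ∃ y, c = t + y := ⟨c - t, by omega⟩
        rw [hx, hy]
        have hy' : y < q := by omega
        have h5 : t + x - t = x := by omega
        rw [h5]
        constructor
        · intro h'
          have h6 : x % q = y := by omega
          have h7 : x ≡ y [MOD q] := by
            unfold Nat.ModEq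
            rw [h6, Nat.mod_eq_of_lt hy']
          exact Nat.ModEq.add_left t h7
        · intro h'
          have h6 : t + x ≡ t + y [MOD q] := h'
          have h7 : x ≡ y [MOD q] := Nat.ModEq.add_left_cancel' t h6
          unfold Nat.ModEq at h7
          rw [Nat.mod_eq_of_lt hy'] at h7
          omega
      simp only [h4]

/-- Powers are periodic. -/
theorem pow_rd {M : Type} [CommMonoid M] [Fintype M] {k : ℕ} (hk : Fintype.card M ≤ k) (m : M)
    (N : ℕ) : m ^ N = m ^ rd k k.factorial N := by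
  classical
  obtain ⟨i, j, hij, he⟩ : ∃ i j : Fin (k + 1), i ≠ j ∧ m ^ (i : ℕ) = m ^ (j : ℕ) := by
    have hc : Fintype.card M < Fintype.card (Fin (k + 1)) := by
      rw [Fintype.card_fin]
      omega
    obtain ⟨i, j, h1, h2⟩ := Fintype.exists_ne_map_eq_of_card_lt
      (fun i : Fin (k + 1) => m ^ (i : ℕ)) hc
    exact ⟨i, j, h1, h2⟩
  wlog hlt : (i : ℕ) < j generalizing i j with H
  · refine H j i hij.symm he.symm ?_
    have : (i : ℕ) ≠ j := fun h => hij (Fin.ext h)
    omega
  have hj : (j : ℕ) ≤ k := by have := j.2; omega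
  set d := (j : ℕ) - i with hd
  have hd0 : 0 < d := by omega
  have hstep : ∀ a, (i : ℕ) ≤ a → m ^ (a + d) = m ^ a := by
    intro a ha
    have h1 : a + d = (a - i) + j := by omega
    have h2 : a = (a - i) + i := by omega
    rw [h1, pow_add, ← he, ← pow_add, ← h2]
  have hsteps : ∀ r a, (i : ℕ) ≤ a → m ^ (a + d * r) = m ^ a := by
    intro r
    induction r with
    | zero => intro a _; simp
    | succ r ih =>
      intro a ha
      have : a + d * (r + 1) = (a + d * r) + d := by ring
      rw [this, hstep _ (by omega), ih a ha]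
  have hdq : d ∣ k.factorial := Nat.dvd_factorial hd0 (by omega)
  obtain ⟨e, he'⟩ := hdq
  unfold rd
  split_ifs with h
  · rfl
  · have h1 : N = (k + (N - k) % k.factorial) + d * (e * ((N - k) / k.factorial)) := by
      have h2 := Nat.mod_add_div (N - k) k.factorial
      have h3 : k.factorial * ((N - k) / k.factorial) = d * (e * ((N - k) / k.factorial)) := by
        rw [← mul_assoc, ← he']
      omega
    conv_lhs => rw [h1]
    exact hsteps _ _ (by omega)

theorem prod_ct {n : ℕ} {M : Type} [CommMonoid M] [Fintype M] (g : Fin n → M) :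
    ∏ j, g j = ∏ m : M, m ^ ct m g := by
  classical
  rw [← Finset.prod_fiberwise (s := (univ : Finset (Fin n))) (g := g) (f := g)]
  refine Finset.prod_congr rfl fun m _ => ?_
  rw [Finset.prod_congr rfl (g := fun _ => m) fun j hj => (mem_filter.1 hj).2, Finset.prod_const]
  unfold ct
  congr

end Pool.Agent.MP_ca1109_lc.Pt.CMx

namespace Pool.Agent.MP_ca1109_lc.Pt

open Finset CMx

/-- **Commutative monoids with at most `k` elements.** -/
theorem monoid_split (k : ℕ) : ∃ K : ℝ, 0 < K ∧ ∀ (M : Type) [CommMonoid M] [Fintype M],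
    Fintype.card M ≤ k → ∀ (n : ℕ) (F : M → ℂ), (∀ m, ‖F m‖ ≤ 1) →
    ∃ (q : ℕ) (a : Fin q → ℂ) (t : Fin q → M → ℂ), ∑ i, ‖a i‖ ≤ K ∧ (∀ i m, ‖t i m‖ ≤ 1) ∧
      ∀ g : Fin n → M, F (∏ j, g j) = ∑ i, a i * ∏ j, t i (g j) := by
  classical
  set Q := k.factorial with hQ
  have hQ0 : 0 < Q := Nat.factorial_pos k
  set W : ℝ := 1 + k * 2 ^ k with hW
  have hW1 : 1 ≤ W := by
    rw [hW]
    have : (0 : ℝ) ≤ k * 2 ^ k := by positivity
    linarith
  refine ⟨((k + Q : ℕ) : ℝ) ^ k * W ^ k, ?_, ?_⟩
  · have : (0 : ℝ) < ((k + Q : ℕ) : ℝ) := by exact_mod_cast (by omega : 0 < k + Q)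
    positivity
  intro M _ _ hM n F hF
  have key : XM n M (((k + Q : ℕ) : ℝ) ^ k * W ^ k) (fun g => F (∏ j, g j)) := by
    have h1 : ∀ c : M → Fin (k + Q), XM n M (W ^ k) (fun g =>
        F (∏ m, m ^ (c m : ℕ)) * ∏ m, if rd k Q (ct m g) = c m then (1 : ℂ) else 0) := by
      intro c
      have h2 := XM.prod (n := n) (M := M) (univ : Finset M) (B := W)
        (fun m g => if rd k Q (ct m g) = c m then (1 : ℂ) else 0)
        (fun m _ => xm_cl m hQ0 (c m).2)
      have h3 := (XM.const (n := n) (M := M) (F (∏ m, m ^ (c m : ℕ)))).mul h2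
      refine h3.mono ?_
      have h4 : W ^ (univ : Finset M).card ≤ W ^ k :=
        pow_le_pow_right₀ hW1 (by rw [Finset.card_univ]; exact hM)
      have h5 : 0 ≤ W ^ (univ : Finset M).card := by positivity
      calc _ ≤ 1 * W ^ (univ : Finset M).card :=
            mul_le_mul_of_nonneg_right (hF _) h5
        _ ≤ W ^ k := by rw [one_mul]; exact h4
    have h2 := XM.sum (n := n) (M := M) (univ : Finset (M → Fin (k + Q))) (B := W ^ k) _
      (fun c _ => h1 c)
    have h3 : (((univ : Finset (M → Fin (k + Q))).card : ℕ) : ℝ) * W ^ k ≤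
        ((k + Q : ℕ) : ℝ) ^ k * W ^ k := by
      refine mul_le_mul_of_nonneg_right ?_ (by positivity)
      rw [Finset.card_univ, Fintype.card_fun, Fintype.card_fin]
      push_cast
      have h4 : (1 : ℝ) ≤ (k : ℝ) + (Q : ℝ) := by
        have : (1 : ℝ) ≤ (Q : ℝ) := by exact_mod_cast hQ0
        have : (0 : ℝ) ≤ k := by positivity
        linarith
      exact pow_le_pow_right₀ h4 hM
    refine (h2.mono h3).congr fun g => ?_
    set c₀ : M → Fin (k + Q) := fun m => ⟨rd k Q (ct m g), rd_lt hQ0 _⟩ with hc₀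
    rw [Finset.sum_eq_single c₀]
    · have h4 : ∏ m, (if rd k Q (ct m g) = c₀ m then (1 : ℂ) else 0) = 1 := by
        refine Finset.prod_eq_one fun m _ => ?_
        rw [if_pos rfl]
      rw [h4, mul_one, prod_ct g]
      congr 1
      refine Finset.prod_congr rfl fun m _ => ?_
      exact (pow_rd hM m (ct m g)).symm
    · intro c _ hc
      obtain ⟨m, hm⟩ : ∃ m, c m ≠ c₀ m := by
        by_contra h
        push Not at h
        exact hc (funext h)
      have h4 : ∏ m, (if rd k Q (ct m g) = c m then (1 : ℂ) else 0) = 0 := by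
        refine Finset.prod_eq_zero (mem_univ m) ?_
        rw [if_neg]
        intro h5
        exact hm (Fin.ext h5.symm)
      rw [h4, mul_zero]
    · intro h
      exact absurd (mem_univ _) h
  obtain ⟨ι, _, a, t, h1, h2, h3⟩ := key
  set e := Fintype.equivFin ι
  refine ⟨Fintype.card ι, fun i => a (e.symm i), fun i => t (e.symm i), ?_, ?_, ?_⟩
  · rw [e.symm.sum_comp (fun i => ‖a i‖)]
    exact h1
  · intro i m
    exact h2 _ m
  · intro g
    refine (h3 g).trans ?_
    exact (e.symm.sum_comp (fun i => a i * ∏ j, t i (g j))).symm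

end Pool.Agent.MP_ca1109_lc.Pt
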