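import Pool.Agent.MP_ca1109_lc.Pt.Defs
import Pool.Agent.MP_ca1109_lc.Dnf.B2

/-!
# Row EX: Walsh expansions of complex functions
-/

namespace Pool.Agent.MP_ca1109_lc.Pt

open Finset Pool.Agent.H66 Pool.Agent.MP_ca1109_lc.Mpg Pool.Agent.MP_ca1109_lc.Agp
  Pool.Agent.MP_ca1109_lc.Xp
open Pool.Agent.MP_ca1109_lc.Dnf (Cube ch one On)

variable {n : ℕ}

/-! ## EX: Walsh expansions of complex functions -/

/-- Real and imaginary parts of the coefficients. -/
theorem ex_co_eq (f : Cube n → ℂ) (S : Finset (Fin n)) :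
    co f S = ((Dnf.fc (fun x => (f x).re) S : ℝ) : ℂ)
      + ((Dnf.fc (fun x => (f x).im) S : ℝ) : ℂ) * Complex.I := by
  have h1 : ∀ x : Cube n, f x * ((ch S x : ℝ) : ℂ)
      = (((f x).re * ch S x : ℝ) : ℂ) + (((f x).im * ch S x : ℝ) : ℂ) * Complex.I := by
    intro x
    conv_lhs => rw [← Complex.re_add_im (f x)]
    push_cast
    ring
  have h2 : (Fintype.card (Cube n) : ℂ) = 2 ^ n := by simp
  unfold co av Dnf.fc Dnf.E
  rw [h2]
  simp only [h1]
  rw [Finset.sum_add_distrib, ← Finset.sum_mul]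
  push_cast
  ring

theorem co_exp (f : Cube n → ℂ) (x : Cube n) : f x = ∑ S, co f S * ((ch S x : ℝ) : ℂ) := by
  have h1 := Dnf.inversion (fun x => (f x).re) x
  have h2 := Dnf.inversion (fun x => (f x).im) x
  simp only [ex_co_eq, add_mul]
  rw [Finset.sum_add_distrib]
  conv_lhs => rw [← Complex.re_add_im (f x)]
  rw [h1, h2]
  push_cast
  rw [Finset.sum_mul]
  congr 1
  exact Finset.sum_congr rfl fun S _ => by ring

theorem ex_on_ch (S : Finset (Fin n)) : On S (ch S) := fun x y h => by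
  unfold Dnf.ch
  exact Finset.prod_congr rfl fun i hi => by rw [h i hi]

theorem ex_fc_on {I : Finset (Fin n)} {g : Cube n → ℝ} (h : On I g) {S : Finset (Fin n)}
    (hS : ¬ S ⊆ I) : Dnf.fc g S = 0 := by
  have h1 : ∀ x : Cube n, g x * ch S x = (g x * ch (S ∩ I) x) * ch (S \ I) x := by
    intro x
    have h2 : ch S x = ch (S ∩ I) x * ch (S \ I) x := by
      unfold Dnf.ch
      rw [← Finset.prod_union (Finset.disjoint_sdiff_inter S I).symm]
      congr 1
      rw [Finset.union_comm, Finset.sdiff_union_inter]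
    rw [h2, mul_assoc]
  have h3 : On I (fun x => g x * ch (S ∩ I) x) := by
    intro x y hxy
    have e1 := h x y hxy
    have e2 := ex_on_ch (S ∩ I) x y fun i hi => hxy i (Finset.mem_inter.1 hi).2
    show g x * ch (S ∩ I) x = g y * ch (S ∩ I) y
    rw [e1, e2]
  have h4 : S \ I ≠ ∅ := by
    intro h5
    exact hS (Finset.sdiff_eq_empty_iff_subset.1 h5)
  unfold Dnf.fc
  simp only [h1]
  rw [Dnf.E_indep (Finset.disjoint_sdiff) h3 (ex_on_ch (S \ I))]
  have h6 : Dnf.E (ch (S \ I)) = 0 := by rw [Dnf.E_ch, if_neg h4]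
  rw [h6, mul_zero]

theorem co_on {I : Finset (Fin n)} {f : Cube n → ℂ} (h : On I f) {S : Finset (Fin n)}
    (hS : ¬ S ⊆ I) : co f S = 0 := by
  have h1 : On I (fun x => (f x).re) := fun x y hxy => by
    show (f x).re = (f y).re
    rw [h x y hxy]
  have h2 : On I (fun x => (f x).im) := fun x y hxy => by
    show (f x).im = (f y).im
    rw [h x y hxy]
  rw [ex_co_eq, ex_fc_on h1 hS, ex_fc_on h2 hS]
  simp

theorem co_empty (f : Cube n → ℂ) : co f ∅ = av f := by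
  unfold co
  congr 1
  funext x
  rw [Dnf.ch_empty]
  simp

theorem co_parseval (f : Cube n → ℂ) : ∑ S, ‖co f S‖ ^ 2 = avg fun x => ‖f x‖ ^ 2 := by
  have h1 : ∀ S, ‖co f S‖ ^ 2 = Dnf.fc (fun x => (f x).re) S ^ 2
      + Dnf.fc (fun x => (f x).im) S ^ 2 := by
    intro S
    rw [ex_co_eq, ← Complex.normSq_eq_norm_sq, Complex.normSq_add_mul_I]
  have h2 : ∀ x : Cube n, ‖f x‖ ^ 2 = (f x).re ^ 2 + (f x).im ^ 2 := by
    intro x
    rw [← Complex.normSq_eq_norm_sq, Complex.normSq_apply]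
    ring
  simp only [h1, h2]
  rw [Finset.sum_add_distrib, ← Dnf.parseval, ← Dnf.parseval, spb_avg_E, Dnf.E_add]

theorem ex_co_norm {f : Cube n → ℂ} {B : ℝ} (hB : ∀ x, ‖f x‖ ≤ B) (S : Finset (Fin n)) :
    ‖co f S‖ ≤ B := by
  unfold co av
  have h2 : (Fintype.card (Cube n) : ℂ) = 2 ^ n := by simp
  rw [h2, norm_div, norm_pow]
  have h3 : ‖(2 : ℂ)‖ = 2 := by simp
  rw [h3, div_le_iff₀ (by positivity)]
  calc ‖∑ x, f x * ((ch S x : ℝ) : ℂ)‖ ≤ ∑ x : Cube n, ‖f x * ((ch S x : ℝ) : ℂ)‖ := norm_sum_le _ _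
    _ ≤ ∑ _x : Cube n, B := Finset.sum_le_sum fun x _ => by
        rw [norm_mul, Complex.norm_real, Real.norm_eq_abs, Dnf.ch_abs, mul_one]
        exact hB x
    _ = B * 2 ^ n := by
        rw [Finset.sum_const, Finset.card_univ, nsmul_eq_mul]
        simp
        ring

theorem sp_on {I : Finset (Fin n)} {f : Cube n → ℂ} {B : ℝ} (h : On I f) (hB : ∀ x, ‖f x‖ ≤ B) :
    Sp (2 ^ I.card * B) f := by
  classical
  refine ⟨co f, co_exp f, ?_⟩
  have h1 : ∑ S, ‖co f S‖ = ∑ S ∈ I.powerset, ‖co f S‖ := by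
    symm
    apply Finset.sum_subset (Finset.subset_univ _)
    intro S _ hS
    rw [Finset.mem_powerset] at hS
    rw [co_on h hS, norm_zero]
  rw [h1]
  calc ∑ S ∈ I.powerset, ‖co f S‖ ≤ ∑ _S ∈ I.powerset, B :=
        Finset.sum_le_sum fun S _ => ex_co_norm hB S
    _ = 2 ^ I.card * B := by
        rw [Finset.sum_const, Finset.card_powerset, nsmul_eq_mul]
        push_cast
        ring

theorem sp_normsq {B : ℝ} {f : Cube n → ℂ} (h : Sp B f) :
    Sp (B ^ 2) (fun x => ((‖f x‖ ^ 2 : ℝ) : ℂ)) := by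
  have h1 := h.mul h.conj
  rw [← sq] at h1
  refine h1.congr' fun x => ?_
  rw [Complex.mul_conj, Complex.normSq_eq_norm_sq]

theorem sp_conj {B : ℝ} {f : Cube n → ℂ} (h : Sp B f) :
    Sp B (fun x => (starRingEnd ℂ) (f x)) := h.conj

theorem sp_ch {B : ℝ} {f : Cube n → ℂ} (h : Sp B f) (S : Finset (Fin n)) :
    Sp B (fun x => ((ch S x : ℝ) : ℂ) * f x) := h.ch_mul S

end Pool.Agent.MP_ca1109_lc.Pt
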