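import Pool.Agent.MP_ca1109_lc.Pt.Defs

/-!
# The moments of the random set `W`
-/

namespace Pool.Agent.MP_ca1109_lc.Pt

open Finset Pool.Agent.H66 Pool.Agent.MP_ca1109_lc.Mpg Pool.Agent.MP_ca1109_lc.Agp
  Pool.Agent.MP_ca1109_lc.Xp
open Pool.Agent.MP_ca1109_lc.Dnf (Cube ch one On)

variable {n : ℕ}

/-- The first `l` bits are true. -/
def bt {L s : ℕ} (l : ℕ) (b : Cube (L + s)) : Prop := ∀ t : Fin (L + s), (t : ℕ) < l → b t = true

/-- The hash value of a block. -/
def bh {L s : ℕ} (b : Cube (L + s)) : Fin (2 ^ s) :=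
  finFunctionFinEquiv fun c : Fin s => finTwoEquiv.symm (b (Fin.natAdd L c))

/-- The block `i`. -/
def blk {n m : ℕ} (Z : Cube (n * m)) (i : Fin n) : Cube m := fun t => Z (finProdFinEquiv (i, t))

/-- The blocks are independent. -/
theorem avg_blocks {n m : ℕ} (U : Finset (Fin n)) (F : Fin n → Cube m → ℝ) :
    (avg fun Z : Cube (n * m) => ∏ i ∈ U, F i (blk Z i)) = ∏ i ∈ U, avg (F i) := by
  classical
  set e : Cube (n * m) ≃ (Fin n → Cube m) :=
    (Equiv.arrowCongr (finProdFinEquiv (m := n) (n := m)).symm (Equiv.refl Bool)).trans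
      (Equiv.curry _ _ _) with he
  have h1 : ∀ Z i, e Z i = blk Z i := fun Z i => rfl
  have h2 : (avg fun Z : Cube (n * m) => ∏ i ∈ U, F i (blk Z i)) =
      avg fun z : Fin n → Cube m => ∏ i ∈ U, F i (z i) := by
    unfold avg
    rw [← Equiv.sum_comp e, Fintype.card_congr e]
    rfl
  rw [h2]
  have h3 : ∀ z : Fin n → Cube m, ∏ i ∈ U, F i (z i) = ∏ i, if i ∈ U then F i (z i) else 1 := by
    intro z
    rw [Finset.prod_ite_mem, Finset.univ_inter]
  have h4 : ∏ i ∈ U, avg (F i) = ∏ i, if i ∈ U then avg (F i) else 1 := by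
    rw [Finset.prod_ite_mem, Finset.univ_inter]
  rw [h4]
  unfold avg
  simp only [h3]
  have h5 := Finset.prod_univ_sum (fun _ : Fin n => (Finset.univ : Finset (Cube m)))
    (fun i b => if i ∈ U then F i b else 1)
  rw [Fintype.piFinset_univ] at h5
  rw [← h5, Fintype.card_fun, Fintype.card_fin]
  push_cast
  have hc : (Fintype.card (Cube m) : ℝ) ^ n = ∏ _i : Fin n, (Fintype.card (Cube m) : ℝ) := by
    rw [Finset.prod_const, Finset.card_univ, Fintype.card_fin]
  rw [hc, ← Finset.prod_div_distrib]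
  refine Finset.prod_congr rfl fun i _ => ?_
  by_cases h : i ∈ U
  · simp only [h, if_true]
  · simp only [h, if_false, sum_const, card_univ, nsmul_eq_mul, mul_one]
    rw [div_self]
    positivity

/-- The probability that a bit is in `W`. -/
theorem avg_bit {L s l : ℕ} (hl : l ≤ L) (D : Finset (Fin (2 ^ s))) :
    (avg fun b : Cube (L + s) => one (bt l b ∧ bh b ∈ D)) = (1 / 2) ^ l * (D.card / 2 ^ s) := by
  classical
  have h1 : ∀ (u : Cube L) (v : Cube s), one (bt l (Fin.append u v) ∧ bh (Fin.append u v) ∈ D) =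
      Xp.mon (univ.filter fun t : Fin L => (t : ℕ) < l) u *
        one (finFunctionFinEquiv (fun c : Fin s => finTwoEquiv.symm (v c)) ∈ D) := by
    intro u v
    rw [Dnf.one_and]
    congr 1
    · unfold Xp.mon
      congr 1
      refine propext ⟨fun h t ht => ?_, fun h t ht => ?_⟩
      · rw [mem_filter] at ht
        have := h (Fin.castAdd s t) (by simpa using ht.2)
        rwa [Fin.append_left] at this
      · have ht' : (t : ℕ) < L := lt_of_lt_of_le ht hl
        have e : t = Fin.castAdd s ⟨t, ht'⟩ := by ext; rfl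
        rw [e, Fin.append_left]
        exact h _ (by simpa using ht)
    · unfold bh
      simp only [Fin.append_right]
  have h2 : (avg fun b : Cube (L + s) => one (bt l b ∧ bh b ∈ D)) =
      avg (Xp.mon (univ.filter fun t : Fin L => (t : ℕ) < l)) *
        avg (fun v : Cube s =>
          one (finFunctionFinEquiv (fun c : Fin s => finTwoEquiv.symm (v c)) ∈ D)) := by
    unfold avg
    rw [← Equiv.sum_comp (Fin.appendEquiv L s), Fintype.sum_prod_type]
    have h3 : ∀ (u : Cube L) (v : Cube s), one (bt l (Fin.appendEquiv L s (u, v)) ∧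
        bh (Fin.appendEquiv L s (u, v)) ∈ D) = Xp.mon (univ.filter fun t : Fin L => (t : ℕ) < l) u *
        one (finFunctionFinEquiv (fun c : Fin s => finTwoEquiv.symm (v c)) ∈ D) :=
      fun u v => h1 u v
    simp only [h3]
    rw [← Finset.sum_mul_sum, div_mul_div_comm]
    congr 1
    rw [← Nat.cast_mul, Fintype.card_fun, Fintype.card_fun, Fintype.card_fun, Fintype.card_bool,
      Fintype.card_fin, Fintype.card_fin, Fintype.card_fin, pow_add]
  rw [h2, Xp.avg_mon]
  congr 2
  · have : (univ.filter fun t : Fin L => (t : ℕ) < l).card = l := by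
      rw [Fin.card_filter_val_lt]
      exact min_eq_right hl
    exact this
  · unfold avg
    have h5 : ∑ v : Cube s, one (finFunctionFinEquiv
        (fun c : Fin s => finTwoEquiv.symm (v c)) ∈ D) = ∑ c : Fin (2 ^ s), one (c ∈ D) :=
      Equiv.sum_comp ((Equiv.arrowCongr (Equiv.refl (Fin s)) finTwoEquiv.symm).trans
        finFunctionFinEquiv) (fun c : Fin (2 ^ s) => one (c ∈ D))
    rw [h5]
    have h6 : ∑ c : Fin (2 ^ s), one (c ∈ D) = D.card := by
      rw [← Finset.sum_subset (Finset.subset_univ D) fun c _ hc => Dnf.one_false hc,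
        Finset.sum_congr rfl fun c hc => Dnf.one_true hc]
      simp
    rw [h6, Fintype.card_fun, Fintype.card_bool, Fintype.card_fin]
    push_cast
    rfl

theorem cc_wd {n L s : ℕ} (U : Finset (Fin n)) (Z : Cube (n * (L + s))) (l : ℕ)
    (d : Fin (2 ^ s) → Bool) :
    cc U (wd (eta Z l) (hsh Z) d) = ∏ i ∈ U, (1 - 2 * one (bt l (blk Z i) ∧
      bh (blk Z i) ∈ univ.filter fun c => d c = true)) := by
  classical
  unfold cc
  refine Finset.prod_congr rfl fun i _ => ?_
  have h : (wd (eta Z l) (hsh Z) d i = true) ↔ (bt l (blk Z i) ∧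
      bh (blk Z i) ∈ univ.filter fun c => d c = true) := by
    unfold wd
    rw [Bool.and_eq_true, decide_eq_true_iff, mem_filter]
    refine and_congr ?_ ⟨fun h => ⟨mem_univ _, h⟩, fun h => h.2⟩
    unfold eta bt blk
    simp
  by_cases h' : bt l (blk Z i) ∧ bh (blk Z i) ∈ univ.filter fun c => d c = true
  · rw [if_pos (h.mpr h'), Dnf.one_true h']
    norm_num
  · rw [if_neg (fun h'' => h' (h.mp h'')), Dnf.one_false h']
    norm_num

/-- A function of the form `1 - 2 [..]` of one block. -/
theorem sp_wd {n L s l : ℕ} (D : Finset (Fin (2 ^ s))) (i : Fin n) :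
    Sp (1 + 2 * D.card) (fun Z : Cube (n * (L + s)) =>
      (((1 - 2 * one (bt l (blk Z i) ∧ bh (blk Z i) ∈ D) : ℝ)) : ℂ)) := by
  classical
  have h1 : ∀ Z : Cube (n * (L + s)), one (bt l (blk Z i) ∧ bh (blk Z i) ∈ D) =
      ∑ c ∈ D, Xp.mon ((univ.filter fun t : Fin (L + s) => (t : ℕ) < l).image
        fun t => finProdFinEquiv (i, t)) Z *
        ∏ t : Fin s, one (Z (finProdFinEquiv (i, Fin.natAdd L t)) =
          finTwoEquiv (finFunctionFinEquiv.symm c t)) := by
    intro Z
    rw [Dnf.one_and, ← Finset.mul_sum]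
    congr 1
    · unfold Xp.mon
      congr 1
      refine propext ⟨fun h t ht => ?_, fun h t ht => ?_⟩
      · rw [mem_image] at ht
        obtain ⟨u, hu, rfl⟩ := ht
        rw [mem_filter] at hu
        exact h u hu.2
      · exact h _ (mem_image.mpr ⟨t, mem_filter.mpr ⟨mem_univ _, ht⟩, rfl⟩)
    · have h2 : ∀ c : Fin (2 ^ s), (∏ t : Fin s, one (Z (finProdFinEquiv (i, Fin.natAdd L t)) =
          finTwoEquiv (finFunctionFinEquiv.symm c t))) = one (bh (blk Z i) = c) := by
        intro c
        by_cases h : bh (blk Z i) = c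
        · rw [Dnf.one_true h]
          refine Finset.prod_eq_one fun t _ => Dnf.one_true ?_
          rw [← h]
          unfold bh blk
          simp
        · rw [Dnf.one_false h]
          have h3 : ∃ t : Fin s, ¬ (Z (finProdFinEquiv (i, Fin.natAdd L t)) =
              finTwoEquiv (finFunctionFinEquiv.symm c t)) := by
            by_contra hcon
            push Not at hcon
            apply h
            unfold bh blk
            rw [← Equiv.eq_symm_apply]
            funext t
            rw [hcon t]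
            simp
          obtain ⟨t, ht⟩ := h3
          exact Finset.prod_eq_zero (mem_univ t) (Dnf.one_false ht)
      simp only [h2]
      by_cases h : bh (blk Z i) ∈ D
      · rw [Dnf.one_true h, Finset.sum_eq_single_of_mem _ h fun c _ hc => Dnf.one_false
          (Ne.symm hc), Dnf.one_true rfl]
      · rw [Dnf.one_false h]
        refine (Finset.sum_eq_zero fun c hc => Dnf.one_false fun h' => h ?_).symm
        rw [h']
        exact hc
  have h4 : Sp (∑ _c ∈ D, (1 : ℝ) * ∏ _t : Fin s, (1 : ℝ)) (fun Z : Cube (n * (L + s)) =>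
      ∑ c ∈ D, ((Xp.mon ((univ.filter fun t : Fin (L + s) => (t : ℕ) < l).image
        fun t => finProdFinEquiv (i, t)) Z : ℝ) : ℂ) *
        ∏ t : Fin s, ((one (Z (finProdFinEquiv (i, Fin.natAdd L t)) =
          finTwoEquiv (finFunctionFinEquiv.symm c t)) : ℝ) : ℂ)) :=
    Sp.sum D _ _ fun c _ => (Sp.mon _).mul (Sp.prod _ _ _ fun t _ => Sp.bit _ _)
  have h5 := (Sp.const (1 : ℂ)).add (Sp.smul (-2) h4)
  refine (h5.of_eq fun Z => ?_).mono (le_of_eq ?_)
  · rw [h1]
    push_cast
    ring
  · simp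

/-! ## MZ: characters of the random shift -/

theorem cc_sp {L s l : ℕ} (_hl : l ≤ L) (d : Fin (2 ^ s) → Bool) (U : Finset (Fin n)) :
    Sp ((2 ^ U.card) ^ (s + 2)) (fun z : Cube (n * (L + s)) =>
      ((cc U (wd (eta z l) (hsh z) d) : ℝ) : ℂ)) := by
  classical
  have h4 := Sp.prod U (fun _ => (1 : ℝ) + 2 * (univ.filter fun c => d c = true).card)
    (fun i (z : Cube (n * (L + s))) => (((1 - 2 * one (bt l (blk z i) ∧
      bh (blk z i) ∈ univ.filter fun c => d c = true) : ℝ)) : ℂ)) fun i _ => sp_wd _ i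
  rw [Finset.prod_const] at h4
  refine (h4.of_eq fun z => ?_).mono ?_
  · rw [cc_wd]
    push_cast
    rfl
  · have h0 : ((2 : ℝ) ^ U.card) ^ (s + 2) = (2 ^ (s + 2)) ^ U.card := by
      rw [← pow_mul, ← pow_mul, mul_comm]
    rw [h0]
    refine pow_le_pow_left₀ (by positivity) ?_ _
    have h1 : ((univ.filter fun c : Fin (2 ^ s) => d c = true).card : ℝ) ≤ 2 ^ s := by
      have := Finset.card_filter_le (univ : Finset (Fin (2 ^ s))) fun c => d c = true
      rw [Finset.card_univ, Fintype.card_fin] at this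
      exact_mod_cast this
    have h2 : (1 : ℝ) ≤ 2 ^ s := one_le_pow₀ (by norm_num)
    calc (1 : ℝ) + 2 * (univ.filter fun c : Fin (2 ^ s) => d c = true).card
        ≤ 2 ^ s + 2 * 2 ^ s := by linarith
      _ ≤ 2 ^ (s + 2) := by rw [pow_add]; linarith

theorem cc_avg {L s l : ℕ} (hl : l ≤ L) (d : Fin (2 ^ s) → Bool) (U : Finset (Fin n)) :
    (avg fun z : Cube (n * (L + s)) => cc U (wd (eta z l) (hsh z) d)) =
      (1 - 2 * pd l s d) ^ U.card := by
  classical
  simp only [cc_wd]
  have h2 := avg_blocks (n := n) (m := L + s) U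
    (fun _ b => 1 - 2 * one (bt l b ∧ bh b ∈ univ.filter fun c => d c = true))
  rw [h2, Finset.prod_const]
  congr 1
  unfold pd
  rw [← avg_bit hl (univ.filter fun c => d c = true)]
  have h3 := avg_sub (fun _ : Cube (L + s) => (1 : ℝ)) (fun b => 2 * one (bt l b ∧
    bh b ∈ univ.filter fun c => d c = true))
  rw [avg_mul_left, avg_const] at h3
  exact h3

end Pool.Agent.MP_ca1109_lc.Pt
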