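import Pool.Agent.MP_ca1109_lc.Pt.EX

/-!
# Row SN: spectral norms of elementary symmetric polynomials, polynomial bounds
-/

namespace Pool.Agent.MP_ca1109_lc.Pt

open Finset Pool.Agent.H66 Pool.Agent.MP_ca1109_lc.Mpg Pool.Agent.MP_ca1109_lc.Agp
  Pool.Agent.MP_ca1109_lc.Xp
open Pool.Agent.MP_ca1109_lc.Dnf (Cube ch one On)

variable {n : ℕ}

/-! ## SN: norms -/

/-- The number of subsets with at most `D` elements. -/
theorem sn_card {ι : Type*} (J : Finset ι) (D : ℕ) :
    (J.powerset.filter fun K => K.card ≤ D).card ≤ (J.card + 1) ^ D := by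
  classical
  induction D with
  | zero =>
    rw [pow_zero]
    refine (Finset.card_le_card (t := {∅}) fun K hK => ?_).trans (by simp)
    rw [Finset.mem_filter] at hK
    rw [Finset.mem_singleton]
    exact Finset.card_eq_zero.1 (Nat.le_zero.1 hK.2)
  | succ D ih =>
    have h1 : (J.powerset.filter fun K => K.card ≤ D + 1) ⊆
        (J.powerset.filter fun K => K.card ≤ D) ∪
          (J ×ˢ (J.powerset.filter fun K => K.card ≤ D)).image fun p => insert p.1 p.2 := by
      intro K hK
      rw [Finset.mem_filter, Finset.mem_powerset] at hK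
      rw [Finset.mem_union, Finset.mem_image]
      by_cases h : K.card ≤ D
      · left
        rw [Finset.mem_filter, Finset.mem_powerset]
        exact ⟨hK.1, h⟩
      · right
        have hne : K.Nonempty := by
          rw [← Finset.card_pos]
          omega
        obtain ⟨j, hj⟩ := hne
        refine ⟨(j, K.erase j), ?_, ?_⟩
        · rw [Finset.mem_product, Finset.mem_filter, Finset.mem_powerset]
          refine ⟨hK.1 hj, fun i hi => hK.1 (Finset.mem_of_mem_erase hi), ?_⟩
          show (K.erase j).card ≤ D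
          rw [Finset.card_erase_of_mem hj]
          omega
        · exact Finset.insert_erase hj
    calc (J.powerset.filter fun K => K.card ≤ D + 1).card
        ≤ (J.powerset.filter fun K => K.card ≤ D).card +
          J.card * (J.powerset.filter fun K => K.card ≤ D).card := by
          refine (Finset.card_le_card h1).trans ((Finset.card_union_le _ _).trans ?_)
          refine Nat.add_le_add_left (Finset.card_image_le.trans ?_) _
          rw [Finset.card_product]
      _ = (J.card + 1) * (J.powerset.filter fun K => K.card ≤ D).card := by ring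
      _ ≤ (J.card + 1) * (J.card + 1) ^ D := Nat.mul_le_mul_left _ ih
      _ = (J.card + 1) ^ (D + 1) := by ring

theorem esT_sp {J : Finset (Fin n)} {B : ℝ} (hB : 1 ≤ B) (z : Fin n → Cube n → ℂ)
    (hz : ∀ j ∈ J, Sp B (z j)) (D : ℕ) :
    Sp ((((n : ℝ) + 1) * B) ^ D) (fun x => esT J D (fun j => z j x)) := by
  have h1 := Sp.sum (J.powerset.filter fun K => K.card ≤ D) (fun K => B ^ K.card)
    (fun K x => ∏ j ∈ K, z j x) fun K hK => by
      rw [Finset.mem_filter, Finset.mem_powerset] at hK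
      have h2 := Sp.prod K (fun _ => B) z fun j hj => hz j (hK.1 hj)
      rw [Finset.prod_const] at h2
      exact h2
  refine (h1.mono ?_).congr' fun x => rfl
  have hJ : ((J.card : ℝ) + 1) ≤ (n : ℝ) + 1 := by
    have : J.card ≤ n := by
      have := Finset.card_le_univ J
      rwa [Fintype.card_fin] at this
    have h3 : (J.card : ℝ) ≤ n := by exact_mod_cast this
    linarith
  calc ∑ K ∈ J.powerset.filter (fun K => K.card ≤ D), B ^ K.card
      ≤ ∑ _K ∈ J.powerset.filter (fun K => K.card ≤ D), B ^ D :=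
        Finset.sum_le_sum fun K hK => pow_le_pow_right₀ hB (Finset.mem_filter.1 hK).2
    _ = ((J.powerset.filter fun K => K.card ≤ D).card : ℝ) * B ^ D := by
        rw [Finset.sum_const, nsmul_eq_mul]
    _ ≤ ((J.card : ℝ) + 1) ^ D * B ^ D := by
        refine mul_le_mul_of_nonneg_right ?_ (by positivity)
        exact_mod_cast sn_card J D
    _ ≤ ((n : ℝ) + 1) ^ D * B ^ D := by
        refine mul_le_mul_of_nonneg_right ?_ (by positivity)
        exact pow_le_pow_left₀ (by positivity) hJ D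
    _ = (((n : ℝ) + 1) * B) ^ D := by rw [mul_pow]

theorem bd_nonneg (K n N : ℕ) : 0 ≤ bd K n N := by
  unfold bd
  positivity

theorem sn_one {N : ℕ} (hN : 1 ≤ N) (n : ℕ) : 1 ≤ ((n : ℝ) + 1) * N := by
  have h1 : (1 : ℝ) ≤ N := by exact_mod_cast hN
  have h2 : (0 : ℝ) ≤ n := Nat.cast_nonneg n
  nlinarith

theorem bd_mono {K K' N : ℕ} (h : K ≤ K') (hN : 1 ≤ N) (n : ℕ) : bd K n N ≤ bd K' n N := by
  unfold bd
  have h1 := sn_one hN n
  have h2 : (K : ℝ) ≤ K' := by exact_mod_cast h
  exact mul_le_mul h2 (pow_le_pow_right₀ h1 h) (by positivity) (by positivity)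

theorem bd_one {K N : ℕ} (h : 1 ≤ K) (hN : 1 ≤ N) (n : ℕ) : 1 ≤ bd K n N := by
  unfold bd
  have h1 := sn_one hN n
  have h2 : (1 : ℝ) ≤ K := by exact_mod_cast h
  have h3 : (1 : ℝ) ≤ (((n : ℝ) + 1) * N) ^ K := one_le_pow₀ h1
  nlinarith

theorem bd_add {K K' N : ℕ} (hN : 1 ≤ N) (n : ℕ) :
    bd K n N + bd K' n N ≤ bd (K + K') n N := by
  unfold bd
  have h1 := sn_one hN n
  have h2 : (((n : ℝ) + 1) * N) ^ K ≤ (((n : ℝ) + 1) * N) ^ (K + K') :=
    pow_le_pow_right₀ h1 (Nat.le_add_right _ _)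
  have h3 : (((n : ℝ) + 1) * N) ^ K' ≤ (((n : ℝ) + 1) * N) ^ (K + K') :=
    pow_le_pow_right₀ h1 (Nat.le_add_left _ _)
  have h4 := mul_le_mul_of_nonneg_left h2 (Nat.cast_nonneg (α := ℝ) K)
  have h5 := mul_le_mul_of_nonneg_left h3 (Nat.cast_nonneg (α := ℝ) K')
  push_cast
  linarith

theorem bd_mul {K K' N : ℕ} (hN : 1 ≤ N) (n : ℕ) :
    bd K n N * bd K' n N ≤ bd (K * K' + K + K') n N := by
  unfold bd
  have h1 := sn_one hN n
  have h2 : (((n : ℝ) + 1) * N) ^ (K + K') ≤ (((n : ℝ) + 1) * N) ^ (K * K' + K + K') :=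
    pow_le_pow_right₀ h1 (by omega)
  have h3 : (K : ℝ) * K' ≤ ((K * K' + K + K' : ℕ) : ℝ) := by
    push_cast
    have := Nat.cast_nonneg (α := ℝ) K
    have := Nat.cast_nonneg (α := ℝ) K'
    linarith
  calc (K : ℝ) * (((n : ℝ) + 1) * N) ^ K * (K' * (((n : ℝ) + 1) * N) ^ K')
      = (K * K' : ℝ) * (((n : ℝ) + 1) * N) ^ (K + K') := by
        rw [pow_add]
        ring
    _ ≤ ((K * K' + K + K' : ℕ) : ℝ) * (((n : ℝ) + 1) * N) ^ (K * K' + K + K') :=
        mul_le_mul h3 h2 (by positivity) (by positivity)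

end Pool.Agent.MP_ca1109_lc.Pt
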