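import Pool.Agent.MP_ca1109_lc.Pt.MZ
import Pool.Agent.MP_ca1109_lc.Pt.LV
import Pool.Agent.MP_ca1109_lc.Pt.SN

/-!
# The moments of the loss
-/

namespace Pool.Agent.MP_ca1109_lc.Pt

open Finset Pool.Agent.H66 Pool.Agent.MP_ca1109_lc.Mpg Pool.Agent.MP_ca1109_lc.Agp
  Pool.Agent.MP_ca1109_lc.Xp
open Pool.Agent.MP_ca1109_lc.Dnf (Cube ch one On)

variable {n : ℕ}

/-! ## MO: the moments of the loss -/

section MO

variable {N : ℕ} {J : Finset (Fin n)} {I : Fin n → Finset (Fin n)} {f : Fin n → Cube n → ℂ}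
  {L s l : ℕ}

/-- The square of the autocorrelation as a function of the second string. -/
noncomputable def mo_A (f : Cube n → ℂ) (L s l : ℕ) (d : Fin (2 ^ s) → Bool)
    (z : Cube (n * (L + s))) : ℝ := ‖au f (wd (eta z l) (hsh z) d)‖ ^ 2

/-- Its mean. -/
noncomputable def mo_m (f : Cube n → ℂ) (l s : ℕ) (d : Fin (2 ^ s) → Bool) : ℝ :=
  ∑ U, cb f U * (1 - 2 * pd l s d) ^ U.card

theorem mo_eq (f : Cube n → ℂ) (d : Fin (2 ^ s) → Bool) (z : Cube (n * (L + s))) :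
    mo_A f L s l d z = ∑ U, cb f U * cc U (wd (eta z l) (hsh z) d) := normsq_au _ _

theorem mo_avg (hl : l ≤ L) (f : Cube n → ℂ) (d : Fin (2 ^ s) → Bool) :
    avg (mo_A f L s l d) = mo_m f l s d := by
  have h1 : mo_A f L s l d = fun z => ∑ U, cb f U * cc U (wd (eta z l) (hsh z) d) :=
    funext fun z => mo_eq f d z
  rw [h1, avg_sum]
  refine Finset.sum_congr rfl fun U _ => ?_
  rw [avg_mul_left, cc_avg hl]

theorem mo_nonneg (f : Cube n → ℂ) (d : Fin (2 ^ s) → Bool) (z : Cube (n * (L + s))) :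
    0 ≤ mo_A f L s l d z := sq_nonneg _

theorem mo_le {f : Cube n → ℂ} (hf : ∀ x, ‖f x‖ ≤ 1)
    (d : Fin (2 ^ s) → Bool) (z : Cube (n * (L + s))) : mo_A f L s l d z ≤ 1 := by
  have h := au_le f hf (wd (eta z l) (hsh z) d)
  unfold mo_A
  nlinarith [norm_nonneg (au f (wd (eta z l) (hsh z) d))]

theorem mo_sp (hl : l ≤ L) {f : Cube n → ℂ} {I : Finset (Fin n)} (hI : On I f)
    (hf : ∀ x, ‖f x‖ ≤ 1) (hN : 2 ^ I.card ≤ N) (d : Fin (2 ^ s) → Bool) :
    Sp ((N : ℝ) ^ (s + 2)) (fun z => ((mo_A f L s l d z : ℝ) : ℂ)) := by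
  have h1 : ∀ U ∈ (univ : Finset (Finset (Fin n))), Sp (cb f U * ((2 : ℝ) ^ U.card) ^ (s + 2))
      (fun z : Cube (n * (L + s)) => ((cb f U : ℝ) : ℂ) *
        ((cc U (wd (eta z l) (hsh z) d) : ℝ) : ℂ)) := by
    intro U _
    have h := (cc_sp (L := L) (s := s) hl d U).smul ((cb f U : ℝ) : ℂ)
    rw [Complex.norm_real, Real.norm_eq_abs, abs_of_nonneg (cb_nonneg f U)] at h
    exact h
  refine ((Sp.sum univ _ _ h1).mono ?_).of_eq fun z => ?_
  · calc ∑ U : Finset (Fin n), cb f U * ((2 : ℝ) ^ U.card) ^ (s + 2)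
        ≤ ∑ U : Finset (Fin n), cb f U * (N : ℝ) ^ (s + 2) := by
          refine Finset.sum_le_sum fun U _ => ?_
          by_cases hU : U ⊆ I
          · refine mul_le_mul_of_nonneg_left ?_ (cb_nonneg f U)
            refine pow_le_pow_left₀ (by positivity) ?_ _
            have h2 : 2 ^ U.card ≤ N :=
              (Nat.pow_le_pow_right (by norm_num) (Finset.card_le_card hU)).trans hN
            exact_mod_cast h2
          · rw [cb_on hI hU, zero_mul, zero_mul]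
      _ = (∑ U, cb f U) * (N : ℝ) ^ (s + 2) := by rw [Finset.sum_mul]
      _ ≤ 1 * (N : ℝ) ^ (s + 2) := mul_le_mul_of_nonneg_right (cb_sum f hf) (by positivity)
      _ = _ := one_mul _
  · rw [mo_eq]
    push_cast
    rfl

theorem mo_m_mem (f : Cube n → ℂ) (hf : ∀ x, ‖f x‖ ≤ 1) (l s : ℕ) (d : Fin (2 ^ s) → Bool) :
    0 ≤ mo_m f l s d ∧ mo_m f l s d ≤ 1 := by
  have h := mo_avg (L := l) (le_refl l) f d
  constructor
  · rw [← h]
    exact avg_nonneg fun z => mo_nonneg f d z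
  · rw [← h]
    exact (avg_mono fun z => mo_le hf d z).trans (avg_const 1).le

theorem mo_cross (hl : l ≤ L) {f g : Cube n → ℂ} {I I' : Finset (Fin n)} (hI : On I f)
    (hI' : On I' g) (hd : Disjoint I I') (d : Fin (2 ^ s) → Bool) :
    (avg fun z => mo_A f L s l d z * mo_A g L s l d z) = mo_m f l s d * mo_m g l s d := by
  have h1 : (fun z : Cube (n * (L + s)) => mo_A f L s l d z * mo_A g L s l d z) =
      fun z => ∑ U, ∑ V, (cb f U * cb g V) *
        (cc U (wd (eta z l) (hsh z) d) * cc V (wd (eta z l) (hsh z) d)) := by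
    funext z
    rw [mo_eq, mo_eq, Finset.sum_mul_sum]
    exact Finset.sum_congr rfl fun U _ => Finset.sum_congr rfl fun V _ => by ring
  rw [h1, avg_sum]
  unfold mo_m
  rw [Finset.sum_mul_sum]
  refine Finset.sum_congr rfl fun U _ => ?_
  rw [avg_sum]
  refine Finset.sum_congr rfl fun V _ => ?_
  rw [avg_mul_left]
  by_cases hU : U ⊆ I
  · by_cases hV : V ⊆ I'
    · have hUV : Disjoint U V := Finset.disjoint_of_subset_left hU
        (Finset.disjoint_of_subset_right hV hd)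
      have h2 : (fun z : Cube (n * (L + s)) => cc U (wd (eta z l) (hsh z) d) *
          cc V (wd (eta z l) (hsh z) d)) =
          fun z => cc (U ∪ V) (wd (eta z l) (hsh z) d) := by
        funext z
        unfold cc
        rw [Finset.prod_union hUV]
      rw [h2, cc_avg hl, Finset.card_union_of_disjoint hUV, pow_add]
      ring
    · rw [cb_on hI' hV]
      ring
  · rw [cb_on hI hU]
    ring

theorem mo_self (hl : l ≤ L) {f : Cube n → ℂ} (hf : ∀ x, ‖f x‖ ≤ 1) (d : Fin (2 ^ s) → Bool) :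
    (avg fun z => (mo_A f L s l d z - mo_m f l s d) ^ 2) ≤ 1 - mo_m f l s d := by
  obtain ⟨h0, h1⟩ := mo_m_mem f hf l s d
  set m := mo_m f l s d with hm
  have h2 : ∀ z : Cube (n * (L + s)), (mo_A f L s l d z - m) ^ 2 ≤
      (1 - 2 * m) * mo_A f L s l d z + m ^ 2 := by
    intro z
    have h3 : 0 ≤ mo_A f L s l d z := mo_nonneg f d z
    have h4 : mo_A f L s l d z ≤ 1 := mo_le hf d z
    nlinarith
  refine (avg_mono h2).trans ?_
  rw [avg_add, avg_mul_left, mo_avg hl, avg_const, ← hm]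
  nlinarith

/-- The centred loss. -/
noncomputable def mo_X (J : Finset (Fin n)) (f : Fin n → Cube n → ℂ) (L s l : ℕ)
    (d : Fin (2 ^ s) → Bool) (z : Cube (n * (L + s))) : ℝ :=
  ∑ j ∈ J, (mo_A (f j) L s l d z - mo_m (f j) l s d)

theorem mo_Lo (J : Finset (Fin n)) (f : Fin n → Cube n → ℂ) (d : Fin (2 ^ s) → Bool)
    (z : Cube (n * (L + s))) :
    Lo J f (wd (eta z l) (hsh z) d) = Ls J f (pd l s d) - mo_X J f L s l d z := by
  unfold Lo Ls mo_X mo_A mo_m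
  rw [← Finset.sum_sub_distrib]
  exact Finset.sum_congr rfl fun j _ => by ring

theorem mo_X_avg (hl : l ≤ L) (J : Finset (Fin n)) (f : Fin n → Cube n → ℂ)
    (d : Fin (2 ^ s) → Bool) : avg (mo_X J f L s l d) = 0 := by
  have h1 : mo_X J f L s l d = fun z : Cube (n * (L + s)) =>
      ∑ j ∈ J, (mo_A (f j) L s l d z - mo_m (f j) l s d) := rfl
  rw [h1, avg_sum]
  refine Finset.sum_eq_zero fun j _ => ?_
  rw [avg_sub, avg_const, mo_avg hl, sub_self]

theorem mo_X_sq (hl : l ≤ L) (h : Blk N J I f) (d : Fin (2 ^ s) → Bool) :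
    (avg fun z => mo_X J f L s l d z ^ 2) ≤ Ls J f (pd l s d) := by
  classical
  have h1 : (fun z : Cube (n * (L + s)) => mo_X J f L s l d z ^ 2) = fun z =>
      ∑ i ∈ J, ∑ j ∈ J, (mo_A (f i) L s l d z - mo_m (f i) l s d) *
        (mo_A (f j) L s l d z - mo_m (f j) l s d) := by
    funext z
    unfold mo_X
    rw [sq, Finset.sum_mul_sum]
  rw [h1, avg_sum]
  have h2 : ∀ i ∈ J, (avg fun z : Cube (n * (L + s)) =>
      ∑ j ∈ J, (mo_A (f i) L s l d z - mo_m (f i) l s d) *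
        (mo_A (f j) L s l d z - mo_m (f j) l s d)) ≤ 1 - mo_m (f i) l s d := by
    intro i hi
    rw [avg_sum]
    have h3 : ∀ j ∈ J, j ≠ i → (avg fun z : Cube (n * (L + s)) =>
        (mo_A (f i) L s l d z - mo_m (f i) l s d) *
        (mo_A (f j) L s l d z - mo_m (f j) l s d)) = 0 := by
      intro j hj hji
      have h4 : (fun z : Cube (n * (L + s)) => (mo_A (f i) L s l d z - mo_m (f i) l s d) *
          (mo_A (f j) L s l d z - mo_m (f j) l s d)) = fun z =>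
          mo_A (f i) L s l d z * mo_A (f j) L s l d z -
            (mo_m (f j) l s d * mo_A (f i) L s l d z +
              (mo_m (f i) l s d * mo_A (f j) L s l d z -
                mo_m (f i) l s d * mo_m (f j) l s d)) := by
        funext z
        ring
      rw [h4, avg_sub, mo_cross hl (h.on i hi) (h.on j hj) (h.dj i hi j hj (Ne.symm hji)),
        avg_add, avg_sub, avg_mul_left, avg_mul_left, avg_const, mo_avg hl, mo_avg hl]
      ring
    rw [Finset.sum_eq_single_of_mem i hi h3]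
    have h5 := mo_self hl (h.le i hi) d
    refine le_trans (le_of_eq ?_) h5
    congr 1
    funext z
    ring
  refine (Finset.sum_le_sum h2).trans (le_of_eq ?_)
  unfold Ls mo_m
  rfl

theorem mo_X_sp (hl : l ≤ L) (h : Blk N J I f) (d : Fin (2 ^ s) → Bool) :
    Sp (2 * (n : ℝ) * (N : ℝ) ^ (s + 2)) (fun z => ((mo_X J f L s l d z : ℝ) : ℂ)) := by
  have hN1 : (1 : ℝ) ≤ (N : ℝ) ^ (s + 2) := one_le_pow₀ (by exact_mod_cast h.pos)
  have h1 : ∀ j ∈ J, Sp (2 * (N : ℝ) ^ (s + 2)) (fun z : Cube (n * (L + s)) =>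
      ((mo_A (f j) L s l d z : ℝ) : ℂ) - ((mo_m (f j) l s d : ℝ) : ℂ)) := by
    intro j hj
    obtain ⟨h0, h1⟩ := mo_m_mem (f j) (h.le j hj) l s d
    refine ((mo_sp hl (h.on j hj) (h.le j hj) (h.wd j hj) d).sub (Sp.const _)).mono ?_
    rw [Complex.norm_real, Real.norm_eq_abs, abs_of_nonneg h0]
    linarith
  refine ((Sp.sum J (fun _ => 2 * (N : ℝ) ^ (s + 2)) _ h1).mono ?_).of_eq fun z => ?_
  · rw [Finset.sum_const, nsmul_eq_mul]
    have h2 : ((J.card : ℕ) : ℝ) ≤ n := by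
      have := Finset.card_le_univ J
      rw [Fintype.card_fin] at this
      exact_mod_cast this
    calc (J.card : ℝ) * (2 * (N : ℝ) ^ (s + 2)) ≤ n * (2 * (N : ℝ) ^ (s + 2)) :=
          mul_le_mul_of_nonneg_right h2 (by positivity)
      _ = _ := by ring
  · unfold mo_X
    push_cast
    rfl

theorem mo_bd1 (hN : 1 ≤ N) (n s : ℕ) :
    2 * (n : ℝ) * (N : ℝ) ^ (s + 2) ≤ bd (2 * (s + 2) + 4) n N := by
  unfold bd
  have h1 : (1 : ℝ) ≤ N := by exact_mod_cast hN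
  have h0 : (0 : ℝ) ≤ n := Nat.cast_nonneg n
  have h2 : (n : ℝ) * (N : ℝ) ^ (s + 2) ≤ (((n : ℝ) + 1) * N) ^ (2 * (s + 2) + 4) := by
    calc (n : ℝ) * (N : ℝ) ^ (s + 2) ≤ ((n : ℝ) + 1) ^ (s + 2) * (N : ℝ) ^ (s + 2) := by
          refine mul_le_mul_of_nonneg_right ?_ (by positivity)
          calc (n : ℝ) ≤ (n : ℝ) + 1 := by linarith
            _ ≤ ((n : ℝ) + 1) ^ (s + 2) := le_self_pow₀ (by linarith) (by omega)
      _ = (((n : ℝ) + 1) * N) ^ (s + 2) := by rw [mul_pow]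
      _ ≤ (((n : ℝ) + 1) * N) ^ (2 * (s + 2) + 4) := pow_le_pow_right₀ (by nlinarith) (by omega)
  have h3 : (2 : ℝ) ≤ ((2 * (s + 2) + 4 : ℕ) : ℝ) := by
    push_cast
    have : (0 : ℝ) ≤ s := Nat.cast_nonneg s
    linarith
  calc 2 * (n : ℝ) * (N : ℝ) ^ (s + 2) = 2 * ((n : ℝ) * (N : ℝ) ^ (s + 2)) := by ring
    _ ≤ ((2 * (s + 2) + 4 : ℕ) : ℝ) * (((n : ℝ) + 1) * N) ^ (2 * (s + 2) + 4) :=
      mul_le_mul h3 h2 (by positivity) (by positivity)

theorem mo_bd2 (hN : 1 ≤ N) (n s : ℕ) :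
    (2 * (n : ℝ) * (N : ℝ) ^ (s + 2)) ^ 2 ≤ bd (2 * (s + 2) + 4) n N := by
  unfold bd
  have h1 : (1 : ℝ) ≤ N := by exact_mod_cast hN
  have h0 : (0 : ℝ) ≤ n := Nat.cast_nonneg n
  have h2 : ((n : ℝ) * (N : ℝ) ^ (s + 2)) ^ 2 ≤ (((n : ℝ) + 1) * N) ^ (2 * (s + 2) + 4) := by
    calc ((n : ℝ) * (N : ℝ) ^ (s + 2)) ^ 2 ≤ (((n : ℝ) + 1) ^ (s + 2) * (N : ℝ) ^ (s + 2)) ^ 2 := by
          refine pow_le_pow_left₀ (by positivity) (mul_le_mul_of_nonneg_right ?_ (by positivity)) 2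
          calc (n : ℝ) ≤ (n : ℝ) + 1 := by linarith
            _ ≤ ((n : ℝ) + 1) ^ (s + 2) := le_self_pow₀ (by linarith) (by omega)
      _ = (((n : ℝ) + 1) * N) ^ (2 * (s + 2)) := by rw [← mul_pow, ← pow_mul, mul_comm (s + 2) 2]
      _ ≤ (((n : ℝ) + 1) * N) ^ (2 * (s + 2) + 4) := pow_le_pow_right₀ (by nlinarith) (by omega)
  have h3 : (4 : ℝ) ≤ ((2 * (s + 2) + 4 : ℕ) : ℝ) := by
    push_cast
    have : (0 : ℝ) ≤ s := Nat.cast_nonneg s
    linarith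
  calc (2 * (n : ℝ) * (N : ℝ) ^ (s + 2)) ^ 2 = 4 * ((n : ℝ) * (N : ℝ) ^ (s + 2)) ^ 2 := by ring
    _ ≤ ((2 * (s + 2) + 4 : ℕ) : ℝ) * (((n : ℝ) + 1) * N) ^ (2 * (s + 2) + 4) :=
      mul_le_mul h3 h2 (by positivity) (by positivity)

end MO

theorem Lo_mean (s : ℕ) : ∃ K : ℕ, ∀ (n N : ℕ) (J : Finset (Fin n))
    (I : Fin n → Finset (Fin n)) (f : Fin n → Cube n → ℂ), Blk N J I f →
    ∀ (L l : ℕ), l ≤ L → ∀ (d : Fin (2 ^ s) → Bool) {Ω : Type} [Fintype Ω] [Nonempty Ω]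
      (Z : Ω → Cube (n * (L + s))) (δ : ℝ), 0 ≤ δ → Bias δ Z →
      (avg fun ω => Lo J f (wd (eta (Z ω) l) (hsh (Z ω)) d)) ≤
        Ls J f (pd l s d) + δ * bd K n N := by
  refine ⟨2 * (s + 2) + 4, fun n N J I f h L l hl d Ω _ _ Z δ hδ hZ => ?_⟩
  have h1 : (fun ω => Lo J f (wd (eta (Z ω) l) (hsh (Z ω)) d)) =
      fun ω => Ls J f (pd l s d) - mo_X J f L s l d (Z ω) := funext fun ω => mo_Lo J f d (Z ω)
  rw [h1, avg_sub, avg_const]
  have h2 := fool_real hδ hZ (mo_X_sp hl h d)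
  rw [mo_X_avg hl] at h2
  have h3 := (abs_le.1 h2).1
  have h4 := mul_le_mul_of_nonneg_left (mo_bd1 h.pos n s) hδ
  linarith

theorem Lo_var (s : ℕ) : ∃ K : ℕ, ∀ (n N : ℕ) (J : Finset (Fin n))
    (I : Fin n → Finset (Fin n)) (f : Fin n → Cube n → ℂ), Blk N J I f →
    ∀ (L l : ℕ), l ≤ L → ∀ (d : Fin (2 ^ s) → Bool) {Ω : Type} [Fintype Ω] [Nonempty Ω]
      (Z : Ω → Cube (n * (L + s))) (δ : ℝ), 0 ≤ δ → Bias δ Z →
      (avg fun ω => (Lo J f (wd (eta (Z ω) l) (hsh (Z ω)) d) - Ls J f (pd l s d)) ^ 2) ≤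
        Ls J f (pd l s d) + δ * bd K n N := by
  refine ⟨2 * (s + 2) + 4, fun n N J I f h L l hl d Ω _ _ Z δ hδ hZ => ?_⟩
  have h1 : (fun ω => (Lo J f (wd (eta (Z ω) l) (hsh (Z ω)) d) - Ls J f (pd l s d)) ^ 2) =
      fun ω => mo_X J f L s l d (Z ω) ^ 2 := by
    funext ω
    rw [mo_Lo J f d (Z ω)]
    ring
  rw [h1]
  have h5 : Sp ((2 * (n : ℝ) * (N : ℝ) ^ (s + 2)) ^ 2)
      (fun z => ((mo_X J f L s l d z ^ 2 : ℝ) : ℂ)) := by
    refine ((mo_X_sp hl h d).pow 2).of_eq fun z => ?_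
    push_cast
    rfl
  have h2 := fool_real hδ hZ h5
  have h3 := (abs_le.1 h2).2
  have h4 := mul_le_mul_of_nonneg_left (mo_bd2 h.pos n s) hδ
  have h6 := mo_X_sq hl h d
  linarith

end Pool.Agent.MP_ca1109_lc.Pt
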