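import Pool.Agent.MP_ca1109_lc.Pt.EX
import Pool.Agent.MP_ca1109_lc.Xp.SPb
import Pool.Agent.MP_ca1109_lc.Dnf.B2

/-!
# Row IN: independence
-/

namespace Pool.Agent.MP_ca1109_lc.Pt

open Finset Pool.Agent.H66 Pool.Agent.MP_ca1109_lc.Mpg Pool.Agent.MP_ca1109_lc.Agp
  Pool.Agent.MP_ca1109_lc.Xp
open Pool.Agent.MP_ca1109_lc.Dnf (Cube ch one On)

variable {n : ℕ}

theorem in_parts {A : Type*} [Fintype A] (f : A → ℂ) :
    av f = ((avg fun a => (f a).re : ℝ) : ℂ) + ((avg fun a => (f a).im : ℝ) : ℂ) * Complex.I := by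
  unfold av avg
  push_cast
  rw [div_mul_eq_mul_div, ← add_div, Finset.sum_mul, ← Finset.sum_add_distrib]
  congr 1
  refine Finset.sum_congr rfl fun a _ => ?_
  exact (Complex.re_add_im (f a)).symm

theorem in_sub {A : Type*} [Fintype A] (f g : A → ℝ) :
    avg (fun a => f a - g a) = avg f - avg g := by
  unfold avg
  rw [Finset.sum_sub_distrib, sub_div]

/-- Complex functions of disjoint sets of bits are independent. -/
theorem in_indep {A B : Finset (Fin n)} (hAB : Disjoint A B) {f g : Cube n → ℂ} (hf : On A f)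
    (hg : On B g) : av (fun x => f x * g x) = av f * av g := by
  have hre : On A fun x => (f x).re := fun x y h => by simp only [hf x y h]
  have him : On A fun x => (f x).im := fun x y h => by simp only [hf x y h]
  have gre : On B fun x => (g x).re := fun x y h => by simp only [hg x y h]
  have gim : On B fun x => (g x).im := fun x y h => by simp only [hg x y h]
  have key : ∀ {u v : Cube n → ℝ}, On A u → On B v → avg (fun x => u x * v x) = avg u * avg v := by
    intro u v hu hv
    rw [spb_avg_E, spb_avg_E, spb_avg_E]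
    exact Dnf.E_indep hAB hu hv
  rw [in_parts, in_parts f, in_parts g]
  have h1 : (avg fun x => (f x * g x).re) = (avg fun x => (f x).re) * (avg fun x => (g x).re) -
      (avg fun x => (f x).im) * avg fun x => (g x).im := by
    rw [← key hre gre, ← key him gim, ← in_sub]
    rfl
  have h2 : (avg fun x => (f x * g x).im) = (avg fun x => (f x).re) * (avg fun x => (g x).im) +
      (avg fun x => (f x).im) * avg fun x => (g x).re := by
    rw [← key hre gim, ← key him gre, ← avg_add]
    rfl
  rw [h1, h2]
  push_cast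
  linear_combination (-((avg fun x => (f x).im : ℝ) : ℂ) * ((avg fun x => (g x).im : ℝ) : ℂ)) *
    Complex.I_mul_I

theorem in_const {A : Type*} [Fintype A] [Nonempty A] (c : ℂ) : av (fun _ : A => c) = c := by
  have hc : (Fintype.card A : ℂ) ≠ 0 := by exact_mod_cast Fintype.card_ne_zero
  unfold av
  rw [Finset.sum_const, nsmul_eq_mul, Finset.card_univ, mul_comm, mul_div_assoc, div_self hc,
    mul_one]

/-- Many complex functions of pairwise disjoint sets of bits are independent. -/
theorem in_prod {ι : Type*} (J : Finset ι) (A : ι → Finset (Fin n)) (f : ι → Cube n → ℂ)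
    (hA : ∀ i ∈ J, ∀ j ∈ J, i ≠ j → Disjoint (A i) (A j)) (hf : ∀ i ∈ J, On (A i) (f i)) :
    av (fun x => ∏ i ∈ J, f i x) = ∏ i ∈ J, av (f i) := by
  classical
  induction J using Finset.induction_on with
  | empty =>
    simp only [Finset.prod_empty]
    exact in_const 1
  | insert a J ha ih =>
    simp only [Finset.prod_insert ha]
    have h1 : On (J.biUnion A) fun x => ∏ i ∈ J, f i x := by
      intro x y h
      refine Finset.prod_congr rfl fun i hi => hf i (Finset.mem_insert_of_mem hi) x y fun v hv => ?_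
      exact h v (Finset.mem_biUnion.2 ⟨i, hi, hv⟩)
    have h2 : Disjoint (A a) (J.biUnion A) := by
      rw [Finset.disjoint_biUnion_right]
      intro i hi
      exact hA a (Finset.mem_insert_self _ _) i (Finset.mem_insert_of_mem hi)
        fun h => ha (h ▸ hi)
    rw [in_indep h2 (hf a (Finset.mem_insert_self _ _)) h1,
      ih (fun i hi j hj => hA i (Finset.mem_insert_of_mem hi) j (Finset.mem_insert_of_mem hj))
        (fun i hi => hf i (Finset.mem_insert_of_mem hi))]

theorem in_ofReal {A : Type*} [Fintype A] (f : A → ℝ) :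
    av (fun a => ((f a : ℝ) : ℂ)) = ((avg f : ℝ) : ℂ) := by
  unfold av avg
  push_cast
  rfl

theorem in_sum {A κ : Type*} [Fintype A] (s : Finset κ) (f : κ → A → ℂ) :
    av (fun a => ∑ k ∈ s, f k a) = ∑ k ∈ s, av (f k) := by
  unfold av
  rw [Finset.sum_comm, Finset.sum_div]

theorem av_mul_on {A A' : Finset (Fin n)} (hd : Disjoint A A') {f g : Cube n → ℂ} (hf : On A f)
    (hg : On A' g) : av (fun x => f x * g x) = av f * av g := in_indep hd hf hg

theorem av_prod {J : Finset (Fin n)} {I : Fin n → Finset (Fin n)}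
    (hd : ∀ i ∈ J, ∀ j ∈ J, i ≠ j → Disjoint (I i) (I j)) (g : Fin n → Cube n → ℂ)
    (hg : ∀ j ∈ J, On (I j) (g j)) : av (fun x => ∏ j ∈ J, g j x) = ∏ j ∈ J, av (g j) :=
  in_prod J I g hd hg

end Pool.Agent.MP_ca1109_lc.Pt
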