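import Pool.Agent.MP_ca1109_lc.Pt.LV
import Pool.Agent.MP_ca1109_lc.Pt.IN

/-! Row UN: the uniform distribution. -/

namespace Pool.Agent.MP_ca1109_lc.Pt

open Finset Pool.Agent.H66 Pool.Agent.MP_ca1109_lc.Mpg Pool.Agent.MP_ca1109_lc.Agp
  Pool.Agent.MP_ca1109_lc.Xp
open Pool.Agent.MP_ca1109_lc.Dnf (Cube ch one On)

variable {n : ℕ}

/-! ## UN: the uniform distribution -/

variable {N : ℕ} {J : Finset (Fin n)} {I : Fin n → Finset (Fin n)} {f : Fin n → Cube n → ℂ}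

/-- `m ≤ exp (-(1 - m ^ 4) / 4)`. -/
theorem un_four {m s : ℝ} (h : m ^ 4 ≤ s) : m ≤ Real.exp (-(1 - s) / 4) := by
  have h1 : m ^ 4 ≤ Real.exp (-(1 - s)) := by
    have h2 := Real.add_one_le_exp (-(1 - s))
    linarith
  have h3 : Real.exp (-(1 - s)) = Real.exp (-(1 - s) / 4) ^ 4 := by
    rw [← Real.exp_nat_mul]
    congr 1
    push_cast
    ring
  rw [h3] at h1
  exact le_of_pow_le_pow_left₀ (by norm_num) (Real.exp_pos _).le h1

/-- `m ≤ exp (-(1 - m ^ 2) / 2)`. -/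
theorem un_two {m : ℝ} : m ≤ Real.exp (-(1 - m ^ 2) / 2) := by
  have h1 : m ^ 2 ≤ Real.exp (-(1 - m ^ 2)) := by
    have h2 := Real.add_one_le_exp (-(1 - m ^ 2))
    linarith
  have h3 : Real.exp (-(1 - m ^ 2)) = Real.exp (-(1 - m ^ 2) / 2) ^ 2 := by
    rw [← Real.exp_nat_mul]
    congr 1
    push_cast
    ring
  rw [h3] at h1
  exact le_of_pow_le_pow_left₀ (by norm_num) (Real.exp_pos _).le h1

theorem unif_small (h : Blk N J I f) :
    ‖av fun x => ∏ j ∈ J, f j x‖ ≤ Real.exp (-(Ls J f (1 / 2)) / 4) := by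
  rw [av_prod h.dj f h.on, norm_prod]
  have h1 : Real.exp (-(Ls J f (1 / 2)) / 4) =
      ∏ j ∈ J, Real.exp (-(1 - ∑ S, (‖co (f j) S‖ ^ 2) ^ 2) / 4) := by
    rw [← Real.exp_sum, Ls_half]
    congr 1
    rw [← Finset.sum_div, ← Finset.sum_neg_distrib]
  rw [h1]
  refine prod_le_prod (fun j _ => norm_nonneg _) fun j _ => un_four ?_
  have h2 : (‖co (f j) ∅‖ ^ 2) ^ 2 ≤ ∑ S, (‖co (f j) S‖ ^ 2) ^ 2 :=
    single_le_sum (f := fun S => (‖co (f j) S‖ ^ 2) ^ 2) (fun S _ => by positivity) (mem_univ ∅)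
  rw [co_empty] at h2
  calc ‖av (f j)‖ ^ 4 = (‖av (f j)‖ ^ 2) ^ 2 := by ring
    _ ≤ _ := h2

theorem au_prod (h : Blk N J I f) (W : Cube n) :
    ‖av fun y => ∏ j ∈ J, dr (f j) W y‖ ≤ Real.exp (-(Lo J f W) / 2) := by
  have hb := dr_blk h W
  rw [av_prod hb.dj (fun j => dr (f j) W) hb.on, norm_prod]
  have h1 : Real.exp (-(Lo J f W) / 2) = ∏ j ∈ J, Real.exp (-(1 - ‖au (f j) W‖ ^ 2) / 2) := by
    rw [← Real.exp_sum]
    congr 1
    rw [Lo, ← Finset.sum_div, ← Finset.sum_neg_distrib]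
  rw [h1]
  exact prod_le_prod (fun j _ => norm_nonneg _) fun j _ => un_two

theorem Lo_ge (h : Blk N J I f) (W : Cube n) :
    ∑ j ∈ J, (1 - ‖av (dr (f j) W)‖) ≤ Lo J f W := by
  refine sum_le_sum fun j hj => ?_
  have h1 : ‖au (f j) W‖ ≤ 1 := au_le (f j) (h.le j hj) W
  have h2 : ‖au (f j) W‖ ^ 2 ≤ ‖au (f j) W‖ := by
    nlinarith [norm_nonneg (au (f j) W)]
  change 1 - ‖au (f j) W‖ ≤ _
  linarith

theorem Lo_nonneg (h : Blk N J I f) (W : Cube n) : 0 ≤ Lo J f W := by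
  refine sum_nonneg fun j hj => ?_
  have h1 : ‖au (f j) W‖ ≤ 1 := au_le (f j) (h.le j hj) W
  have h2 : ‖au (f j) W‖ ^ 2 ≤ 1 := by
    nlinarith [norm_nonneg (au (f j) W)]
  linarith

end Pool.Agent.MP_ca1109_lc.Pt
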