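import Pool.Agent.MP_ca1109_lc.Pt.CS
import Pool.Agent.MP_ca1109_lc.Pt.MO
import Pool.Agent.MP_ca1109_lc.Pt.SF
import Pool.Agent.MP_ca1109_lc.Pt.UN

namespace Pool.Agent.MP_ca1109_lc.Pt

open Finset Pool.Agent.H66 Pool.Agent.MP_ca1109_lc.Mpg Pool.Agent.MP_ca1109_lc.Agp
  Pool.Agent.MP_ca1109_lc.Xp
open Pool.Agent.MP_ca1109_lc.Dnf (Cube ch one On)

variable {n : ℕ}

/-! ## C2: the main case (assembly of CS, MO, SF, UN, LV) -/

namespace C2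

/-- The pointwise bound for one shift. -/
theorem point {X ℓ Λ e δ b A : ℝ} (hX : 0 ≤ X) (hℓ : 0 < ℓ) (hΛ : 0 < Λ) (he : 0 ≤ e) (hδ : 0 ≤ δ)
    (hb : 0 ≤ b) (hA1 : A ≤ 1) (hA : X ≤ Λ → A ≤ Real.exp (-X / 2) + (e + δ * b)) :
    A ≤ Real.exp (-ℓ / 4) + 4 / ℓ ^ 2 * (X - ℓ) ^ 2 + 1 / Λ * X + (e + δ * b) := by
  have hdb : 0 ≤ δ * b := mul_nonneg hδ hb
  have h0 : 0 ≤ Real.exp (-ℓ / 4) := (Real.exp_pos _).le
  have h1 : 0 ≤ 4 / ℓ ^ 2 * (X - ℓ) ^ 2 := by positivity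
  have h2 : 0 ≤ 1 / Λ * X := by positivity
  rcases le_or_gt X Λ with h | h
  · rcases le_or_gt (ℓ / 2) X with h' | h'
    · have h3 : Real.exp (-X / 2) ≤ Real.exp (-ℓ / 4) := Real.exp_le_exp.2 (by linarith)
      linarith [hA h]
    · have h3 : Real.exp (-X / 2) ≤ 1 := Real.exp_le_one_iff.2 (by linarith)
      have h4 : 1 ≤ 4 / ℓ ^ 2 * (X - ℓ) ^ 2 := by
        rw [div_mul_eq_mul_div, le_div_iff₀ (by positivity)]
        nlinarith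
      linarith [hA h]
  · have h3 : 1 ≤ 1 / Λ * X := by
      rw [one_div, inv_mul_eq_div, le_div_iff₀ hΛ]
      linarith
    linarith

/-- The density for a nonzero `d`. -/
theorem pd_ge {l s : ℕ} {d : Fin (2 ^ s) → Bool} (hd : d ≠ fun _ => false) :
    (1 / 2 : ℝ) ^ l * (1 / 2) ^ s ≤ pd l s d := by
  have h1 : 1 ≤ (univ.filter fun c => d c = true).card := by
    rw [Nat.one_le_iff_ne_zero, Ne, card_eq_zero, filter_eq_empty_iff]
    intro h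
    apply hd
    funext c
    simpa using h (mem_univ c)
  unfold pd
  refine mul_le_mul_of_nonneg_left ?_ (by positivity)
  rw [one_div_pow]
  have h2 : (1 : ℝ) ≤ (univ.filter fun c => d c = true).card := by exact_mod_cast h1
  exact div_le_div_of_nonneg_right h2 (by positivity)

theorem pd_le {l s : ℕ} (d : Fin (2 ^ s) → Bool) : pd l s d ≤ (1 / 2 : ℝ) ^ l := by
  unfold pd
  refine mul_le_of_le_one_right (by positivity) ?_
  rw [div_le_one (by positivity)]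
  have h1 : (univ.filter fun c => d c = true).card ≤ 2 ^ s := by
    refine (card_filter_le _ _).trans ?_
    rw [card_univ, Fintype.card_fin]
  exact_mod_cast h1

theorem pd_nonneg {l s : ℕ} (d : Fin (2 ^ s) → Bool) : 0 ≤ pd l s d := by
  unfold pd
  positivity

/-- The average over `d`: the value at `0` and a bound elsewhere. -/
theorem avg_d {s : ℕ} (F : (Fin (2 ^ s) → Bool) → ℝ) {A : ℝ} (h0 : F (fun _ => false) ≤ 1)
    (hA : 0 ≤ A) (h : ∀ d, d ≠ (fun _ => false) → F d ≤ A) : avg F ≤ (1 / 2) ^ (2 ^ s) + A := by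
  have h1 : ∀ d, F d ≤ (if d = (fun _ => false) then 1 else 0) + A := by
    intro d
    split_ifs with hd
    · rw [hd]; linarith
    · linarith [h d hd]
  refine (avg_mono h1).trans ?_
  rw [avg_add, avg_const]
  refine add_le_add_left ?_ A |>.trans_eq rfl
  unfold avg
  rw [sum_ite_eq' univ (fun _ => false) (fun _ => (1 : ℝ))]
  simp

theorem bd_smul {K N : ℕ} (c : ℕ) (hc : 1 ≤ c) (hN : 1 ≤ N) (n : ℕ) :
    (c : ℝ) * bd K n N ≤ bd (c * K) n N := by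
  unfold bd
  have hX : (1 : ℝ) ≤ ((n : ℝ) + 1) * N := by
    have h1 : (1 : ℝ) ≤ N := by exact_mod_cast hN
    have h2 : (0 : ℝ) ≤ n := Nat.cast_nonneg n
    nlinarith
  rw [← mul_assoc]
  push_cast
  refine mul_le_mul_of_nonneg_left (pow_le_pow_right₀ hX ?_) (by positivity)
  exact Nat.le_mul_of_pos_left K hc

end C2

open C2

theorem case2 {ε : ℝ} (hε : 0 < ε) : ∃ s C₀ : ℕ, ∀ C : ℝ, C₀ ≤ C → ∃ K : ℕ,
    ∀ (n N : ℕ) (J : Finset (Fin n)) (I : Fin n → Finset (Fin n)) (f : Fin n → Cube n → ℂ),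
    Blk N J I f → ∀ (L l : ℕ), l ≤ L → 1 ≤ l → C ≤ Ls J f ((1 / 2) ^ l) →
    Ls J f ((1 / 2) ^ l) ≤ 2 * C →
    ∀ {Ω₁ Ω₂ : Type} [Fintype Ω₁] [Nonempty Ω₁] [Fintype Ω₂] [Nonempty Ω₂]
      (Y : Ω₁ → Cube n) (Z : Ω₂ → Cube (n * (L + s))) (sh : Ω₂ → Cube n) (δ : ℝ), 0 ≤ δ →
      Bias δ Y → Bias δ Z →
      ‖av fun ω₂ => av fun ω₁ => av fun u : Fin (2 ^ s) → Bool =>
        ∏ j ∈ J, f j (mv (xo (Y ω₁) (sh ω₂)) (eta (Z ω₂) l) (hsh (Z ω₂)) u)‖ ^ 2 ≤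
        ε + δ * bd K n N := by
  obtain ⟨s, hs⟩ : ∃ s : ℕ, (1 / 2 : ℝ) ^ s < ε / 6 :=
    exists_pow_lt_of_lt_one (by positivity) (by norm_num)
  have hs' : (1 / 2 : ℝ) ^ (2 ^ s) ≤ ε / 6 :=
    (pow_le_pow_of_le_one (by norm_num) (by norm_num) Nat.lt_two_pow_self.le).trans hs.le
  obtain ⟨C₀, hC₀⟩ := exists_nat_ge (24 * 2 ^ s / ε + 1)
  obtain ⟨K₁, hK₁⟩ := Lo_var s
  obtain ⟨K₂, hK₂⟩ := Lo_mean s
  refine ⟨s, C₀, fun C hC => ?_⟩
  have hT : (0 : ℝ) < 2 ^ s := by positivity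
  have hT1 : (1 : ℝ) ≤ 2 ^ s := one_le_pow₀ (by norm_num)
  have hC1 : 24 * 2 ^ s / ε + 1 ≤ C := hC₀.trans hC
  have hCe : 24 * 2 ^ s / ε ≤ C := by linarith
  have hC0 : 1 ≤ C := by
    have : 0 ≤ 24 * 2 ^ s / ε := by positivity
    linarith
  set Λ : ℝ := 12 * C / ε + 1 with hΛdef
  have hΛ : 0 < Λ := by positivity
  have hΛ1 : 1 ≤ Λ := by
    have : 0 ≤ 12 * C / ε := by positivity
    linarith
  obtain ⟨K₃, hK₃⟩ := foolSB (Lam := Λ) (ε := ε / 6) (by positivity)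
  refine ⟨4 * (2 ^ s) ^ 2 * K₁ + K₂ + K₃, ?_⟩
  intro n N J I f hB L l hlL hl hCl hCu Ω₁ Ω₂ _ _ _ _ Y Z sh δ hδ hY hZ
  have hN := hB.pos
  have hl2 : (1 / 2 : ℝ) ^ l ≤ 1 / 2 := by
    have := pow_le_pow_of_le_one (a := (1 / 2 : ℝ)) (by norm_num) (by norm_num) hl
    rwa [pow_one] at this
  refine (cs (fun x => ∏ j ∈ J, f j x) Y (fun ω₂ => eta (Z ω₂) l) (fun ω₂ => hsh (Z ω₂)) sh).trans ?_
  have hle1 : ∀ (d : Fin (2 ^ s) → Bool) (ω₂ : Ω₂) (a : Cube n),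
      ‖av fun ω₁ => dr (fun x => ∏ j ∈ J, f j x) (wd (eta (Z ω₂) l) (hsh (Z ω₂)) d)
        (xo (Y ω₁) a)‖ ≤ 1 := by
    intro d ω₂ a
    refine ((norm_av_le _).trans (avg_mono fun ω₁ => ?_)).trans_eq (avg_const 1)
    rw [dr_prod, norm_prod]
    exact prod_le_one (fun j _ => norm_nonneg _) fun j hj =>
      (dr_blk hB (wd (eta (Z ω₂) l) (hsh (Z ω₂)) d)).le j hj _
  have hA : (0 : ℝ) ≤ 5 * ε / 6 + δ * bd (4 * (2 ^ s) ^ 2 * K₁ + K₂ + K₃) n N :=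
    add_nonneg (by positivity) (mul_nonneg hδ (bd_nonneg _ _ _))
  refine (avg_d _ ?_ hA ?_).trans (by linarith)
  · refine (avg_mono fun ω₂ => (avg_mono fun u => hle1 _ ω₂ _).trans_eq (avg_const 1)).trans_eq
      (avg_const 1)
  intro d hd
  -- the size of `ℓ`
  set ℓ : ℝ := Ls J f (pd l s d) with hℓdef
  have hpd1 := pd_ge (l := l) hd
  have hpd2 := pd_le (l := l) d
  have hℓ1 : C / 2 ^ s ≤ ℓ := by
    have h1 := Ls_scale hB (p := (1 / 2 : ℝ) ^ l) (θ := (1 / 2 : ℝ) ^ s) (by positivity) hl2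
      (by positivity) (pow_le_one₀ (by norm_num) (by norm_num))
    have h2 := Ls_mono hB (p := (1 / 2 : ℝ) ^ s * (1 / 2 : ℝ) ^ l) (q := pd l s d) (by positivity)
      (by rw [mul_comm]; exact hpd1) (hpd2.trans hl2)
    have h3 : C / 2 ^ s ≤ (1 / 2 : ℝ) ^ s * Ls J f ((1 / 2) ^ l) := by
      rw [one_div_pow, one_div, inv_mul_eq_div]
      exact div_le_div_of_nonneg_right hCl hT.le
    exact h3.trans (h1.trans h2)
  have hℓ2 : ℓ ≤ 2 * C := (Ls_mono hB (pd_nonneg d) hpd2 hl2).trans hCu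
  have hℓ0 : 0 < ℓ := lt_of_lt_of_le (by positivity) hℓ1
  -- the pointwise bound
  have hpt : ∀ (ω₂ : Ω₂) (u : Fin (2 ^ s) → Bool),
      ‖av fun ω₁ => dr (fun x => ∏ j ∈ J, f j x) (wd (eta (Z ω₂) l) (hsh (Z ω₂)) d)
        (xo (Y ω₁) (xo (sh ω₂) (wd (eta (Z ω₂) l) (hsh (Z ω₂)) u)))‖ ≤
      Real.exp (-ℓ / 4) + 4 / ℓ ^ 2 * (Lo J f (wd (eta (Z ω₂) l) (hsh (Z ω₂)) d) - ℓ) ^ 2 +
        1 / Λ * Lo J f (wd (eta (Z ω₂) l) (hsh (Z ω₂)) d) + (ε / 6 + δ * bd K₃ n N) := by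
    intro ω₂ u
    set W := wd (eta (Z ω₂) l) (hsh (Z ω₂)) d with hW
    set a := xo (sh ω₂) (wd (eta (Z ω₂) l) (hsh (Z ω₂)) u) with ha
    refine point (Lo_nonneg hB W) hℓ0 hΛ (by positivity) hδ (bd_nonneg _ _ _) (hle1 d ω₂ a) ?_
    intro hX
    have h1 := hK₃ n N J I (fun j => dr (f j) W) (dr_blk hB W) ((Lo_ge hB W).trans hX) ∅
      (fun ω₁ => xo (Y ω₁) a) δ hδ (hY.xo a)
    simp only [Dnf.ch_empty, Complex.ofReal_one, one_mul] at h1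
    have h2 := au_prod hB W
    have h3 : (fun ω₁ => dr (fun x => ∏ j ∈ J, f j x) W (xo (Y ω₁) a)) =
        fun ω₁ => ∏ j ∈ J, dr (f j) W (xo (Y ω₁) a) := by
      funext ω₁
      exact dr_prod J f W _
    rw [h3]
    have h4 := norm_sub_norm_le (av fun ω₁ => ∏ j ∈ J, dr (f j) W (xo (Y ω₁) a))
      (av fun x => ∏ j ∈ J, dr (f j) W x)
    linarith
  have h1 : (avg fun ω₂ => avg fun u : Fin (2 ^ s) → Bool =>
      ‖av fun ω₁ => dr (fun x => ∏ j ∈ J, f j x) (wd (eta (Z ω₂) l) (hsh (Z ω₂)) d)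
        (xo (Y ω₁) (xo (sh ω₂) (wd (eta (Z ω₂) l) (hsh (Z ω₂)) u)))‖) ≤
      avg fun ω₂ => (Real.exp (-ℓ / 4) +
        4 / ℓ ^ 2 * (Lo J f (wd (eta (Z ω₂) l) (hsh (Z ω₂)) d) - ℓ) ^ 2 +
        1 / Λ * Lo J f (wd (eta (Z ω₂) l) (hsh (Z ω₂)) d) + (ε / 6 + δ * bd K₃ n N)) :=
    avg_mono fun ω₂ => (avg_mono fun u => hpt ω₂ u).trans_eq (avg_const _)
  refine h1.trans ?_
  rw [avg_add, avg_add, avg_add, avg_const, avg_const, avg_mul_left, avg_mul_left]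
  have hv := hK₁ n N J I f hB L l hlL d Z δ hδ hZ
  have hm := hK₂ n N J I f hB L l hlL d Z δ hδ hZ
  have e1 : Real.exp (-ℓ / 4) ≤ ε / 6 := by
    have h2 : (6 : ℝ) / ε ≤ ℓ / 4 := by
      have h3 : 6 / ε ≤ C / 2 ^ s / 4 := by
        rw [div_div, div_le_div_iff₀ hε (by positivity)]
        have h4 : 24 * 2 ^ s ≤ C * ε := by
          rw [div_le_iff₀ hε] at hCe
          exact hCe
        linarith
      linarith
    have h3 : (6 : ℝ) / ε ≤ Real.exp (ℓ / 4) := h2.trans ((Real.add_one_le_exp _).trans' (by linarith))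
    rw [show -ℓ / 4 = -(ℓ / 4) by ring, Real.exp_neg]
    rw [inv_le_comm₀ (Real.exp_pos _) (by positivity), inv_div]
    exact h3
  have e2 : 4 / ℓ ^ 2 * ℓ ≤ ε / 6 := by
    have h2 : 4 / ℓ ^ 2 * ℓ = 4 / ℓ := by
      rw [pow_two]
      field_simp
    rw [h2, div_le_iff₀ hℓ0]
    have h3 : 24 * 2 ^ s ≤ C * ε := by
      rw [div_le_iff₀ hε] at hCe
      exact hCe
    have h4 : 24 ≤ ℓ * ε := by
      have h5 : C / 2 ^ s * ε ≤ ℓ * ε := mul_le_mul_of_nonneg_right hℓ1 hε.le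
      have h6 : 24 ≤ C / 2 ^ s * ε := by
        rw [div_mul_eq_mul_div, le_div_iff₀ hT]
        exact h3
      linarith
    linarith
  have e3 : 4 / ℓ ^ 2 ≤ ((4 * (2 ^ s) ^ 2 : ℕ) : ℝ) := by
    push_cast
    rw [div_le_iff₀ (by positivity)]
    have h2 : 1 ≤ 2 ^ s * ℓ := by
      have h3 : C ≤ ℓ * 2 ^ s := (div_le_iff₀ hT).1 hℓ1
      linarith
    nlinarith [h2]
  have e4 : 1 / Λ * ℓ ≤ ε / 6 := by
    rw [one_div, inv_mul_eq_div, div_le_iff₀ hΛ, hΛdef]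
    have h2 : ε / 6 * (12 * C / ε + 1) = 2 * C + ε / 6 := by
      field_simp
      ring
    rw [h2]
    linarith
  have e5 : 1 / Λ ≤ 1 := by
    rw [div_le_one hΛ]
    exact hΛ1
  have hb1 := bd_nonneg K₁ n N
  have hb2 := bd_nonneg K₂ n N
  have f1 : 4 / ℓ ^ 2 * (avg fun ω₂ => (Lo J f (wd (eta (Z ω₂) l) (hsh (Z ω₂)) d) - ℓ) ^ 2) ≤
      ε / 6 + δ * bd (4 * (2 ^ s) ^ 2 * K₁) n N := by
    refine (mul_le_mul_of_nonneg_left hv (by positivity)).trans ?_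
    rw [mul_add]
    refine add_le_add e2 ?_
    rw [mul_left_comm]
    refine mul_le_mul_of_nonneg_left ?_ hδ
    refine (mul_le_mul_of_nonneg_right e3 hb1).trans ?_
    exact bd_smul _ (Nat.one_le_iff_ne_zero.2 (by positivity)) hN n
  have f2 : 1 / Λ * (avg fun ω₂ => Lo J f (wd (eta (Z ω₂) l) (hsh (Z ω₂)) d)) ≤
      ε / 6 + δ * bd K₂ n N := by
    refine (mul_le_mul_of_nonneg_left hm (by positivity)).trans ?_
    rw [mul_add]
    refine add_le_add e4 ?_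
    rw [mul_left_comm]
    refine mul_le_mul_of_nonneg_left ?_ hδ
    exact mul_le_of_le_one_left hb2 e5
  have f3 : bd (4 * (2 ^ s) ^ 2 * K₁) n N + bd K₂ n N + bd K₃ n N ≤
      bd (4 * (2 ^ s) ^ 2 * K₁ + K₂ + K₃) n N := by
    have g1 := bd_add (K := 4 * (2 ^ s) ^ 2 * K₁) (K' := K₂) hN n
    have g2 := bd_add (K := 4 * (2 ^ s) ^ 2 * K₁ + K₂) (K' := K₃) hN n
    linarith
  have f4 := mul_le_mul_of_nonneg_left f3 hδ
  rw [mul_add, mul_add] at f4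
  linarith

end Pool.Agent.MP_ca1109_lc.Pt
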