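import Pool.Agent.MP_ca1109_lc.Pt.Defs
import Pool.Agent.MP_ca1109_lc.Hyb.E3
import Pool.Agent.MP_ca1109_lc.Hyb.E4

/-!
# The generator
-/

namespace Pool.Agent.MP_ca1109_lc.Pt

open Finset Pool.Agent.H66 Pool.Agent.MP_ca1109_lc.Mpg Pool.Agent.MP_ca1109_lc.Agp
  Pool.Agent.MP_ca1109_lc.Xp
open Pool.Agent.MP_ca1109_lc.Dnf (Cube ch one On)

variable {n : ℕ}

/-! ### The ingredients, on natural numbers -/

/-- The number of levels. -/
def zL (r n : ℕ) : ℕ := Nat.clog 2 n + r + 1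

/-- The length of the second string. -/
def zN (r s n : ℕ) : ℕ := n * (zL r n + s)

/-- The number of values of the true random bits. -/
def zV (r s n : ℕ) : ℕ := 2 ^ (zL r n * 2 ^ s)

/-- The bit `t` of the block `i` of the second string. -/
def zZ (r s : ℕ) (G : ℕ → ℕ → ℕ → Bool) (n p i t : ℕ) : Bool :=
  G (zN r s n) p (t + (zL r n + s) * i)

/-- The hash value. -/
def zH (r s : ℕ) (G : ℕ → ℕ → ℕ → Bool) (n p i : ℕ) : ℕ → ℕ
  | 0 => 0
  | b + 1 => zH r s G n p i b + (if zZ r s G n p i (zL r n + b) then 1 else 0) * 2 ^ b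

/-- The levels which change the bit `i`. -/
def zT (r s : ℕ) (G : ℕ → ℕ → ℕ → Bool) (n p v i l : ℕ) : Bool :=
  ((List.range l).filter fun t => !zZ r s G n p i t).isEmpty &&
    decide (v / 2 ^ (zH r s G n p i s + 2 ^ s * l) % 2 = 1)

/-- The number of seeds of the second string. -/
def zM (r s : ℕ) (E : ℕ → ℕ) (n : ℕ) : ℕ := 2 ^ E (zN r s n)

/-- The generator. -/
def zG (r s : ℕ) (E₂ : ℕ → ℕ) (G₁ G₂ : ℕ → ℕ → ℕ → Bool) (n p i : ℕ) : Bool :=
  xor (G₁ n (p / zV r s n / zM r s E₂ n) i)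
    (decide (((List.range (zL r n)).filter fun l =>
      zT r s G₂ n (p / zV r s n % zM r s E₂ n) (p % zV r s n) i l).length % 2 = 1))

/-- The length of the seed. -/
def zE (r s : ℕ) (E₁ E₂ : ℕ → ℕ) (n : ℕ) : ℕ := E₁ n + E₂ (zN r s n) + zL r n * 2 ^ s

/-! ### It is explicit -/

theorem zL_poly (r : ℕ) : PolyTime fun n : ℕ => zL r n :=
  PolyTime.add (PolyTime.add polyTime_clog (PolyTime.const r)) (PolyTime.const 1)

theorem zN_poly (r s : ℕ) : PolyTime fun n : ℕ => zN r s n :=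
  PolyTime.mul PolyTime.id (PolyTime.add (zL_poly r) (PolyTime.const s))

theorem zV_eq (r s n : ℕ) : zV r s n = 2 ^ ((r + 1) * 2 ^ s) * nseed (2 ^ s) n := by
  unfold zV nseed zL
  rw [← pow_mul, ← pow_add]
  congr 1
  ring

theorem zV_poly (r s : ℕ) : PolyTime fun n : ℕ => zV r s n :=
  (PolyTime.mul (PolyTime.const (2 ^ ((r + 1) * 2 ^ s))) (polyTime_nseed (2 ^ s))).of_eq
    fun n => (zV_eq r s n).symm

theorem zM_poly (r s : ℕ) {E : ℕ → ℕ} (h : PolyTime fun n : ℕ => 2 ^ E n) :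
    PolyTime fun n : ℕ => zM r s E n := h.comp (zN_poly r s)

theorem zE_pow (r s : ℕ) (E₁ E₂ : ℕ → ℕ) (n : ℕ) :
    2 ^ zE r s E₁ E₂ n = 2 ^ E₁ n * zM r s E₂ n * zV r s n := by
  unfold zE zM zV
  rw [pow_add, pow_add]

theorem zN_bound (r s : ℕ) : ∃ c : ℕ, ∀ n : ℕ, zN r s n + 1 ≤ c * (n + 1) ^ c := by
  refine ⟨r + s + 3, fun n => ?_⟩
  have h1 : Nat.clog 2 n ≤ n := by
    rcases Nat.eq_zero_or_pos n with rfl | h
    · simp
    · exact Nat.clog_le_of_le_pow (Nat.lt_two_pow_self).le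
  have h2 : zN r s n + 1 ≤ (r + s + 3) * (n + 1) ^ 2 := by
    unfold zN zL
    have h3 : n * (Nat.clog 2 n + r + 1 + s) ≤ n * (n + r + 1 + s) :=
      Nat.mul_le_mul_left _ (by omega)
    have h4 : (r + s + 3) * (n + 1) ^ 2 = n * (n + r + 1 + s) + 1 +
        ((r + s + 2) * n ^ 2 + (r + s + 5) * n + (r + s + 2)) := by ring
    omega
  exact h2.trans (Nat.mul_le_mul_left _ (Nat.pow_le_pow_right (by omega) (by omega)))

theorem zM_bound (r s : ℕ) {E : ℕ → ℕ} (h : ∃ c : ℕ, ∀ n, 2 ^ E n ≤ c * (n + 1) ^ c) :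
    ∃ c : ℕ, ∀ n, zM r s E n ≤ c * (n + 1) ^ c := by
  obtain ⟨c, hc⟩ := h
  obtain ⟨d, hd⟩ := pb_mul (pb_const c) (pb_pow (zN_bound r s) c)
  exact ⟨d, fun n => (hc _).trans (hd n)⟩

theorem zZ_poly (r s : ℕ) {E : ℕ → ℕ} {G : ℕ → ℕ → ℕ → Bool} (h : NG E G) {γ : Type} [Enc γ]
    {n p i t : γ → ℕ} (hn : PolyTime n) (hp : PolyTime p) (hi : PolyTime i) (ht : PolyTime t) :
    PolyTime fun c => zZ r s G (n c) (p c) (i c) (t c) := by
  unfold zZ
  exact polyTime_out h ((zN_poly r s).comp hn) hp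
    (PolyTime.add ht (PolyTime.mul (PolyTime.add ((zL_poly r).comp hn) (PolyTime.const s)) hi))

theorem zH_poly (r s : ℕ) {E : ℕ → ℕ} {G : ℕ → ℕ → ℕ → Bool} (h : NG E G) {γ : Type} [Enc γ]
    {n p i : γ → ℕ} (hn : PolyTime n) (hp : PolyTime p) (hi : PolyTime i) (b : ℕ) :
    PolyTime fun c => zH r s G (n c) (p c) (i c) b := by
  induction b with
  | zero => exact PolyTime.const 0
  | succ b ih =>
    unfold zH
    exact PolyTime.add ih (PolyTime.mul (PolyTime.ite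
      (zZ_poly r s h hn hp hi (PolyTime.add ((zL_poly r).comp hn) (PolyTime.const b)))
      (PolyTime.const 1) (PolyTime.const 0)) (PolyTime.const (2 ^ b)))

theorem zT_poly (r s : ℕ) {E : ℕ → ℕ} {G : ℕ → ℕ → ℕ → Bool} (h : NG E G) {γ : Type} [Enc γ]
    {n p v i l : γ → ℕ} (hn : PolyTime n) (hp : PolyTime p) (hv : PolyTime v) (hi : PolyTime i)
    (hl : PolyTime l) : PolyTime fun c => zT r s G (n c) (p c) (v c) (i c) (l c) := by
  unfold zT
  have h1 := PolyTime.filter (l := fun c : γ => List.range (l c))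
    (f := fun (c : γ) (t : ℕ) => !zZ r s G (n c) (p c) (i c) t) (PolyTime.range hl)
    (PolyTime.not (zZ_poly r s h (hn.comp PolyTime.fst) (hp.comp PolyTime.fst)
      (hi.comp PolyTime.fst) PolyTime.snd))
  refine PolyTime.and (PolyTime.isEmpty.comp h1) ?_
  exact PolyTime.eqb (d3_mod (g3_divpow hv (PolyTime.add (zH_poly r s h hn hp hi s)
    (PolyTime.mul (PolyTime.const (2 ^ s)) hl))) (PolyTime.const 2)) (PolyTime.const 1)

theorem zG_ng (r s : ℕ) {E₁ E₂ : ℕ → ℕ} {G₁ G₂ : ℕ → ℕ → ℕ → Bool} (h₁ : NG E₁ G₁)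
    (h₂ : NG E₂ G₂) : NG (zE r s E₁ E₂) (zG r s E₂ G₁ G₂) := by
  refine ⟨?_, ?_, ?_, ?_⟩
  · exact PolyTime.add (PolyTime.add h₁.poly_E (h₂.poly_E.comp (zN_poly r s)))
      (PolyTime.mul (zL_poly r) (PolyTime.const (2 ^ s)))
  · exact (PolyTime.mul (PolyTime.mul h₁.poly_M (zM_poly r s h₂.poly_M)) (zV_poly r s)).of_eq
      fun n => (zE_pow r s E₁ E₂ n).symm
  · obtain ⟨c, hc⟩ := pb_mul (pb_mul h₁.bound (zM_bound r s h₂.bound))
      (pb_mul (pb_const (2 ^ ((r + 1) * 2 ^ s))) (pb_pow pb_clog (2 ^ s)))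
    refine ⟨c, fun n => ?_⟩
    rw [zE_pow, zV_eq]
    exact hc n
  · have hn : PolyTime fun q : ℕ × (ℕ × ℕ) => q.1 := PolyTime.fst
    have hp : PolyTime fun q : ℕ × (ℕ × ℕ) => q.2.1 := PolyTime.fst.comp PolyTime.snd
    have hi : PolyTime fun q : ℕ × (ℕ × ℕ) => q.2.2 := PolyTime.snd.comp PolyTime.snd
    have hV := (zV_poly r s).comp hn
    have hM := (zM_poly r s h₂.poly_M).comp hn
    have h1 : PolyTime fun q : ℕ × (ℕ × ℕ) =>
        G₁ q.1 (q.2.1 / zV r s q.1 / zM r s E₂ q.1) q.2.2 :=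
      polyTime_out h₁ hn (d3_div (d3_div hp hV) hM) hi
    have h2 := PolyTime.filter (l := fun q : ℕ × (ℕ × ℕ) => List.range (zL r q.1))
      (f := fun (q : ℕ × (ℕ × ℕ)) (l : ℕ) =>
        zT r s G₂ q.1 (q.2.1 / zV r s q.1 % zM r s E₂ q.1) (q.2.1 % zV r s q.1) q.2.2 l)
      (PolyTime.range ((zL_poly r).comp hn))
      (zT_poly r s h₂ (hn.comp PolyTime.fst) ((d3_mod (d3_div hp hV) hM).comp PolyTime.fst)
        ((d3_mod hp hV).comp PolyTime.fst) (hi.comp PolyTime.fst) PolyTime.snd)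
    have h3 := PolyTime.eqb (d3_mod (PolyTime.length h2) (PolyTime.const 2)) (PolyTime.const 1)
    exact (PolyTime.ite h1 (PolyTime.not h3) h3).of_eq fun q => by
      unfold zG
      cases G₁ q.1 (q.2.1 / zV r s q.1 / zM r s E₂ q.1) q.2.2 <;> simp

/-! ### The seeds -/

theorem zn_av_equiv {A B : Type*} [Fintype A] [Fintype B] (e : A ≃ B) (f : B → ℂ) :
    (av fun a => f (e a)) = av f := by
  unfold av
  rw [Equiv.sum_comp e f, Fintype.card_congr e]

/-- The table of the true random bits. -/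
def zW (L B c : ℕ) (l : Fin L) (a : Fin B) : Bool := decide (c / 2 ^ ((a : ℕ) + B * (l : ℕ)) % 2 = 1)

theorem zn_bits (L B : ℕ) (H : (Fin L → Fin B → Bool) → ℂ) :
    na (2 ^ (L * B)) (fun c => H (zW L B c)) = av H := by
  have h1 := na_digits (M := 2) (by norm_num) (L * B)
    (fun d => H fun l a => decide (d (finProdFinEquiv (l, a)) = 1))
  have h2 : (fun c => H (zW L B c)) = fun p => (fun d : Fin (L * B) → ℕ =>
      H fun l a => decide (d (finProdFinEquiv (l, a)) = 1)) (fun r => p / 2 ^ (r : ℕ) % 2) := by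
    funext c
    congr 1
  rw [h2, h1]
  have h3 := zn_av_equiv ((Equiv.arrowCongr (finProdFinEquiv (m := L) (n := B)).symm
    finTwoEquiv).trans (Equiv.curry _ _ _)) H
  rw [← h3]
  congr 1
  funext y
  congr 1
  funext l a
  show decide ((y (finProdFinEquiv (l, a)) : ℕ) = 1) = finTwoEquiv (y (finProdFinEquiv (l, a)))
  generalize y (finProdFinEquiv (l, a)) = b
  fin_cases b <;> rfl

theorem zn_split (A B C : ℕ) (hB : 0 < B) (hC : 0 < C) (F : ℕ → ℕ → ℕ → ℂ) :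
    na (A * B * C) (fun p => F (p / C / B) (p / C % B) (p % C)) =
      na C (fun c => na B fun b => na A fun a => F a b c) := by
  have h1 := na_mul (A * B) hC (fun q c => F (q / B) (q % B) c)
  have h2 := na_mul A hB (fun a b => na C (fun c => F a b c))
  rw [h1]
  rw [h2]
  have h3 : ∀ a, na B (fun b => na C (fun c => F a b c)) = na C (fun c => na B (fun b => F a b c)) :=
    fun a => na_comm _ _ _
  rw [na_congr fun a _ => h3 a, na_comm]
  exact na_congr fun c _ => na_comm _ _ _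

theorem zn_count (P : ℕ → Bool) (k : ℕ) :
    (∑ l : Fin k, (if P l = true then 1 else 0)) = ((List.range k).filter P).length := by
  rw [Fin.sum_univ_eq_sum_range (fun l => if P l = true then 1 else 0)]
  induction k with
  | zero => rfl
  | succ k ih =>
    rw [sum_range_succ, ih, List.range_succ, List.filter_append, List.length_append]
    by_cases h : P k = true
    · simp [h]
    · simp [h]

/-- The second string. -/
def zZs (r s : ℕ) (G : ℕ → ℕ → ℕ → Bool) (n p : ℕ) : Cube (n * (zL r n + s)) :=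
  out G (n * (zL r n + s)) p

theorem zZ_eq (r s : ℕ) (G : ℕ → ℕ → ℕ → Bool) (n p : ℕ) (i : Fin n) (t : Fin (zL r n + s)) :
    zZ r s G n p i t = zZs r s G n p (finProdFinEquiv (i, t)) := rfl

theorem zH_eq (r s : ℕ) (G : ℕ → ℕ → ℕ → Bool) (n p : ℕ) (i : Fin n) :
    zH r s G n p i s = (hsh (zZs r s G n p) i : ℕ) := by
  have h1 : ∀ b, zH r s G n p i b =
      ∑ t ∈ range b, (if zZ r s G n p i (zL r n + t) then 1 else 0) * 2 ^ t := by
    intro b
    induction b with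
    | zero => rfl
    | succ b ih => rw [sum_range_succ, ← ih]; rfl
  rw [h1]
  unfold hsh
  rw [finFunctionFinEquiv_apply, ← Fin.sum_univ_eq_sum_range
    (fun t => (if zZ r s G n p i (zL r n + t) then 1 else 0) * 2 ^ t)]
  refine Finset.sum_congr rfl fun t _ => ?_
  congr 1
  have h2 : zZ r s G n p i (zL r n + (t : ℕ)) =
      zZs r s G n p (finProdFinEquiv (i, Fin.natAdd (zL r n) t)) := rfl
  rw [h2]
  generalize zZs r s G n p (finProdFinEquiv (i, Fin.natAdd (zL r n) t)) = b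
  cases b <;> rfl

theorem zT_eq (r s : ℕ) (G : ℕ → ℕ → ℕ → Bool) (n p c : ℕ) (i : Fin n) (l : Fin (zL r n)) :
    zT r s G n p c i l = true ↔ i ∈ eta (zZs r s G n p) (l : ℕ) ∧
      zW (zL r n) (2 ^ s) c l (hsh (zZs r s G n p) i) = true := by
  unfold zT
  rw [Bool.and_eq_true, zH_eq]
  refine and_congr ?_ ?_
  · rw [List.isEmpty_iff, List.filter_eq_nil_iff]
    unfold eta
    rw [mem_filter]
    constructor
    · intro h
      refine ⟨mem_univ _, fun t ht => ?_⟩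
      have := h (t : ℕ) (List.mem_range.mpr ht)
      rw [← zZ_eq]
      simpa using this
    · intro h t ht
      have ht' : t < (l : ℕ) := List.mem_range.mp ht
      have hl := l.2
      have h2 := h.2 ⟨t, by omega⟩ ht'
      rw [← zZ_eq] at h2
      simp only at h2
      simp [h2]
  · unfold zW
    rfl

theorem zG_eq (r s : ℕ) (G₁ G₂ : ℕ → ℕ → ℕ → Bool) (n a b c : ℕ) (i : Fin n) :
    xor (G₁ n a i) (decide (((List.range (zL r n)).filter fun l =>
      zT r s G₂ n b c i l).length % 2 = 1)) =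
      gx (out G₁ n a) (fun l : Fin (zL r n) => eta (zZs r s G₂ n b) (l : ℕ))
        (hsh (zZs r s G₂ n b)) (zW (zL r n) (2 ^ s) c) i := by
  unfold gx
  rw [← zn_count]
  have h1 : (∑ l : Fin (zL r n), if zT r s G₂ n b c i l = true then 1 else 0) =
      ∑ l : Fin (zL r n), if i ∈ eta (zZs r s G₂ n b) (l : ℕ) ∧
        zW (zL r n) (2 ^ s) c l (hsh (zZs r s G₂ n b) i) = true then 1 else 0 := by
    refine Finset.sum_congr rfl fun l _ => ?_
    by_cases h : zT r s G₂ n b c i l = true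
    · rw [if_pos h, if_pos ((zT_eq r s G₂ n b c i l).mp h)]
    · rw [if_neg h, if_neg fun h' => h ((zT_eq r s G₂ n b c i l).mpr h')]
  rw [h1]
  rfl

theorem zn_bias {E : ℕ → ℕ} {G : ℕ → ℕ → ℕ → Bool} {N : ℕ} {β : ℝ}
    (h : ∀ S : Finset (Fin N), S ≠ ∅ → ‖na (2 ^ E N) (fun p => Agp.sgn S (out G N p))‖ ≤ β) :
    Bias β fun ω : Fin (2 ^ E N) => out G N ω := by
  intro S hS
  have h1 := Hyb.e4_bias (out G N) S (h S hS)
  have h2 : (avg fun ω : Fin (2 ^ E N) => ch S (out G N ω)) =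
      nr (2 ^ E N) (fun p => Hyb.ch S (out G N p)) := by
    unfold avg nr
    rw [Fintype.card_fin, ← Fin.sum_univ_eq_sum_range (fun p => Hyb.ch S (out G N p))]
    rfl
  rw [h2]
  exact h1

/-- GN with the second string itself. -/
theorem pgen (r s K : ℕ) : ∃ (E : ℕ → ℕ) (G : ℕ → ℕ → ℕ → Bool), NG E G ∧
    ∀ n : ℕ, ∃ (M₁ M₂ : ℕ), 0 < M₁ ∧ 0 < M₂ ∧ ∃ (Y : Fin M₁ → Cube n)
      (Z : Fin M₂ → Cube (n * (Nat.clog 2 n + r + 1 + s))),
      Bias (1 / ((n : ℝ) + 1) ^ K) Y ∧ Bias (1 / ((n : ℝ) + 1) ^ K) Z ∧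
      ∀ f : Cube n → ℂ, na (2 ^ E n) (fun p => f (out G n p)) =
        av fun v : Fin (Nat.clog 2 n + r + 1) → Fin (2 ^ s) → Bool => av fun ω₂ => av fun ω₁ =>
          f (gx (Y ω₁) (fun l : Fin (Nat.clog 2 n + r + 1) => eta (Z ω₂) (l : ℕ))
            (hsh (Z ω₂)) v) := by
  obtain ⟨E, G, hG, H⟩ := Hyb.small_bias_poly K one_pos
  refine ⟨_, _, zG_ng r s hG hG, fun n => ⟨2 ^ E n, 2 ^ E (n * (zL r n + s)), by positivity,
    by positivity, fun ω => out G n ω, fun ω => zZs r s G n ω, zn_bias (H n), ?_, fun f => ?_⟩⟩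
  · have hpos : (0 : ℝ) < ((n : ℝ) + 1) ^ K := by positivity
    intro S hS
    refine (zn_bias (H (n * (zL r n + s))) S hS).trans ?_
    refine div_le_div_of_nonneg_left one_pos.le hpos (pow_le_pow_left₀ (by positivity) ?_ K)
    have h1 : n ≤ n * (zL r n + s) := Nat.le_mul_of_pos_right n (by unfold zL; omega)
    have h2 : (n : ℝ) ≤ ((n * (zL r n + s) : ℕ) : ℝ) := by exact_mod_cast h1
    linarith
  · rw [zE_pow]
    have h1 : (fun p => f (out (zG r s E G G) n p)) = fun p =>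
        (fun a b c => f (gx (out G n a) (fun l : Fin (zL r n) => eta (zZs r s G n b) (l : ℕ))
          (hsh (zZs r s G n b)) (zW (zL r n) (2 ^ s) c))) (p / zV r s n / zM r s E n)
          (p / zV r s n % zM r s E n) (p % zV r s n) := by
      funext p
      congr 1
      funext i
      exact zG_eq r s G G n _ _ _ i
    rw [h1, zn_split _ _ _ (by unfold zM; positivity) (by unfold zV; positivity)
      (fun a b c => f (gx (out G n a) (fun l : Fin (zL r n) => eta (zZs r s G n b) (l : ℕ))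
          (hsh (zZs r s G n b)) (zW (zL r n) (2 ^ s) c)))]
    have h2 := zn_bits (zL r n) (2 ^ s) (fun v => na (zM r s E n) fun b => na (2 ^ E n) fun a =>
      f (gx (out G n a) (fun l : Fin (zL r n) => eta (zZs r s G n b) (l : ℕ))
          (hsh (zZs r s G n b)) v))
    refine h2.trans ?_
    show _ = av fun v : Fin (zL r n) → Fin (2 ^ s) → Bool =>
      av fun ω₂ : Fin (2 ^ E (n * (zL r n + s))) => av fun ω₁ : Fin (2 ^ E n) =>
      f (gx (out G n ω₁) (fun l : Fin (zL r n) => eta (zZs r s G n ω₂) (l : ℕ))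
          (hsh (zZs r s G n ω₂)) v)
    congr 1
    funext v
    rw [av_fin (2 ^ E (n * (zL r n + s))) (fun ω₂ => av fun ω₁ : Fin (2 ^ E n) =>
      f (gx (out G n ω₁) (fun l : Fin (zL r n) => eta (zZs r s G n ω₂) (l : ℕ))
          (hsh (zZs r s G n ω₂)) v))]
    refine na_congr fun b _ => ?_
    rw [av_fin (2 ^ E n) (fun a =>
      f (gx (out G n a) (fun l : Fin (zL r n) => eta (zZs r s G n b) (l : ℕ))
          (hsh (zZs r s G n b)) v))]

/-! ## XZ: the generator with its second string (variant of `Xp.xgen`) -/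

theorem xgenZ (s K : ℕ) : ∃ (E : ℕ → ℕ) (G : ℕ → ℕ → ℕ → Bool), NG E G ∧
    ∀ n : ℕ, ∃ (M₁ M₂ : ℕ), 0 < M₁ ∧ 0 < M₂ ∧ ∃ (Y : Fin M₁ → Cube n)
      (Z : Fin M₂ → Cube (n * ((Nat.clog 2 n + 1) + s))),
      Bias (1 / ((n : ℝ) + 1) ^ K) Y ∧ Bias (1 / ((n : ℝ) + 1) ^ K) Z ∧
      ∀ f : Cube n → ℂ, na (2 ^ E n) (fun p => f (out G n p)) =
        av fun v : Fin (Nat.clog 2 n + 1) → Fin (2 ^ s) → Bool => av fun ω₂ => av fun ω₁ =>
          f (gx (Y ω₁) (fun l => eta (Z ω₂) (l : ℕ)) (hsh (Z ω₂)) v) :=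
  pgen 0 s K

end Pool.Agent.MP_ca1109_lc.Pt
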