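import Pool.Agent.MP_ca1109_lc.Pt.C0
import Pool.Agent.MP_ca1109_lc.Pt.C1
import Pool.Agent.MP_ca1109_lc.Pt.C2
import Pool.Agent.MP_ca1109_lc.Pt.XZ

/-!
# The main assembly: the generator fools product tests over disjoint small blocks
-/

namespace Pool.Agent.MP_ca1109_lc.Pt

open Finset Pool.Agent.H66 Pool.Agent.MP_ca1109_lc.Mpg Pool.Agent.MP_ca1109_lc.Agp
  Pool.Agent.MP_ca1109_lc.Xp
open Pool.Agent.MP_ca1109_lc.Dnf (Cube ch one On)

variable {n : ℕ}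

/-! ## Averages -/

theorem pma_norm_av {A : Type*} [Fintype A] [Nonempty A] {F : A → ℂ} {c : ℝ} (h : ∀ a, ‖F a‖ ≤ c) :
    ‖av F‖ ≤ c := by
  have hc : (0 : ℝ) < (Fintype.card A : ℝ) := by exact_mod_cast Fintype.card_pos
  unfold av
  rw [norm_div, Complex.norm_natCast, div_le_iff₀ hc]
  calc ‖∑ a, F a‖ ≤ ∑ a, ‖F a‖ := norm_sum_le _ _
    _ ≤ ∑ _a : A, c := Finset.sum_le_sum fun a _ => h a
    _ = c * Fintype.card A := by
      rw [Finset.sum_const, nsmul_eq_mul, Finset.card_univ, mul_comm]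

theorem pma_av_sub {A : Type*} [Fintype A] (F G : A → ℂ) :
    av (fun a => F a - G a) = av F - av G := by
  unfold av
  rw [Finset.sum_sub_distrib, sub_div]

theorem pma_av_const {A : Type*} [Fintype A] [Nonempty A] (c : ℂ) : av (fun _ : A => c) = c := by
  have hc : (Fintype.card A : ℂ) ≠ 0 := by exact_mod_cast Fintype.card_ne_zero
  unfold av
  rw [Finset.sum_const, nsmul_eq_mul, Finset.card_univ, mul_comm, mul_div_assoc, div_self hc,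
    mul_one]

theorem pma_av_close {A : Type*} [Fintype A] [Nonempty A] {F G : A → ℂ} {c : ℝ}
    (h : ∀ a, ‖F a - G a‖ ≤ c) : ‖av F - av G‖ ≤ c := by
  rw [← pma_av_sub]
  exact pma_norm_av h

/-! ## The average over the seeds -/

/-- The average over all sources. -/
noncomputable def Ph {n L B : ℕ} {Ω₁ Ω₂ : Type} [Fintype Ω₁] [Fintype Ω₂] (Y : Ω₁ → Cube n)
    (η : Fin L → Ω₂ → Finset (Fin n)) (h : Ω₂ → Fin n → Fin B) (f : Cube n → ℂ) : ℂ :=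
  av fun v : Fin L → Fin B → Bool => av fun ω₂ => av fun ω₁ =>
    f (gx (Y ω₁) (fun l => η l ω₂) (h ω₂) v)

section ph

variable {L B : ℕ} {Ω₁ Ω₂ : Type} [Fintype Ω₁] [Nonempty Ω₁] [Fintype Ω₂] [Nonempty Ω₂]
  (Y : Ω₁ → Cube n) (η : Fin L → Ω₂ → Finset (Fin n)) (h : Ω₂ → Fin n → Fin B)

omit [Nonempty Ω₁] in
theorem ph_const {f : Cube n → ℂ} {a : ℂ} {c : ℝ}
    (H : ∀ s : Cube n, ‖(av fun ω₁ => f (xo (Y ω₁) s)) - a‖ ≤ c) :
    ‖Ph Y η h f - a‖ ≤ c := by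
  have h0 : a = av fun _v : Fin L → Fin B → Bool => av fun _ω₂ : Ω₂ => a := by
    simp only [pma_av_const]
  rw [h0]
  unfold Ph
  refine pma_av_close fun v => pma_av_close fun ω₂ => ?_
  have h1 := H (gx (fun _ => false) (fun l => η l ω₂) (h ω₂) v)
  simp only [gx_xo (Y _) (fun l => η l ω₂) (h ω₂) v]
  exact h1

/-- The uniform distribution is a special case. -/
theorem ph_unif (f : Cube n → ℂ) : Ph (fun x : Cube n => x) η h f = av f := by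
  unfold Ph
  have h1 : ∀ (v : Fin L → Fin B → Bool) (ω₂ : Ω₂),
      (av fun ω₁ : Cube n => f (gx ω₁ (fun l => η l ω₂) (h ω₂) v)) = av f := by
    intro v ω₂
    have h2 : (fun ω₁ : Cube n => f (gx ω₁ (fun l => η l ω₂) (h ω₂) v)) = fun ω₁ =>
        f (xo ω₁ (gx (fun _ => false) (fun l => η l ω₂) (h ω₂) v)) := by
      funext ω₁
      rw [gx_xo ω₁]
    rw [h2]
    exact av_xo f _
  simp only [h1, pma_av_const]

omit [Nonempty Ω₁] [Nonempty Ω₂] in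
/-- One level is averaged first. -/
theorem ph_level (l : Fin L) (f : Cube n → ℂ) : Ph Y η h f =
    av fun v : Fin L → Fin B → Bool => av fun ω₂ => av fun ω₁ => av fun u : Fin B → Bool =>
      f (mv (xo (Y ω₁) (gx (fun _ => false) (fun l => η l ω₂) (h ω₂)
        (Function.update v l fun _ => false))) (η l ω₂) (h ω₂) u) := by
  unfold Ph
  rw [av_update l]
  congr 1
  funext v
  rw [av_comm]
  congr 1
  funext ω₂
  rw [av_comm]
  congr 1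
  funext ω₁
  congr 1
  funext u
  rw [gx_update]

end ph

/-! ## Numbers -/

theorem pma_pow (n j K : ℕ) (h : j + 1 ≤ K) {c₀ : ℝ} (hc : 0 ≤ c₀) :
    1 / ((n : ℝ) + 1) ^ K * (c₀ * ((n : ℝ) + 1) ^ j) ≤ c₀ / ((n : ℝ) + 1) := by
  have hn : (1 : ℝ) ≤ (n : ℝ) + 1 := by
    have : (0 : ℝ) ≤ n := Nat.cast_nonneg n
    linarith
  have h1 : ((n : ℝ) + 1) ^ (j + 1) ≤ ((n : ℝ) + 1) ^ K := pow_le_pow_right₀ hn h
  have h2 : 0 < (n : ℝ) + 1 := by linarith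
  rw [one_div, ← div_eq_inv_mul, div_le_div_iff₀ (by positivity) h2]
  calc c₀ * ((n : ℝ) + 1) ^ j * ((n : ℝ) + 1) = c₀ * ((n : ℝ) + 1) ^ (j + 1) := by
        rw [pow_succ]; ring
    _ ≤ c₀ * ((n : ℝ) + 1) ^ K := mul_le_mul_of_nonneg_left h1 hc

/-- The error of the small-bias string. -/
theorem pma_err (n c K' K : ℕ) (h : (c + 1) * K' + 1 ≤ K) :
    1 / ((n : ℝ) + 1) ^ K * bd K' n (n ^ c) ≤ K' / ((n : ℝ) + 1) := by
  have hn0 : (0 : ℝ) ≤ n := Nat.cast_nonneg n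
  have hK0 : (0 : ℝ) ≤ K' := Nat.cast_nonneg K'
  have h1 : bd K' n (n ^ c) ≤ K' * ((n : ℝ) + 1) ^ ((c + 1) * K') := by
    unfold bd
    refine mul_le_mul_of_nonneg_left ?_ hK0
    rw [pow_mul]
    refine pow_le_pow_left₀ (by positivity) ?_ K'
    push_cast
    rw [pow_succ, mul_comm]
    exact mul_le_mul_of_nonneg_right (pow_le_pow_left₀ hn0 (by linarith) c) (by linarith)
  exact (mul_le_mul_of_nonneg_left h1 (by positivity)).trans (pma_pow n _ K h hK0)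

theorem main_prod (c : ℕ) {ε : ℝ} (hε : 0 < ε) : ∃ E G, NG E G ∧ ∃ n₀ : ℕ, ∀ n ≥ n₀,
    ∀ (J : Finset (Fin n)) (I : Fin n → Finset (Fin n)) (f : Fin n → Cube n → ℂ),
      Blk (n ^ c) J I f →
      ‖na (2 ^ E n) (fun p => ∏ j ∈ J, f j (out G n p)) - av (fun x => ∏ j ∈ J, f j x)‖ ≤ ε := by
  classical
  obtain ⟨C₀, K₀, h0⟩ := case0 (show 0 < ε ^ 2 / 8 by positivity)
  obtain ⟨s, C₁, h2'⟩ := case2 (show 0 < ε ^ 2 / 8 by positivity)
  obtain ⟨C, hC⟩ : ∃ C : ℝ, C = C₀ + C₁ + 2 := ⟨_, rfl⟩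
  have hC₀0 : (0 : ℝ) ≤ C₀ := Nat.cast_nonneg _
  have hC₁0 : (0 : ℝ) ≤ C₁ := Nat.cast_nonneg _
  obtain ⟨K₂, h2⟩ := h2' C (by linarith)
  obtain ⟨K₁, h1⟩ := case1 (Lam := 2 * C) (show 0 < ε / 4 by positivity)
  obtain ⟨K', hK'⟩ : ∃ K' : ℕ, K' = K₀ + K₁ + K₂ := ⟨_, rfl⟩
  obtain ⟨K, hK⟩ : ∃ K : ℕ, K = (c + 1) * K' + 1 := ⟨_, rfl⟩
  obtain ⟨E, G, hG, hgen⟩ := xgenZ s K
  obtain ⟨n₀, hn₀⟩ := exists_nat_gt ((K' : ℝ) / (ε ^ 2 / 8) + (K' : ℝ) / (ε / 4))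
  refine ⟨E, G, hG, n₀, fun n hn J I f hf => ?_⟩
  have hnn : (n₀ : ℝ) ≤ n := by exact_mod_cast hn
  have hn0 : (0 : ℝ) ≤ n := Nat.cast_nonneg n
  have hK'0 : (0 : ℝ) ≤ K' := Nat.cast_nonneg _
  have g1 : (0 : ℝ) ≤ (K' : ℝ) / (ε ^ 2 / 8) := by positivity
  have g2 : (0 : ℝ) ≤ (K' : ℝ) / (ε / 4) := by positivity
  obtain ⟨δ, hδ⟩ : ∃ δ : ℝ, δ = 1 / ((n : ℝ) + 1) ^ K := ⟨_, rfl⟩
  have hδ0 : 0 ≤ δ := by rw [hδ]; positivity
  have herr : ∀ K'' : ℕ, K'' ≤ K' → δ * bd K'' n (n ^ c) ≤ K' / ((n : ℝ) + 1) := by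
    intro K'' h
    have e1 : (c + 1) * K'' + 1 ≤ K := by
      rw [hK]
      exact Nat.add_le_add_right (Nat.mul_le_mul_left _ h) 1
    rw [hδ]
    refine (pma_err n c K'' K e1).trans ?_
    refine div_le_div_of_nonneg_right ?_ (by linarith)
    exact_mod_cast h
  have hs1 : (K' : ℝ) / ((n : ℝ) + 1) ≤ ε ^ 2 / 8 := by
    have e1 : (K' : ℝ) / (ε ^ 2 / 8) ≤ (n : ℝ) + 1 := by linarith
    rw [div_le_iff₀ (by positivity)] at e1
    rw [div_le_iff₀ (by linarith)]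
    linarith
  have hs2 : (K' : ℝ) / ((n : ℝ) + 1) ≤ ε / 4 := by
    have e1 : (K' : ℝ) / (ε / 4) ≤ (n : ℝ) + 1 := by linarith
    rw [div_le_iff₀ (by positivity)] at e1
    rw [div_le_iff₀ (by linarith)]
    linarith
  have hsq : ∀ a : ℝ, 0 ≤ a → a ^ 2 ≤ ε ^ 2 / 8 + ε ^ 2 / 8 → a ≤ ε / 2 := by
    intro a _ h
    exact le_of_not_gt fun hlt => by nlinarith
  obtain ⟨M₁, M₂, hM₁, hM₂, Y, Z, hY, hZ, hout⟩ := hgen n
  have : Nonempty (Fin M₁) := ⟨⟨0, hM₁⟩⟩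
  have : Nonempty (Fin M₂) := ⟨⟨0, hM₂⟩⟩
  rw [← hδ] at hY hZ
  have hU : Bias δ (fun x : Cube n => x) := Bias.mono Bias.unif hδ0
  have hout' : na (2 ^ E n) (fun p => ∏ j ∈ J, f j (out G n p)) =
      Ph Y (fun l : Fin (Nat.clog 2 n + 1) => fun ω₂ => eta (Z ω₂) (l : ℕ)) (fun ω₂ => hsh (Z ω₂))
        (fun x => ∏ j ∈ J, f j x) := by
    have h3 := hout (fun x => ∏ j ∈ J, f j x)
    unfold Ph
    exact h3
  rw [hout']
  rcases le_or_gt C (Ls J f 0) with hA | hA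
  · -- the second moments are small
    have hC₀C : (C₀ : ℝ) ≤ Ls J f 0 := by linarith
    have e1 : ∀ {Ω : Type} [Fintype Ω] [Nonempty Ω] (X : Ω → Cube n), Bias δ X →
        ‖av (fun ω => ∏ j ∈ J, f j (X ω))‖ ≤ ε / 2 := by
      intro Ω _ _ X hX
      refine hsq _ (norm_nonneg _) ?_
      have := h0 n (n ^ c) J I f hf hC₀C X δ hδ0 hX
      have := herr K₀ (by omega)
      linarith
    have e2 : ‖Ph Y (fun l : Fin (Nat.clog 2 n + 1) => fun ω₂ => eta (Z ω₂) (l : ℕ))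
        (fun ω₂ => hsh (Z ω₂)) (fun x => ∏ j ∈ J, f j x) - 0‖ ≤ ε / 2 := by
      refine ph_const Y _ _ fun t => ?_
      rw [sub_zero]
      exact e1 (fun ω => xo (Y ω) t) (hY.xo t)
    have e3 := e1 (fun x : Cube n => x) hU
    rw [sub_zero] at e2
    exact (norm_sub_le _ _).trans (by linarith)
  rcases le_or_gt (Ls J f (1 / 2)) (2 * C) with hB | hB
  · -- bounded loss
    refine ph_const Y _ _ fun t => ?_
    have := h1 n (n ^ c) J I f hf hB (fun ω => xo (Y ω) t) δ hδ0 (hY.xo t)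
    have := herr K₁ (by omega)
    linarith
  · -- the main case
    obtain ⟨l, hl2, hl, hl3, hl4⟩ := Ls_level hf (by linarith : 2 ≤ C) hA.le hB
    have hlt : l < Nat.clog 2 n + 1 := by omega
    have e1 : ∀ {Ω : Type} [Fintype Ω] [Nonempty Ω] (X : Ω → Cube n), Bias δ X →
        ‖Ph X (fun l : Fin (Nat.clog 2 n + 1) => fun ω₂ => eta (Z ω₂) (l : ℕ))
          (fun ω₂ => hsh (Z ω₂)) (fun x => ∏ j ∈ J, f j x)‖ ≤ ε / 2 := by
      intro Ω _ _ X hX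
      rw [ph_level X _ _ ⟨l, hlt⟩]
      refine pma_norm_av fun v => hsq _ (norm_nonneg _) ?_
      have := h2 n (n ^ c) J I f hf (Nat.clog 2 n + 1) l (by omega) (by omega) hl3 hl4 X Z
        (fun ω₂ => gx (fun _ => false) (fun l => eta (Z ω₂) (l : ℕ)) (hsh (Z ω₂))
          (Function.update v ⟨l, hlt⟩ fun _ => false)) δ hδ0 hX hZ
      have := herr K₂ (by omega)
      linarith
    have e2 := e1 Y hY
    have e3 := e1 (fun x : Cube n => x) hU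
    rw [ph_unif] at e3
    exact (norm_sub_le _ _).trans (by linarith)

end Pool.Agent.MP_ca1109_lc.Pt
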