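import Pool.Agent.MP_ca1109_lc.Pt.Defs

/-!
# Row SA: the pointwise bound
-/

namespace Pool.Agent.MP_ca1109_lc.Pt

open Finset Pool.Agent.H66 Pool.Agent.MP_ca1109_lc.Mpg Pool.Agent.MP_ca1109_lc.Agp
  Pool.Agent.MP_ca1109_lc.Xp
open Pool.Agent.MP_ca1109_lc.Dnf (Cube ch one On)

variable {n : ℕ}


/-- the elementary symmetric polynomial -/
noncomputable def es {ι : Type*} (J : Finset ι) (z : ι → ℂ) (k : ℕ) : ℂ := ∑ t ∈ J.powersetCard k, ∏ j ∈ t, z j

theorem sa_prod {ι : Type*} (J : Finset ι) (z : ι → ℂ) (a : ℂ) :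
    ∏ j ∈ J, (1 + a * z j) = ∑ k ∈ range (J.card + 1), a ^ k * es J z k := by
  classical
  rw [Finset.prod_one_add, Finset.sum_powerset]
  refine Finset.sum_congr rfl fun k _ => ?_
  unfold es
  rw [Finset.mul_sum]
  refine Finset.sum_congr rfl fun t ht => ?_
  rw [Finset.prod_mul_distrib, Finset.prod_const, (Finset.mem_powersetCard.mp ht).2]

theorem sa_norm_le {ι : Type*} (J : Finset ι) (z : ι → ℂ) {a : ℂ} (ha : ‖a‖ = 2) :
    ‖∏ j ∈ J, (1 + a * z j)‖ ≤ Real.exp (2 * ‖∑ j ∈ J, z j‖ + 2 * ∑ j ∈ J, ‖z j‖ ^ 2) := by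
  have h1 : ∀ w : ℂ, ‖1 + w‖ ≤ Real.exp (w.re + ‖w‖ ^ 2 / 2) := by
    intro w
    have h2 : ‖1 + w‖ ^ 2 = 1 + 2 * w.re + ‖w‖ ^ 2 := by
      rw [← Complex.normSq_eq_norm_sq, ← Complex.normSq_eq_norm_sq, Complex.normSq_apply,
        Complex.normSq_apply]
      simp
      ring
    have h3 : ‖1 + w‖ ^ 2 ≤ Real.exp (w.re + ‖w‖ ^ 2 / 2) ^ 2 := by
      rw [h2, ← Real.exp_nat_mul]
      have h4 := Real.add_one_le_exp (2 * w.re + ‖w‖ ^ 2)
      have h5 : ((2 : ℕ) : ℝ) * (w.re + ‖w‖ ^ 2 / 2) = 2 * w.re + ‖w‖ ^ 2 := by push_cast; ring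
      rw [h5]
      linarith
    exact le_of_sq_le_sq h3 (Real.exp_pos _).le
  rw [norm_prod]
  calc ∏ j ∈ J, ‖1 + a * z j‖ ≤ ∏ j ∈ J, Real.exp ((a * z j).re + ‖a * z j‖ ^ 2 / 2) :=
        Finset.prod_le_prod (fun _ _ => norm_nonneg _) fun j _ => h1 _
    _ = Real.exp (∑ j ∈ J, ((a * z j).re + ‖a * z j‖ ^ 2 / 2)) := (Real.exp_sum _ _).symm
    _ ≤ _ := by
        apply Real.exp_le_exp.mpr
        rw [Finset.sum_add_distrib]
        apply add_le_add
        · have h6 : ∑ j ∈ J, (a * z j).re = (a * ∑ j ∈ J, z j).re := by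
            rw [Finset.mul_sum, Complex.re_sum]
          rw [h6]
          calc (a * ∑ j ∈ J, z j).re ≤ ‖a * ∑ j ∈ J, z j‖ := Complex.re_le_norm _
            _ = 2 * ‖∑ j ∈ J, z j‖ := by rw [norm_mul, ha]
        · rw [Finset.mul_sum]
          refine Finset.sum_le_sum fun j _ => ?_
          rw [norm_mul, ha]
          linarith [mul_pow (2 : ℝ) ‖z j‖ 2]

theorem sa_es {ι : Type*} (J : Finset ι) (z : ι → ℂ) (k : ℕ) :
    ‖es J z k‖ ≤ (1 / 2) ^ k * Real.exp (2 * ‖∑ j ∈ J, z j‖ + 2 * ∑ j ∈ J, ‖z j‖ ^ 2) := by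
  classical
  rcases Nat.lt_or_ge J.card k with hk | hk
  · have : es J z k = 0 := by
      unfold es
      rw [Finset.powersetCard_eq_empty.mpr hk]
      simp
    rw [this, norm_zero]
    positivity
  set N := J.card + 1 with hN
  have hN0 : N ≠ 0 := by omega
  have hNC : (N : ℂ) ≠ 0 := by exact_mod_cast hN0
  set ω := Complex.exp (2 * Real.pi * Complex.I / N) with hω
  have hprim : IsPrimitiveRoot ω N := Complex.isPrimitiveRoot_exp N hN0
  have hω1 : ω ^ N = 1 := hprim.pow_eq_one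
  have hωn : ‖ω‖ = 1 := Complex.norm_eq_one_of_pow_eq_one hω1 hN0
  -- the filter
  have hfil : ∀ i < N, ∑ m ∈ range N, (ω ^ m) ^ (N - k) * (ω ^ m) ^ i = if i = k then (N : ℂ) else 0 := by
    intro i hi
    have e1 : ∀ m, (ω ^ m) ^ (N - k) * (ω ^ m) ^ i = (ω ^ (N - k + i)) ^ m := by
      intro m
      rw [← pow_add, ← pow_mul, ← pow_mul, mul_comm]
    simp only [e1]
    split_ifs with h
    · subst h
      have : N - i + i = N := by omega
      rw [this, hω1]
      simp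
    · have hne : ω ^ (N - k + i) ≠ 1 := by
        intro h1
        have h2 := (hprim.pow_eq_one_iff_dvd _).mp h1
        obtain ⟨c, hc⟩ := h2
        rcases c with _ | _ | c
        · omega
        · simp at hc
          omega
        · have : N * (c + 1 + 1) = N * c + N + N := by ring
          have h3 : N * c + N + N ≤ N - k + i := by omega
          omega
      have h4 : (ω ^ (N - k + i)) ^ N = 1 := by
        rw [← pow_mul, mul_comm, pow_mul, hω1, one_pow]
      have h5 := mul_neg_geom_sum (ω ^ (N - k + i)) N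
      rw [h4, sub_self] at h5
      rcases mul_eq_zero.mp h5 with h6 | h6
      · exact absurd (sub_eq_zero.mp h6).symm hne
      · exact h6
  have hkey : (N : ℂ) * (2 ^ k * es J z k) =
      ∑ m ∈ range N, (ω ^ m) ^ (N - k) * ∏ j ∈ J, (1 + (2 * ω ^ m) * z j) := by
    have e2 : ∀ m ∈ range N, (ω ^ m) ^ (N - k) * ∏ j ∈ J, (1 + (2 * ω ^ m) * z j) =
        ∑ i ∈ range N, (2 ^ i * es J z i) * ((ω ^ m) ^ (N - k) * (ω ^ m) ^ i) := by
      intro m _
      rw [sa_prod, ← hN, Finset.mul_sum]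
      refine Finset.sum_congr rfl fun i _ => ?_
      rw [mul_pow]
      ring
    rw [Finset.sum_congr rfl e2, Finset.sum_comm]
    have e3 : ∀ i ∈ range N, ∑ m ∈ range N, (2 ^ i * es J z i) * ((ω ^ m) ^ (N - k) * (ω ^ m) ^ i) =
        if i = k then (2 ^ i * es J z i) * (N : ℂ) else 0 := by
      intro i hi
      rw [← Finset.mul_sum, hfil i (Finset.mem_range.mp hi)]
      split_ifs <;> simp
    rw [Finset.sum_congr rfl e3, Finset.sum_ite_eq' (range N) k]
    rw [if_pos (Finset.mem_range.mpr (by omega))]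
    ring
  have hB : ‖(N : ℂ) * (2 ^ k * es J z k)‖ ≤
      N * Real.exp (2 * ‖∑ j ∈ J, z j‖ + 2 * ∑ j ∈ J, ‖z j‖ ^ 2) := by
    rw [hkey]
    refine (norm_sum_le _ _).trans ?_
    have e4 : ∀ m ∈ range N, ‖(ω ^ m) ^ (N - k) * ∏ j ∈ J, (1 + (2 * ω ^ m) * z j)‖ ≤
        Real.exp (2 * ‖∑ j ∈ J, z j‖ + 2 * ∑ j ∈ J, ‖z j‖ ^ 2) := by
      intro m _
      rw [norm_mul, norm_pow, norm_pow, hωn, one_pow, one_pow, one_mul]
      apply sa_norm_le
      rw [norm_mul, norm_pow, hωn, one_pow, mul_one]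
      simp
    refine (Finset.sum_le_sum e4).trans ?_
    rw [Finset.sum_const, Finset.card_range, nsmul_eq_mul]
  rw [norm_mul, norm_mul, norm_pow, Complex.norm_natCast] at hB
  have hNpos : (0 : ℝ) < N := by exact_mod_cast Nat.pos_of_ne_zero hN0
  have h2 : ‖(2 : ℂ)‖ = 2 := by simp
  rw [h2] at hB
  have hB' := le_of_mul_le_mul_left hB hNpos
  rw [one_div, inv_pow, inv_mul_eq_div, le_div_iff₀ (by positivity)]
  linarith

theorem sa_main {ι : Type*} (J : Finset ι) (z : ι → ℂ) (D : ℕ) :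
    ‖∏ j ∈ J, (1 + z j) - ∑ k ∈ range (D + 1), es J z k‖ ≤
      (1 / 2) ^ D * Real.exp (2 * ‖∑ j ∈ J, z j‖ + 2 * ∑ j ∈ J, ‖z j‖ ^ 2) := by
  classical
  set B := Real.exp (2 * ‖∑ j ∈ J, z j‖ + 2 * ∑ j ∈ J, ‖z j‖ ^ 2) with hBdef
  have hB0 : 0 ≤ B := (Real.exp_pos _).le
  have h1 : ∏ j ∈ J, (1 + z j) = ∑ k ∈ range (J.card + 1), es J z k := by
    have := sa_prod J z 1
    simpa using this
  -- extend the sum beyond the size
  set n := J.card + 1 + (D + 1) with hn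
  have h2 : ∏ j ∈ J, (1 + z j) = ∑ k ∈ range n, es J z k := by
    rw [h1]
    apply Finset.sum_subset
    · intro k hk
      rw [Finset.mem_range] at hk ⊢
      omega
    · intro k _ hk
      rw [Finset.mem_range] at hk
      unfold es
      rw [Finset.powersetCard_eq_empty.mpr (by omega)]
      simp
  have h3 : ∑ k ∈ range n, es J z k = ∑ k ∈ range (D + 1), es J z k +
      ∑ i ∈ range (J.card + 1), es J z (D + 1 + i) := by
    rw [hn, add_comm (J.card + 1) (D + 1), Finset.sum_range_add]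
  rw [h2, h3, add_sub_cancel_left]
  refine (norm_sum_le _ _).trans ?_
  have h4 : ∀ i ∈ range (J.card + 1), ‖es J z (D + 1 + i)‖ ≤ (1 / 2) ^ (D + 1) * B * (1 / 2) ^ i := by
    intro i _
    refine (sa_es J z (D + 1 + i)).trans (le_of_eq ?_)
    rw [← hBdef, pow_add]
    ring
  refine (Finset.sum_le_sum h4).trans ?_
  rw [← Finset.mul_sum]
  have h5 : ∑ i ∈ range (J.card + 1), (1 / 2 : ℝ) ^ i ≤ 2 := by
    have := geom_sum_eq (x := (1 / 2 : ℝ)) (by norm_num) (J.card + 1)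
    rw [this]
    have h6 : (0 : ℝ) < (1 / 2) ^ (J.card + 1) := by positivity
    rw [div_le_iff_of_neg (by norm_num)]
    linarith
  calc (1 / 2 : ℝ) ^ (D + 1) * B * ∑ i ∈ range (J.card + 1), (1 / 2 : ℝ) ^ i
      ≤ (1 / 2 : ℝ) ^ (D + 1) * B * 2 := mul_le_mul_of_nonneg_left h5 (by positivity)
    _ = (1 / 2) ^ D * B := by rw [pow_succ]; ring


theorem esT_eq {ι : Type*} (J : Finset ι) (z : ι → ℂ) (D : ℕ) :
    esT J D z = ∑ k ∈ range (D + 1), es J z k := by
  classical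
  unfold esT es
  have h : (J.powerset.filter fun K => K.card ≤ D) =
      (range (D + 1)).biUnion fun k => J.powersetCard k := by
    ext K
    simp only [Finset.mem_filter, Finset.mem_powerset, Finset.mem_biUnion, Finset.mem_range,
      Finset.mem_powersetCard]
    constructor
    · rintro ⟨h1, h2⟩
      exact ⟨K.card, by omega, h1, rfl⟩
    · rintro ⟨k, h1, h2, h3⟩
      exact ⟨h2, by omega⟩
  rw [h, Finset.sum_biUnion]
  intro a _ b _ hab
  rw [Function.onFun, Finset.disjoint_left]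
  intro t ht ht'
  exact hab ((Finset.mem_powersetCard.mp ht).2.symm.trans (Finset.mem_powersetCard.mp ht').2)

theorem esT_close {ι : Type*} [DecidableEq ι] (J : Finset ι) (z : ι → ℂ) (D : ℕ) :
    ‖∏ j ∈ J, (1 + z j) - esT J D z‖ ≤
      (1 / 2) ^ D * Real.exp (2 * ‖∑ j ∈ J, z j‖ + 2 * ∑ j ∈ J, ‖z j‖ ^ 2) := by
  rw [esT_eq]
  exact sa_main J z D

end Pool.Agent.MP_ca1109_lc.Pt
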