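import Pool.Agent.MP_ca1109_lc.Pt.IN

/-!
# Row SV: moments
-/

namespace Pool.Agent.MP_ca1109_lc.Pt

open Finset Pool.Agent.H66 Pool.Agent.MP_ca1109_lc.Mpg Pool.Agent.MP_ca1109_lc.Agp
  Pool.Agent.MP_ca1109_lc.Xp
open Pool.Agent.MP_ca1109_lc.Dnf (Cube ch one On)

variable {n : ℕ}

/-- Orthogonality of the products of centred functions of disjoint blocks. -/
theorem sv_orth {ι : Type*} [DecidableEq ι] (J : Finset ι) (A : ι → Finset (Fin n))
    (z : ι → Cube n → ℂ) (hA : ∀ i ∈ J, ∀ j ∈ J, i ≠ j → Disjoint (A i) (A j))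
    (hz : ∀ i ∈ J, On (A i) (z i)) (h0 : ∀ i ∈ J, av (z i) = 0) {s t : Finset ι} (hs : s ⊆ J)
    (ht : t ⊆ J) :
    av (fun x => (∏ j ∈ s, z j x) * (starRingEnd ℂ) (∏ j ∈ t, z j x)) =
      if s = t then (((∏ j ∈ s, avg fun x => ‖z j x‖ ^ 2 : ℝ)) : ℂ) else 0 := by
  set F : ι → Cube n → ℂ := fun j x =>
    (if j ∈ s then z j x else 1) * (if j ∈ t then (starRingEnd ℂ) (z j x) else 1) with hF
  have h1 : ∀ x, (∏ j ∈ s, z j x) * (starRingEnd ℂ) (∏ j ∈ t, z j x) = ∏ j ∈ J, F j x := by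
    intro x
    rw [hF]
    simp only
    rw [Finset.prod_mul_distrib, map_prod]
    congr 1
    · rw [Finset.prod_ite_mem, Finset.inter_eq_right.mpr hs]
    · rw [Finset.prod_ite_mem, Finset.inter_eq_right.mpr ht]
  simp only [h1]
  have hFon : ∀ i ∈ J, On (A i) (F i) := by
    intro i hi x y h
    rw [hF]
    simp only [hz i hi x y h]
  rw [in_prod J A F hA hFon]
  by_cases hst : s = t
  · subst hst
    rw [if_pos rfl]
    push_cast
    have h5 : ∏ j ∈ s, ((avg fun x => ‖z j x‖ ^ 2 : ℝ) : ℂ) =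
        ∏ j ∈ J, if j ∈ s then ((avg fun x => ‖z j x‖ ^ 2 : ℝ) : ℂ) else 1 := by
      rw [Finset.prod_ite_mem, Finset.inter_eq_right.mpr hs]
    rw [h5]
    refine Finset.prod_congr rfl fun j _ => ?_
    by_cases hj' : j ∈ s
    · rw [if_pos hj', hF]
      rw [← in_ofReal]
      congr 1
      funext x
      simp only [if_pos hj']
      rw [Complex.mul_conj, Complex.normSq_eq_norm_sq]
    · rw [if_neg hj', hF]
      simp only [if_neg hj', mul_one]
      exact in_const 1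
  · rw [if_neg hst]
    obtain ⟨j, hj⟩ : ∃ j, ¬ (j ∈ s ↔ j ∈ t) := by
      by_contra h
      push Not at h
      exact hst (Finset.ext h)
    have hjJ : j ∈ J := by
      by_cases h : j ∈ s
      · exact hs h
      · have : j ∈ t := by
          by_contra h'
          exact hj ⟨fun h2 => absurd h2 h, fun h2 => absurd h2 h'⟩
        exact ht this
    apply Finset.prod_eq_zero hjJ
    rw [hF]
    simp only
    by_cases h : j ∈ s
    · have h' : j ∉ t := fun h2 => hj ⟨fun _ => h2, fun _ => h⟩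
      simp only [if_pos h, if_neg h', mul_one]
      exact h0 j hjJ
    · have h' : j ∈ t := by
        by_contra h'
        exact hj ⟨fun h2 => absurd h2 h, fun h2 => absurd h2 h'⟩
      simp only [if_neg h, if_pos h', one_mul]
      have h3 : av (fun x => (starRingEnd ℂ) (z j x)) = (starRingEnd ℂ) (av (z j)) := by
        unfold av
        rw [map_div₀, map_sum, map_natCast]
      rw [h3, h0 j hjJ, map_zero]

/-- The second moment of a sum of products of centred functions of disjoint blocks. -/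
theorem sv_main {ι : Type*} [DecidableEq ι] (J : Finset ι) (A : ι → Finset (Fin n))
    (z : ι → Cube n → ℂ) (hA : ∀ i ∈ J, ∀ j ∈ J, i ≠ j → Disjoint (A i) (A j))
    (hz : ∀ i ∈ J, On (A i) (z i)) (h0 : ∀ i ∈ J, av (z i) = 0) (T : Finset (Finset ι))
    (hT : ∀ t ∈ T, t ⊆ J) :
    avg (fun x => ‖∑ t ∈ T, ∏ j ∈ t, z j x‖ ^ 2) = ∑ t ∈ T, ∏ j ∈ t, avg fun x => ‖z j x‖ ^ 2 := by
  have h1 : ((avg (fun x => ‖∑ t ∈ T, ∏ j ∈ t, z j x‖ ^ 2) : ℝ) : ℂ) =
      ((∑ t ∈ T, ∏ j ∈ t, avg fun x => ‖z j x‖ ^ 2 : ℝ) : ℂ) := by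
    rw [← in_ofReal]
    have h2 : ∀ x : Cube n, ((‖∑ t ∈ T, ∏ j ∈ t, z j x‖ ^ 2 : ℝ) : ℂ) =
        ∑ s ∈ T, ∑ t ∈ T, (∏ j ∈ s, z j x) * (starRingEnd ℂ) (∏ j ∈ t, z j x) := by
      intro x
      rw [← Complex.normSq_eq_norm_sq, ← Complex.mul_conj, map_sum, Finset.sum_mul_sum]
    simp only [h2]
    rw [in_sum]
    simp only [in_sum]
    push_cast
    refine Finset.sum_congr rfl fun s hs => ?_
    rw [Finset.sum_congr rfl fun t ht => sv_orth J A z hA hz h0 (hT s hs) (hT t ht)]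
    rw [Finset.sum_ite_eq, if_pos hs]
    push_cast
    rfl
  exact_mod_cast h1

theorem sv_P {ι : Type*} [DecidableEq ι] (J : Finset ι) (A : ι → Finset (Fin n))
    (z : ι → Cube n → ℂ) (hA : ∀ i ∈ J, ∀ j ∈ J, i ≠ j → Disjoint (A i) (A j))
    (hz : ∀ i ∈ J, On (A i) (z i)) (h0 : ∀ i ∈ J, av (z i) = 0) :
    avg (fun x => ‖∑ j ∈ J, z j x‖ ^ 2) = ∑ j ∈ J, avg fun x => ‖z j x‖ ^ 2 := by
  have h := sv_main J A z hA hz h0 (J.image fun j => ({j} : Finset ι)) (by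
    intro t ht
    obtain ⟨j, hj, rfl⟩ := Finset.mem_image.mp ht
    exact Finset.singleton_subset_iff.mpr hj)
  have hinj : Set.InjOn (fun j => ({j} : Finset ι)) (J : Set ι) :=
    fun a _ b _ h => Finset.singleton_injective h
  rw [Finset.sum_image hinj] at h
  simp only [Finset.sum_image hinj, Finset.prod_singleton] at h
  exact h

theorem avg_sum_sq {J : Finset (Fin n)} {I : Fin n → Finset (Fin n)}
    (hd : ∀ i ∈ J, ∀ j ∈ J, i ≠ j → Disjoint (I i) (I j)) (z : Fin n → Cube n → ℂ)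
    (hz : ∀ j ∈ J, On (I j) (z j)) (h0 : ∀ j ∈ J, av (z j) = 0) :
    (avg fun x => ‖∑ j ∈ J, z j x‖ ^ 2) = ∑ j ∈ J, avg fun x => ‖z j x‖ ^ 2 :=
  sv_P J I z hd hz h0

theorem avg_esT_sq {J : Finset (Fin n)} {I : Fin n → Finset (Fin n)}
    (hd : ∀ i ∈ J, ∀ j ∈ J, i ≠ j → Disjoint (I i) (I j)) (z : Fin n → Cube n → ℂ)
    (hz : ∀ j ∈ J, On (I j) (z j)) (h0 : ∀ j ∈ J, av (z j) = 0) (D : ℕ) :
    (avg fun x => ‖esT J D (fun j => z j x)‖ ^ 2) ≤
      Real.exp (∑ j ∈ J, avg fun x => ‖z j x‖ ^ 2) := by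
  unfold esT
  have hsub : ∀ t ∈ J.powerset.filter (fun K => K.card ≤ D), t ⊆ J := fun t ht =>
    Finset.mem_powerset.mp (Finset.mem_filter.mp ht).1
  rw [sv_main J I z hd hz h0 _ hsub]
  have hnn : ∀ j, 0 ≤ avg fun x => ‖z j x‖ ^ 2 := by
    intro j
    unfold avg
    positivity
  calc ∑ t ∈ J.powerset.filter (fun K => K.card ≤ D), ∏ j ∈ t, (avg fun x => ‖z j x‖ ^ 2)
      ≤ ∑ t ∈ J.powerset, ∏ j ∈ t, (avg fun x => ‖z j x‖ ^ 2) :=
        Finset.sum_le_sum_of_subset_of_nonneg (Finset.filter_subset _ _)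
          fun t _ _ => Finset.prod_nonneg fun j _ => hnn j
    _ = ∏ j ∈ J, (1 + avg fun x => ‖z j x‖ ^ 2) := (Finset.prod_one_add J).symm
    _ ≤ ∏ j ∈ J, Real.exp (avg fun x => ‖z j x‖ ^ 2) := by
        refine Finset.prod_le_prod (fun j _ => by linarith [hnn j]) fun j _ => ?_
        linarith [Real.add_one_le_exp (avg fun x => ‖z j x‖ ^ 2)]
    _ = _ := (Real.exp_sum _ _).symm

end Pool.Agent.MP_ca1109_lc.Pt
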