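import Pool.Agent.MP_ca1109_lc.Pt.SF
import Pool.Agent.MP_ca1109_lc.Pt.UN

/-!
# The first easy case: the second moments are small
-/

namespace Pool.Agent.MP_ca1109_lc.Pt

open Finset Pool.Agent.H66 Pool.Agent.MP_ca1109_lc.Mpg Pool.Agent.MP_ca1109_lc.Agp
  Pool.Agent.MP_ca1109_lc.Xp
open Pool.Agent.MP_ca1109_lc.Dnf (Cube ch one On)

variable {n : ℕ}

/-- Some part of the family has about the given weight. -/
theorem c0_sel {ι : Type*} [DecidableEq ι] (w : ι → ℝ) {C : ℝ} (hC0 : 0 ≤ C) (J : Finset ι)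
    (h1 : ∀ j ∈ J, w j ≤ 1) (hC : C ≤ ∑ j ∈ J, w j) :
    ∃ J' ⊆ J, C ≤ ∑ j ∈ J', w j ∧ ∑ j ∈ J', w j ≤ C + 1 := by
  induction J using Finset.induction_on with
  | empty =>
    refine ⟨∅, subset_rfl, hC, ?_⟩
    rw [sum_empty]
    linarith
  | insert a s ha ih =>
    by_cases hs : C ≤ ∑ j ∈ s, w j
    · obtain ⟨J', h2, h3, h4⟩ := ih (fun j hj => h1 j (mem_insert_of_mem hj)) hs
      exact ⟨J', h2.trans (subset_insert a s), h3, h4⟩
    · refine ⟨insert a s, subset_rfl, hC, ?_⟩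
      rw [sum_insert ha]
      have := h1 a (mem_insert_self a s)
      linarith [not_le.1 hs]

theorem c0_norm_sq {A : Type*} [Fintype A] [Nonempty A] (f : A → ℂ) :
    ‖av f‖ ^ 2 ≤ avg fun a => ‖f a‖ ^ 2 := by
  have hc : (0 : ℝ) < Fintype.card A := by exact_mod_cast Fintype.card_pos
  unfold av avg
  rw [norm_div, Complex.norm_natCast, div_pow, div_le_div_iff₀ (by positivity) hc]
  have h1 : ‖∑ a, f a‖ ≤ ∑ a, ‖f a‖ := norm_sum_le _ _
  have h2 : (∑ a, ‖f a‖) ^ 2 ≤ Fintype.card A * ∑ a, ‖f a‖ ^ 2 := by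
    have := sq_sum_le_card_mul_sum_sq (s := (univ : Finset A)) (f := fun a => ‖f a‖)
    simpa [Finset.card_univ] using this
  have h3 : ‖∑ a, f a‖ ^ 2 ≤ (∑ a, ‖f a‖) ^ 2 := pow_le_pow_left₀ (norm_nonneg _) h1 2
  nlinarith

theorem c0_av_ofReal {Ω : Type*} [Fintype Ω] (f : Ω → ℝ) :
    av (fun a => ((f a : ℝ) : ℂ)) = ((avg f : ℝ) : ℂ) := by
  unfold av avg
  push_cast
  rfl

theorem case0 {ε : ℝ} (hε : 0 < ε) : ∃ C K : ℕ, ∀ (n N : ℕ) (J : Finset (Fin n))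
    (I : Fin n → Finset (Fin n)) (f : Fin n → Cube n → ℂ), Blk N J I f → (C : ℝ) ≤ Ls J f 0 →
    ∀ {Ω : Type} [Fintype Ω] [Nonempty Ω] (Y : Ω → Cube n) (δ : ℝ), 0 ≤ δ → Bias δ Y →
      ‖av (fun ω => ∏ j ∈ J, f j (Y ω))‖ ^ 2 ≤ ε + δ * bd K n N := by
  classical
  obtain ⟨C, hC⟩ := exists_nat_ge (2 * Real.log (2 / ε))
  obtain ⟨K, hK⟩ := foolSB (Lam := (C : ℝ) + 1) (half_pos hε)
  refine ⟨C, K, ?_⟩
  intro n N J I f h hCL Ω _ _ Y δ hδ hY
  set b : Fin n → ℝ := fun j => avg fun x => ‖f j x‖ ^ 2 with hb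
  have hb0 : ∀ j, 0 ≤ b j := fun j => by
    rw [hb]
    unfold avg
    positivity
  have hb1 : ∀ j ∈ J, b j ≤ 1 := fun j hj =>
    (avg_mono fun x => pow_le_one₀ (norm_nonneg _) (h.le j hj x)).trans (le_of_eq (avg_const 1))
  rw [Ls_zero] at hCL
  obtain ⟨J', hJ', h1, h2⟩ := c0_sel (fun j => 1 - b j ^ 2) (Nat.cast_nonneg C) J
    (fun j _ => by nlinarith [hb0 j]) hCL
  set g : Fin n → Cube n → ℂ := fun j x => ((‖f j x‖ ^ 2 : ℝ) : ℂ) with hg
  have hgn : ∀ j x, ‖g j x‖ = ‖f j x‖ ^ 2 := fun j x => by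
    rw [hg]
    simp only
    rw [Complex.norm_real, Real.norm_eq_abs, abs_of_nonneg (by positivity)]
  have hBlk : Blk N J' I g := by
    refine ⟨h.pos, fun i hi j hj => h.dj i (hJ' hi) j (hJ' hj), fun j hj => h.wd j (hJ' hj),
      fun j hj x y hxy => ?_, fun j hj x => ?_⟩
    · rw [hg]
      simp only
      rw [h.on j (hJ' hj) x y hxy]
    · rw [hgn]
      exact pow_le_one₀ (norm_nonneg _) (h.le j (hJ' hj) x)
  have hav : ∀ j, av (g j) = ((b j : ℝ) : ℂ) := fun j => c0_av_ofReal _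
  have havn : ∀ j, ‖av (g j)‖ = b j := fun j => by
    rw [hav, Complex.norm_real, Real.norm_eq_abs, abs_of_nonneg (hb0 j)]
  have hloss : ∑ j ∈ J', (1 - ‖av (g j)‖) ≤ (C : ℝ) + 1 := by
    refine le_trans (sum_le_sum fun j hj => ?_) h2
    rw [havn]
    nlinarith [hb0 j, hb1 j (hJ' hj)]
  have h3 := hK n N J' I g hBlk hloss ∅ Y δ hδ hY
  simp only [Dnf.ch_empty, Complex.ofReal_one, one_mul] at h3
  have h4 : av (fun x => ∏ j ∈ J', g j x) = ∏ j ∈ J', av (g j) := av_prod hBlk.dj g hBlk.on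
  have h5 : ‖∏ j ∈ J', av (g j)‖ ≤ ε / 2 := by
    rw [norm_prod]
    calc ∏ j ∈ J', ‖av (g j)‖ ≤ ∏ j ∈ J', Real.exp (-(1 - b j ^ 2) / 2) := by
          refine prod_le_prod (fun j _ => norm_nonneg _) fun j hj => ?_
          rw [havn]
          have e1 := Real.add_one_le_exp (-(1 - b j))
          have e2 : Real.exp (-(1 - b j)) ≤ Real.exp (-(1 - b j ^ 2) / 2) := by
            apply Real.exp_le_exp.2
            nlinarith [hb0 j, hb1 j (hJ' hj)]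
          linarith
      _ = Real.exp (-(∑ j ∈ J', (1 - b j ^ 2)) / 2) := by
          rw [← Real.exp_sum, neg_div, sum_div, ← sum_neg_distrib]
          congr 1
          exact sum_congr rfl fun j _ => by ring
      _ ≤ Real.exp (-Real.log (2 / ε)) := by
          apply Real.exp_le_exp.2
          linarith
      _ = ε / 2 := by
          rw [Real.exp_neg, Real.exp_log (by positivity), inv_div]
  have h6 : ‖av fun ω => ∏ j ∈ J, f j (Y ω)‖ ^ 2 ≤ avg fun ω => ∏ j ∈ J', ‖f j (Y ω)‖ ^ 2 := by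
    refine (c0_norm_sq _).trans (avg_mono fun ω => ?_)
    rw [norm_prod, ← prod_pow, ← prod_sdiff hJ']
    calc (∏ j ∈ J \ J', ‖f j (Y ω)‖ ^ 2) * ∏ j ∈ J', ‖f j (Y ω)‖ ^ 2
        ≤ 1 * ∏ j ∈ J', ‖f j (Y ω)‖ ^ 2 := by
          refine mul_le_mul_of_nonneg_right ?_ (prod_nonneg fun j _ => by positivity)
          exact prod_le_one (fun j _ => by positivity) fun j hj =>
            pow_le_one₀ (norm_nonneg _) (h.le j (mem_sdiff.1 hj).1 _)
      _ = _ := one_mul _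
  have h7 : (avg fun ω => ∏ j ∈ J', ‖f j (Y ω)‖ ^ 2) ≤ ‖av fun ω => ∏ j ∈ J', g j (Y ω)‖ := by
    have e1 : (av fun ω => ∏ j ∈ J', g j (Y ω)) =
        ((avg fun ω => ∏ j ∈ J', ‖f j (Y ω)‖ ^ 2 : ℝ) : ℂ) := by
      rw [← c0_av_ofReal]
      congr 1
      funext ω
      rw [hg]
      push_cast
      rfl
    rw [e1, Complex.norm_real]
    exact le_abs_self _
  have h8 : ‖av fun ω => ∏ j ∈ J', g j (Y ω)‖ ≤
      ‖(av fun ω => ∏ j ∈ J', g j (Y ω)) - av fun x => ∏ j ∈ J', g j x‖ +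
        ‖av fun x => ∏ j ∈ J', g j x‖ := by
    have := norm_add_le ((av fun ω => ∏ j ∈ J', g j (Y ω)) - av fun x => ∏ j ∈ J', g j x)
      (av fun x => ∏ j ∈ J', g j x)
    rwa [sub_add_cancel] at this
  rw [h4] at h8 h3
  linarith

end Pool.Agent.MP_ca1109_lc.Pt
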