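import Pool.Agent.MP_ca1109_lc.Xp.SP
import Pool.Agent.MP_ca1109_lc.Xp.GX
import Pool.Agent.MP_ca1109_lc.Xp.SR

/-!
# Product tests over disjoint blocks: definitions

* `Blk N J I f`: the functions `f j`, `j ∈ J`, are bounded by one and depend on the disjoint blocks
  `I j` of bits, `2 ^ |I j| ≤ N`.
* `bd K n N = K * ((n + 1) * N) ^ K`: polynomial bounds.
* `co f S`: Walsh coefficients; `au f W`: autocorrelation; `cb f U`: the coefficients of `‖au f W‖²`.
* `Ls J f p`: the expected loss at density `p`; `Lo J f W`: the loss of the shift `W`.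
* `esT J D z`: sum of the elementary symmetric polynomials of order at most `D`.
* `wd η h d`: the shift by `d (h i)` on `η`.
-/

namespace Pool.Agent.MP_ca1109_lc.Pt

open Finset Pool.Agent.H66 Pool.Agent.MP_ca1109_lc.Mpg Pool.Agent.MP_ca1109_lc.Agp
  Pool.Agent.MP_ca1109_lc.Xp
open Pool.Agent.MP_ca1109_lc.Dnf (Cube ch one On)

variable {n : ℕ}

/-- The functions `f j` are bounded by one and depend on disjoint blocks `I j`, `2 ^ |I j| ≤ N`. -/
structure Blk (N : ℕ) (J : Finset (Fin n)) (I : Fin n → Finset (Fin n))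
    (f : Fin n → Cube n → ℂ) : Prop where
  pos : 1 ≤ N
  dj : ∀ i ∈ J, ∀ j ∈ J, i ≠ j → Disjoint (I i) (I j)
  wd : ∀ j ∈ J, 2 ^ (I j).card ≤ N
  on : ∀ j ∈ J, On (I j) (f j)
  le : ∀ j ∈ J, ∀ x, ‖f j x‖ ≤ 1

/-- Polynomial bounds. -/
def bd (K n N : ℕ) : ℝ := K * (((n : ℝ) + 1) * N) ^ K

/-- The Walsh coefficients. -/
noncomputable def co (f : Cube n → ℂ) (S : Finset (Fin n)) : ℂ :=
  av fun x => f x * ((ch S x : ℝ) : ℂ)

/-- The sign `(-1) ^ |S ∩ W|`. -/
def cc (S : Finset (Fin n)) (W : Cube n) : ℝ := ∏ i ∈ S, if W i = true then -1 else 1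

/-- The product of `f` and its conjugate shifted by `W`. -/
noncomputable def dr (f : Cube n → ℂ) (W : Cube n) (y : Cube n) : ℂ :=
  f y * (starRingEnd ℂ) (f (xo y W))

/-- The autocorrelation. -/
noncomputable def au (f : Cube n → ℂ) (W : Cube n) : ℂ := av (dr f W)

/-- The coefficients of the square of the autocorrelation. -/
noncomputable def cb (f : Cube n → ℂ) (U : Finset (Fin n)) : ℝ :=
  ∑ S, ‖co f S‖ ^ 2 * ‖co f (symmDiff S U)‖ ^ 2

/-- The expected loss at density `p`. -/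
noncomputable def Ls (J : Finset (Fin n)) (f : Fin n → Cube n → ℂ) (p : ℝ) : ℝ :=
  ∑ j ∈ J, (1 - ∑ U, cb (f j) U * (1 - 2 * p) ^ U.card)

/-- The loss of the shift `W`. -/
noncomputable def Lo (J : Finset (Fin n)) (f : Fin n → Cube n → ℂ) (W : Cube n) : ℝ :=
  ∑ j ∈ J, (1 - ‖au (f j) W‖ ^ 2)

/-- The sum of the elementary symmetric polynomials of order at most `D`. -/
noncomputable def esT {ι : Type*} (J : Finset ι) (D : ℕ) (z : ι → ℂ) : ℂ :=
  ∑ K ∈ J.powerset.filter (fun K => K.card ≤ D), ∏ j ∈ K, z j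

/-- The shift by `d (h i)` on `η`. -/
def wd {B : ℕ} (η : Finset (Fin n)) (h : Fin n → Fin B) (d : Fin B → Bool) : Cube n :=
  fun i => decide (i ∈ η) && d (h i)

/-- The density of `W` for the hash values in `d`. -/
noncomputable def pd (l s : ℕ) (d : Fin (2 ^ s) → Bool) : ℝ :=
  (1 / 2) ^ l * ((univ.filter fun c => d c = true).card / 2 ^ s)

end Pool.Agent.MP_ca1109_lc.Pt
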