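import Mathlib

/-!
# Products of functions of disjoint unordered blocks of bits: the class
-/

namespace Pool.Agent.MP_ca1109_lc.Pt

/-- `T x = F (∏ j, g j x)`, a product in a commutative monoid with at most `k` elements; the `g j` are
arbitrary functions of disjoint blocks of bits, the block `j` is `{i | b i = j}` and has at most
`c log n` bits. -/
def ProdTest (k c n : ℕ) (T : (Fin n → Bool) → Bool) : Prop :=
  ∃ (M : Type) (_ : CommMonoid M) (_ : Fintype M) (b : Fin n → Fin n)
    (g : Fin n → (Fin n → Bool) → M) (F : M → Bool), Fintype.card M ≤ k ∧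
    (∀ j, 2 ^ (Finset.univ.filter fun i => b i = j).card ≤ n ^ c) ∧
    (∀ j x y, (∀ i, b i = j → x i = y i) → g j x = g j y) ∧
    ∀ x, T x = F (∏ j, g j x)

end Pool.Agent.MP_ca1109_lc.Pt
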