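import Pool.Agent.MP_ca1109_lc.Pt.MA
import Pool.Agent.MP_ca1109_lc.Pt.CM
import Pool.Agent.MP_ca1109_lc.Pt.Test
import Pool.Agent.MP_ca1109_lc.Mpg.G0
import Pool.Agent.MP_ca1109_lc.Agp.N1
import Pool.Agent.MP_ca1109_lc.Agp.G3

namespace Pool.Agent.MP_ca1109_lc.Pt

open Finset Pool.Agent.H66 Pool.Agent.MP_ca1109_lc.Mpg Pool.Agent.MP_ca1109_lc.Agp
  Pool.Agent.MP_ca1109_lc.Xp
open Pool.Agent.MP_ca1109_lc.Dnf (Cube ch one On)

variable {n : ℕ}

/-! ## FI: the theorem -/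

private theorem fi_av {A : Type*} [Fintype A] (g : A → Bool) :
    ((prob g : ℝ) : ℂ) = av (fun a => ((ind (g a) : ℝ) : ℂ)) := by
  rw [prob_eq_avg]
  unfold avg av
  push_cast
  rfl

private theorem fi_av_sum {A C : Type*} [Fintype A] (s : Finset C) (b : C → ℂ) (f : C → A → ℂ) :
    av (fun a => ∑ c ∈ s, b c * f c a) = ∑ c ∈ s, b c * av (f c) := by
  unfold av
  rw [Finset.sum_comm, Finset.sum_div]
  refine Finset.sum_congr rfl fun c _ => ?_
  rw [← Finset.mul_sum, mul_div_assoc]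

private theorem fi_na_sum {C : Type*} (M : ℕ) (s : Finset C) (b : C → ℂ) (f : C → ℕ → ℂ) :
    na M (fun a => ∑ c ∈ s, b c * f c a) = ∑ c ∈ s, b c * na M (f c) := by
  rw [na_sum]
  exact Finset.sum_congr rfl fun c _ => na_mul_left _ _ _

/-- Larger classes for small `n` do not matter. -/
private theorem fi_eventually {𝒯 𝒯' : ∀ n : ℕ, ((Fin n → Bool) → Bool) → Prop} {ε : ℝ}
    (h : LogGen 𝒯 ε) (n₀ : ℕ) (h' : ∀ n ≥ n₀, ∀ T, 𝒯' n T → 𝒯 n T) : LogGen 𝒯' ε := by
  obtain ⟨D, G, hD, hG, hl, c, hc⟩ := h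
  refine ⟨D, G, hD, hG, hl, c, ?_⟩
  filter_upwards [hc, Filter.eventually_ge_atTop n₀] with n hn hn'
  exact ⟨hn.1, hn.2.1, fun T hT => hn.2.2 T (h' n hn' T hT)⟩

theorem final (k c : ℕ) {ε : ℝ} (hε : 0 < ε) : LogGen (ProdTest k c) ε := by
  classical
  obtain ⟨K, hK, HK⟩ := monoid_split k
  obtain ⟨E, G, hNG, n₀, H⟩ := main_prod c (ε := ε / K) (by positivity)
  refine fi_eventually (𝒯 := fun n T => max n₀ 1 ≤ n ∧ ProdTest k c n T)
    (logGen_of hNG fun n T hT => ?_) (max n₀ 1) fun n hn T hT => ⟨hn, hT⟩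
  obtain ⟨hn, M, iM, iF, b, g, F, hcard, hb, hg, hT⟩ := hT
  have hn0 : n₀ ≤ n := (le_max_left _ _).trans hn
  have hn1 : 1 ≤ n := (le_max_right _ _).trans hn
  obtain ⟨q, a, t, ha, ht, hF⟩ := HK M hcard n (fun m => ((ind (F m) : ℝ) : ℂ)) (by
    intro m
    rw [Complex.norm_real, Real.norm_of_nonneg (ind_nonneg _)]
    exact ind_le_one _)
  have hblk : ∀ i : Fin q, Blk (n ^ c) (univ : Finset (Fin n))
      (fun j => univ.filter fun l => b l = j) (fun j x => t i (g j x)) := by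
    intro i
    refine ⟨Nat.one_le_iff_ne_zero.2 (pow_ne_zero _ (by omega)), ?_, fun j _ => hb j, ?_,
      fun j _ x => ht i _⟩
    · intro j _ j' _ hjj
      rw [Finset.disjoint_left]
      intro l hl hl'
      rw [Finset.mem_filter] at hl hl'
      exact hjj (hl.2.symm.trans hl'.2)
    · intro j _ x y hxy
      have : g j x = g j y := hg j x y fun l hl =>
        hxy l (Finset.mem_filter.2 ⟨Finset.mem_univ _, hl⟩)
      show t i (g j x) = t i (g j y)
      rw [this]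
  have hind : ∀ x, ((ind (T x) : ℝ) : ℂ) = ∑ i, a i * ∏ j ∈ (univ : Finset (Fin n)), t i (g j x) := by
    intro x
    rw [hT x]
    exact hF fun j => g j x
  have h1 : ((nr (2 ^ E n) (fun p => ind (T (out G n p))) : ℝ) : ℂ) =
      ∑ i, a i * na (2 ^ E n) (fun p => ∏ j ∈ (univ : Finset (Fin n)), t i (g j (out G n p))) := by
    rw [nr_ofReal, ← fi_na_sum]
    exact na_congr fun p _ => hind _
  have h2 : ((prob T : ℝ) : ℂ) =
      ∑ i, a i * av (fun x => ∏ j ∈ (univ : Finset (Fin n)), t i (g j x)) := by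
    rw [fi_av, ← fi_av_sum]
    congr 1
    funext x
    exact hind x
  have h3 : |nr (2 ^ E n) (fun p => ind (T (out G n p))) - prob T|
      = ‖((nr (2 ^ E n) (fun p => ind (T (out G n p))) : ℝ) : ℂ) - ((prob T : ℝ) : ℂ)‖ := by
    rw [← Complex.ofReal_sub, Complex.norm_real, Real.norm_eq_abs]
  rw [h3, h1, h2, ← Finset.sum_sub_distrib]
  refine (norm_sum_le _ _).trans ?_
  have h4 : ∀ i ∈ (Finset.univ : Finset (Fin q)),
      ‖a i * na (2 ^ E n) (fun p => ∏ j ∈ (univ : Finset (Fin n)), t i (g j (out G n p))) -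
        a i * av (fun x => ∏ j ∈ (univ : Finset (Fin n)), t i (g j x))‖ ≤ ‖a i‖ * (ε / K) := by
    intro i _
    have h5 := H n hn0 (univ : Finset (Fin n)) (fun j => univ.filter fun l => b l = j)
      (fun j x => t i (g j x)) (hblk i)
    rw [← mul_sub, norm_mul]
    exact mul_le_mul_of_nonneg_left h5 (norm_nonneg _)
  refine (Finset.sum_le_sum h4).trans ?_
  rw [← Finset.sum_mul]
  refine (mul_le_mul_of_nonneg_right ha (by positivity)).trans (le_of_eq ?_)
  field_simp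

end Pool.Agent.MP_ca1109_lc.Pt
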